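import Mathlib

/-! Small inequalities. -/

set_option autoImplicit false

namespace Pool.Agent.H301.SX

lemma ay1 {D L : ℝ} (hL : 0 ≤ L) (h : D ≤ 2 * L) : D * L ≤ 2 * L ^ 2 := by nlinarith

lemma ay2 {L δ0 : ℝ} (hL : 1 ≤ L) (h : δ0 ≤ 1 / 16) : 1 * δ0 ≤ L ^ 2 := by nlinarith

lemma ay3 {E v : ℝ} (hE : 0 ≤ E) (hv : v ≤ 1) : E * v ≤ E := mul_le_of_le_one_right hE hv

lemma ay4 {l a L x : ℝ} (h2 : x ≤ l + (1 + a) * L) (h3 : l ≤ 1) (hL : 1 ≤ L) (ha : a ≤ 1 / 2) : x ≤ 3 * L := by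
  nlinarith

lemma ay5 {K L V U : ℝ} (h : 1 ≤ V * (K * L)) (hU : 0 ≤ U) : U ≤ K * (U * V) * L := by nlinarith

lemma ay6 {E l K L U : ℝ} (h : E * l ≤ K * (3 * L)) (hU : 0 ≤ U) : E * U * l ≤ 3 * K * U * L := by nlinarith

lemma ay7 {C t : ℝ} (hC : 1 ≤ C) (ht : 0 < t) : t ≤ C * t := le_mul_of_one_le_left ht.le hC

lemma ay8 {C t s : ℝ} (h : 2 * C ≤ s) (hC : 1 ≤ C) (ht : 0 < t) : C * t ≤ t * s := by
  have : C ≤ s := by linarith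
  calc C * t ≤ s * t := mul_le_mul_of_nonneg_right this ht.le
    _ = t * s := mul_comm _ _

lemma ay9 {t L U : ℝ} (ht : 0 < t) (hL : 1 ≤ L) (h : t * L ≤ U) : t ≤ U := (le_mul_of_one_le_right ht.le hL).trans h

lemma ay10 {C t L U y : ℝ} (ht : 1 ≤ t) (hC : 1 ≤ C) (hL : 2 * C ≤ L) (h : t * L ≤ U) (hy : y < C * t + 1) : y ≤ U := by
  have h1 : t * (2 * C) ≤ t * L := mul_le_mul_of_nonneg_left hL (by linarith)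
  have h2 : 1 ≤ C * t := by nlinarith
  nlinarith

lemma ay11 {ρ v : ℝ} (hρ : 0 ≤ ρ) (hv : v ≤ 1) : 0 ≤ ρ - ρ * v := by nlinarith

lemma ay12 {ρ v s : ℝ} (hρ : 0 ≤ ρ) (hv : 1 - s ≤ v) : ρ - ρ * v ≤ s * ρ := by nlinarith

lemma ay13 {C L : ℝ} (hC : 1 ≤ C) (h : 16 * C ^ 2 ≤ L) : 2 * C ≤ L := by nlinarith

lemma ay14 {C t L : ℝ} (ht : 0 < t) (h : 2 * C ≤ L) : 2 * C * t ≤ t * L := by nlinarith

lemma ay15 {C L : ℝ} (h0 : 0 < L) (h : 16 * C ^ 2 ≤ L) : ¬ L < (2 * C) * (2 * C) := by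
  intro h1
  nlinarith

end Pool.Agent.H301.SX
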