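import Pool.Agent.H301.SX.Sand
import Pool.Agent.H301.SX.Ineq
import Pool.Graph.R_pool_sql_team_seeded_63374d34.N422.LG.RECU2
import Pool.Graph.R_pool_sql_team_seeded_63374d34.N422.LG.FINU

/-! The model: weights of level `Q`, the integers free of the primes up to `Q` and those free of the primes of the
modulus. -/

set_option autoImplicit false

namespace Pool.Agent.H301.SX

open Finset Filter Topology
open Pool.Agent.Y829 (HS Sf mem_HS V V_insert)
open Pool.Agent.N422.SL (wt)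
open Pool.Agent.N422.LG

/-- from the limit `t^(1+a)` to the level of the weight -/
theorem recur (a : ℝ) (ha : 0 < a) (η : ℝ) (hη : 0 < η) : ∀ᶠ t : ℝ in atTop, ∀ Q : ℕ,
    t / 1000 ≤ Real.log Q → Real.log Q ≤ t → ∀ U : ℕ, ⌈t ^ (1 + a)⌉₊ ≤ U → ∀ c : ℕ → ℕ → ℝ, (∀ n, 0 ≤ wt Q c n) →
    ⌈t ^ (1 + a)⌉₊ ≤ Q ∧
    |mQ Q (fun n => wt Q c n * ((Sv U Q n).card : ℝ)) -
      Real.exp (-(RECD Q ⌈t ^ (1 + a)⌉₊)) * mQ Q (fun n => wt Q c n * ((Sv U ⌈t ^ (1 + a)⌉₊ n).card : ℝ))| ≤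
      η * (Real.exp (-(RECD Q ⌈t ^ (1 + a)⌉₊)) * mQ Q (fun n => wt Q c n * ((Sv U ⌈t ^ (1 + a)⌉₊ n).card : ℝ))) +
      η * (U / t) * mQ Q (wt Q c) := by
  obtain ⟨K, hK, hM⟩ := t_MERB2
  have hRU : S_RECU2 := t_RECU2 Pool.Agent.H301.SV.hitu_all
  obtain ⟨δ0, hδ0, hδ01, hδ02⟩ : ∃ δ0 : ℝ, 0 < δ0 ∧ δ0 ≤ 1 / 16 ∧ 16 * δ0 ≤ η :=
    ⟨min (1 / 16) (η / 16), lt_min (by norm_num) (by positivity), min_le_left _ _, by
      have := min_le_right (1 / 16) (η / 16)
      linarith⟩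
  have hl : Tendsto Real.log atTop atTop := Real.tendsto_log_atTop
  have ev1 : ∀ᶠ t : ℝ in atTop, (240 * K / δ0 ^ 2) * Real.log t ^ 3 ≤ η * t ^ a := by
    have h1 := (isLittleO_log_rpow_rpow_atTop (3 : ℝ) ha).bound
      (show (0 : ℝ) < η / (240 * K / δ0 ^ 2) by positivity)
    filter_upwards [h1, eventually_gt_atTop (1 : ℝ)] with t h2 h3
    have h4 : 0 < Real.log t := Real.log_pos h3
    rw [Real.norm_of_nonneg (Real.rpow_nonneg h4.le _),
      Real.norm_of_nonneg (Real.rpow_nonneg (by linarith) _)] at h2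
    have h5 : Real.log t ^ (3 : ℝ) = Real.log t ^ 3 := by
      rw [show (3 : ℝ) = ((3 : ℕ) : ℝ) by norm_num, Real.rpow_natCast]
    rw [h5] at h2
    have h6 : 0 < 240 * K / δ0 ^ 2 := by positivity
    have h7 := mul_le_mul_of_nonneg_left h2 h6.le
    have h8 : (240 * K / δ0 ^ 2) * (η / (240 * K / δ0 ^ 2) * t ^ a) = η * t ^ a := by
      field_simp
    linarith
  have ev2 : ∀ᶠ t : ℝ in atTop, t ^ (1 + a) + 1 ≤ Real.exp (t / 1000) := by
    have h1 := (isLittleO_rpow_exp_pos_mul_atTop (1 + a) (show (0 : ℝ) < 1 / 1000 by norm_num)).bound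
      (show (0 : ℝ) < 1 / 2 by norm_num)
    filter_upwards [h1, eventually_ge_atTop (1 : ℝ)] with t h2 h3
    rw [Real.norm_of_nonneg (Real.rpow_nonneg (by linarith) _), Real.norm_of_nonneg (Real.exp_pos _).le] at h2
    have h4 : 1 ≤ t ^ (1 + a) := Real.one_le_rpow h3 (by linarith)
    have h5 : (1 : ℝ) / 1000 * t = t / 1000 := by ring
    rw [h5] at h2
    linarith
  have ev3 : ∀ᶠ t : ℝ in atTop, Real.log t ≤ δ0 * t := by
    filter_upwards [Real.isLittleO_log_id_atTop.bound hδ0, eventually_ge_atTop (1 : ℝ)] with t h1 h2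
    rw [Real.norm_of_nonneg (Real.log_nonneg h2), id, Real.norm_of_nonneg (by linarith)] at h1
    exact h1
  filter_upwards [ev1, ev2, ev3, hl.eventually_ge_atTop (1 : ℝ), eventually_ge_atTop (max 4 K)] with t ht1 ht2 ht5 ht3 ht4
  intro Q hQ1 hQ2 U hU c hw
  have ht4' : 4 ≤ t := (le_max_left _ _).trans ht4
  have htK : K ≤ t := (le_max_right _ _).trans ht4
  have ht0 : (0 : ℝ) < t := by linarith
  set L := Real.log t with hL
  set y := ⌈t ^ (1 + a)⌉₊ with hy
  have hyt : t ^ (1 + a) ≤ (y : ℝ) := Nat.le_ceil _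
  have hyt2 : (y : ℝ) < t ^ (1 + a) + 1 := Nat.ceil_lt_add_one (Real.rpow_nonneg ht0.le _)
  have hpw : t ≤ t ^ (1 + a) := by
    calc t = t ^ (1 : ℝ) := (Real.rpow_one t).symm
      _ ≤ t ^ (1 + a) := Real.rpow_le_rpow_of_exponent_le (by linarith) (by linarith)
  have hy4 : (4 : ℝ) ≤ y := by linarith
  have hy0 : (0 : ℝ) < y := by linarith
  have hy2 : 2 ≤ y := by
    have : (2 : ℝ) ≤ y := by linarith
    exact_mod_cast this
  have hQ0 : (0 : ℝ) < Q := by
    rcases Nat.eq_zero_or_pos Q with h | h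
    · rw [h, Nat.cast_zero, Real.log_zero] at hQ1
      linarith
    · exact_mod_cast h
  have hyQ : y ≤ Q := by
    have h1 : Real.exp (t / 1000) ≤ Q := by
      rw [← Real.exp_log hQ0]
      exact Real.exp_le_exp.2 hQ1
    have h2 : (y : ℝ) ≤ Q := by linarith
    exact_mod_cast h2
  refine ⟨hyQ, ?_⟩
  set D := RECD Q y with hD
  have hD0 : 0 ≤ D := RECD_nonneg Q y
  have hly1 : 1 ≤ Real.log y := by
    have h1 : t ≤ y := by linarith
    exact ht3.trans (Real.log_le_log ht0 h1)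
  have hlQ0 : 0 < Real.log Q := by
    have : 0 < t / 1000 := by positivity
    linarith
  have hDL : D ≤ 2 * L := by
    have h1 := (hM y Q hy2 hyQ).2.1
    have h1' : Real.log y / Real.log Q ≤ K * Real.exp (-D) := h1
    have h2 : 1 / t ≤ Real.log y / Real.log Q := div_le_div₀ (by linarith) hly1 hlQ0 hQ2
    have h3 : Real.exp D ≤ K * t := by
      have h4 : 1 / t ≤ K * Real.exp (-D) := h2.trans h1'
      rw [Real.exp_neg, ← div_eq_mul_inv, div_le_div_iff₀ ht0 (Real.exp_pos _)] at h4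
      linarith
    have h5 : D ≤ Real.log (K * t) := by
      rw [← Real.log_exp D]
      exact Real.log_le_log (Real.exp_pos _) h3
    rw [Real.log_mul (by linarith) ht0.ne'] at h5
    have h6 : Real.log K ≤ L := Real.log_le_log (by linarith) htK
    linarith
  set δ := δ0 / L with hδ
  have hL0 : 0 < L := by linarith
  have hδp : 0 < δ := by positivity
  have hδδ0 : δ ≤ δ0 := div_le_self hδ0.le ht3
  have hδ16 : δ ≤ 1 / 16 := hδδ0.trans hδ01
  have hδL : δ * L = δ0 := by rw [hδ]; field_simp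
  have hδD : δ * D ≤ 2 * δ0 := by
    calc δ * D ≤ δ * (2 * L) := mul_le_mul_of_nonneg_left hDL hδp.le
      _ = 2 * δ0 := by rw [← hδL]; ring
  have hta : 0 < t ^ a := Real.rpow_pos_of_pos ht0 _
  have htt : t ^ (1 + a) = t * t ^ a := by rw [Real.rpow_add ht0, Real.rpow_one]
  have hyδ : 1 / (y : ℝ) ≤ δ := by
    rw [div_le_iff₀ hy0, hδ, div_mul_eq_mul_div, le_div_iff₀ hL0, one_mul]
    calc L ≤ δ0 * t := ht5
      _ ≤ δ0 * t ^ (1 + a) := mul_le_mul_of_nonneg_left hpw hδ0.le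
      _ ≤ δ0 * y := mul_le_mul_of_nonneg_left hyt hδ0.le
  set B := mQ Q (fun n => wt Q c n * ((Sv U y n).card : ℝ)) with hB
  set AQ := mQ Q (fun n => wt Q c n * ((Sv U Q n).card : ℝ)) with hAQ
  set m := mQ Q (wt Q c) with hm
  have hm0 : 0 ≤ m := REC_mQ_nonneg hw
  have hB0 : 0 ≤ B := REC_mQ_nonneg (fun n => mul_nonneg (hw n) (Nat.cast_nonneg _))
  have hE0 : 0 < Real.exp (-D) := Real.exp_pos _
  have hU0 : (0 : ℝ) ≤ U := Nat.cast_nonneg _
  have hyU : (y : ℝ) ≤ U := by exact_mod_cast hU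
  -- the error
  have herr : (D / δ + 1) * ((U / y + 1) * (40 * K / δ)) ≤ η * (U / t) := by
    have h1 : D / δ + 1 ≤ 3 * L ^ 2 / δ0 := by
      have h2 : D / δ ≤ 2 * L ^ 2 / δ0 := by
        rw [hδ, div_div_eq_mul_div]
        apply div_le_div_of_nonneg_right _ hδ0.le
        exact ay1 hL0.le hDL
      have h3 : 1 ≤ L ^ 2 / δ0 := by
        rw [le_div_iff₀ hδ0]
        exact ay2 ht3 hδ01
      calc D / δ + 1 ≤ 2 * L ^ 2 / δ0 + L ^ 2 / δ0 := by linarith
        _ = 3 * L ^ 2 / δ0 := by ring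
    have h2 : (U : ℝ) / y + 1 ≤ 2 * U / t ^ (1 + a) := by
      have h3 : (1 : ℝ) ≤ U / y := by
        rw [le_div_iff₀ hy0]
        linarith
      have h4 : (U : ℝ) / y ≤ U / t ^ (1 + a) := div_le_div_of_nonneg_left hU0 (by positivity) hyt
      calc (U : ℝ) / y + 1 ≤ 2 * (U / t ^ (1 + a)) := by linarith
        _ = 2 * U / t ^ (1 + a) := by ring
    have h3 : 40 * K / δ = 40 * K * L / δ0 := by
      rw [hδ]
      field_simp
    rw [h3]
    have h4 : 0 ≤ (U : ℝ) / y + 1 := by positivity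
    have h5 : 0 ≤ 40 * K * L / δ0 := by positivity
    calc (D / δ + 1) * ((U / y + 1) * (40 * K * L / δ0)) ≤
        (3 * L ^ 2 / δ0) * ((2 * U / t ^ (1 + a)) * (40 * K * L / δ0)) :=
          mul_le_mul h1 (mul_le_mul_of_nonneg_right h2 h5) (by positivity) (by positivity)
      _ = (240 * K / δ0 ^ 2 * L ^ 3) * (U / (t * t ^ a)) := by
          rw [htt]
          field_simp
          ring
      _ ≤ (η * t ^ a) * (U / (t * t ^ a)) := mul_le_mul_of_nonneg_right ht1 (by positivity)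
      _ = η * (U / t) := by field_simp
  have herrm := mul_le_mul_of_nonneg_right herr hm0
  -- the lower bound
  have hlow := rec2 Q U y δ K c hy2 hyQ hδp hδ16 hyδ hw (fun z hz1 hz2 => (hM z Q (hy2.trans hz1) hz2).1)
  rw [← hB, ← hAQ, ← hm, ← hD] at hlow
  have f1 : (1 - η) * Real.exp (-D) ≤ Real.exp (-((1 + 8 * δ) * D)) := by
    have e1 : -((1 + 8 * δ) * D) = -(8 * (δ * D)) + -D := by ring
    rw [e1, Real.exp_add]
    apply mul_le_mul_of_nonneg_right _ hE0.le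
    have := Real.add_one_le_exp (-(8 * (δ * D)))
    linarith
  have f2 := mul_le_mul_of_nonneg_right f1 hB0
  -- the upper bound
  have hup := hRU Q U y δ (2 * K) c hy2 hyQ hδp hδ16 hyδ hw (fun z hz1 hz2 => by
    have g1 := (hM z Q (hy2.trans hz1) hz2).1
    have g2 : RECD Q z ≤ D := by
      rw [hD, RECD_add hz1 hz2]
      linarith [RECD_nonneg z y]
    have g3 : Real.exp (-((1 - 3 * δ) * RECD Q z)) ≤ 2 * Real.exp (-(RECD Q z)) := by
      have e1 : -((1 - 3 * δ) * RECD Q z) = 3 * (δ * RECD Q z) + -(RECD Q z) := by ring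
      rw [e1, Real.exp_add]
      apply mul_le_mul_of_nonneg_right _ (Real.exp_pos _).le
      have g4 : δ * RECD Q z ≤ δ * D := mul_le_mul_of_nonneg_left g2 hδp.le
      have g5 : 0 ≤ δ * RECD Q z := mul_nonneg hδp.le (RECD_nonneg _ _)
      have g6 := FINU_exp (x := 3 * (δ * RECD Q z)) (by positivity) (by linarith)
      linarith
    have g7 : 0 ≤ Real.log Q / Real.log z :=
      div_nonneg (Real.log_natCast_nonneg Q) (Real.log_natCast_nonneg z)
    have g8 := mul_le_mul_of_nonneg_right g3 g7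
    have g9 : 2 * Real.exp (-(RECD Q z)) * (Real.log Q / Real.log z) ≤ 2 * K := by
      have : Real.exp (-(RECD Q z)) * (Real.log Q / Real.log z) ≤ K := g1
      linarith
    exact g8.trans g9)
  have hup' : AQ ≤ Real.exp (-((1 - 3 * δ) * D)) * B + (D / δ + 1) * ((U / y + 1) * (2 * (2 * K) / δ)) * m := hup
  have f3 : Real.exp (-((1 - 3 * δ) * D)) ≤ (1 + η) * Real.exp (-D) := by
    have e1 : -((1 - 3 * δ) * D) = 3 * (δ * D) + -D := by ring
    rw [e1, Real.exp_add]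
    apply mul_le_mul_of_nonneg_right _ hE0.le
    have g5 : 0 ≤ δ * D := mul_nonneg hδp.le hD0
    have g6 := FINU_exp (x := 3 * (δ * D)) (by positivity) (by linarith)
    linarith
  have f4 := mul_le_mul_of_nonneg_right f3 hB0
  have f5 : (D / δ + 1) * ((U / y + 1) * (2 * (2 * K) / δ)) * m ≤ (D / δ + 1) * ((U / y + 1) * (40 * K / δ)) * m := by
    apply mul_le_mul_of_nonneg_right _ hm0
    apply mul_le_mul_of_nonneg_left _ (by positivity)
    apply mul_le_mul_of_nonneg_left _ (by positivity)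
    apply div_le_div_of_nonneg_right _ hδp.le
    linarith
  rw [abs_le]
  constructor
  · linarith
  · linarith

/-- the model -/
theorem model (A : ℝ) (hA : 1 < A) (hA2 : A ≤ 2) (η : ℝ) (hη : 0 < η) : ∃ σ : ℝ, 0 < σ ∧ ∀ᶠ t : ℝ in atTop,
    ∀ Q : ℕ, t / 1000 ≤ Real.log Q → Real.log Q ≤ t → ∀ U : ℕ, t ^ A ≤ U → ∀ PW : Finset ℕ,
    (∀ p ∈ PW, p.Prime ∧ (p : ℝ) ≤ t) →
    ∑ p ∈ (Icc 1 ⌊t / 1000⌋₊).filter (fun p => p.Prime ∧ p ∉ PW), 1 / (p : ℝ) ≤ σ →
    ∀ c : ℕ → ℕ → ℝ, (∀ n, 0 ≤ wt Q c n) →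
    |mQ Q (fun n => wt Q c n * ((Sv U Q n).card : ℝ)) - VV Q / V PW * mQ Q (fun n => wt Q c n * Sf PW n U)| ≤
      η * (U * VV Q) * mQ Q (wt Q c) := by
  classical
  obtain ⟨C, hC, hsand⟩ := sand A hA hA2
  obtain ⟨K, hK, hM⟩ := t_MERB2
  set θ : ℝ := min (min (1 / 2) ((A - 1) / 4)) (η / (90 * K ^ 2 * C)) with hθ
  have hθ0 : 0 < θ := lt_min (lt_min (by norm_num) (by linarith)) (by positivity)
  have hθ1 : θ ≤ 1 / 2 := (min_le_left _ _).trans (min_le_left _ _)
  have hθ2 : θ ≤ (A - 1) / 4 := (min_le_left _ _).trans (min_le_right _ _)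
  have hθ3 : θ ≤ η / (90 * K ^ 2 * C) := min_le_right _ _
  set η1 : ℝ := η / (2 * (3 * K ^ 2 * C + K)) with hη1
  have hη10 : 0 < η1 := by positivity
  refine ⟨θ, hθ0, ?_⟩
  have hl : Tendsto Real.log atTop atTop := Real.tendsto_log_atTop
  filter_upwards [hsand θ hθ0 hθ2, recur θ hθ0 η1 hη10, eventually_ge_atTop (max 4 (4 / θ)),
    hl.eventually_ge_atTop (1 : ℝ), (tendsto_rpow_atTop (show (0 : ℝ) < A - (1 + θ) by linarith)).eventually_ge_atTop 2]
    with t ht1 ht2 ht3 ht4 ht5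
  intro Q hQ1 hQ2 U hU PW hPW hsum c hw
  have ht3' : 4 ≤ t := (le_max_left _ _).trans ht3
  have ht3'' : 4 / θ ≤ t := (le_max_right _ _).trans ht3
  have ht0 : (0 : ℝ) < t := by linarith
  set L := Real.log t with hL
  have hL0 : 0 < L := by linarith
  set y := ⌈t ^ (1 + θ)⌉₊ with hy
  have hyt : t ^ (1 + θ) ≤ (y : ℝ) := Nat.le_ceil _
  have hyt2 : (y : ℝ) < t ^ (1 + θ) + 1 := Nat.ceil_lt_add_one (Real.rpow_nonneg ht0.le _)
  have hpw : t ≤ t ^ (1 + θ) := by
    calc t = t ^ (1 : ℝ) := (Real.rpow_one t).symm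
      _ ≤ t ^ (1 + θ) := Real.rpow_le_rpow_of_exponent_le (by linarith) (by linarith)
  have hy4 : (4 : ℝ) ≤ y := by linarith
  have hy0 : (0 : ℝ) < y := by linarith
  have hy2 : 2 ≤ y := by
    have : (2 : ℝ) ≤ y := by linarith
    exact_mod_cast this
  have hyU : y ≤ U := by
    have h1 : (y : ℝ) ≤ 2 * t ^ (1 + θ) := by linarith
    have h2 : 2 * t ^ (1 + θ) ≤ t ^ A := by
      have h3 : t ^ A = t ^ (A - (1 + θ)) * t ^ (1 + θ) := by
        rw [← Real.rpow_add ht0]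
        congr 1
        ring
      rw [h3]
      exact mul_le_mul_of_nonneg_right ht5 (by positivity)
    have h3 : (y : ℝ) ≤ U := by linarith
    exact_mod_cast h3
  obtain ⟨hyQ, hrec⟩ := ht2 Q hQ1 hQ2 U hyU c hw
  obtain ⟨hMy, hpt⟩ := ht1 U hU PW hPW θ hθ1 hsum
  set σ' : ℝ := θ + 4 * θ with hσ'
  have hσ0 : 0 < σ' := by positivity
  set D := RECD Q y with hD
  set E := Real.exp (-D) with hE
  have hE0 : 0 < E := Real.exp_pos _
  set B := mQ Q (fun n => wt Q c n * ((Sv U y n).card : ℝ)) with hB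
  set AQ := mQ Q (fun n => wt Q c n * ((Sv U Q n).card : ℝ)) with hAQ
  set N := mQ Q (fun n => wt Q c n * Sf PW n U) with hN
  set m := mQ Q (wt Q c) with hm
  have hm0 : 0 ≤ m := REC_mQ_nonneg hw
  have hU0 : (0 : ℝ) ≤ U := Nat.cast_nonneg _
  have hs0 : 0 ≤ (U : ℝ) / L := by positivity
  have hB0 : 0 ≤ B := REC_mQ_nonneg (fun n => mul_nonneg (hw n) (Nat.cast_nonneg _))
  have hBN : B ≤ N := REC_mQ_mono (fun n => mul_le_mul_of_nonneg_left (hpt n).1 (hw n))
  have hmul : ∀ x : ℝ, mQ Q (fun n => wt Q c n * x) = x * m := by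
    intro x
    rw [hm, ← FIN_smul]
    congr 1
    ext n
    ring
  have hNB : N ≤ B + C * σ' * (U / L) * m := by
    have h1 : N ≤ mQ Q (fun n => wt Q c n * ((Sv U y n).card : ℝ) + wt Q c n * (C * σ' * (U / L))) := by
      apply REC_mQ_mono
      intro n
      rw [← mul_add]
      exact mul_le_mul_of_nonneg_left (hpt n).2.1 (hw n)
    rw [REC_mQ_add, hmul] at h1
    exact h1
  have hNC : N ≤ C * (U / L) * m := by
    have h1 : N ≤ mQ Q (fun n => wt Q c n * (C * (U / L))) := by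
      apply REC_mQ_mono
      intro n
      exact mul_le_mul_of_nonneg_left (hpt n).2.2 (hw n)
    rw [hmul] at h1
    exact h1
  -- the densities
  set R := ((Icc 1 y).filter Nat.Prime) \ PW with hR
  have hPWsub : PW ⊆ (Icc 1 y).filter Nat.Prime := by
    intro p hp
    rw [mem_filter, mem_Icc]
    have h1 : (p : ℝ) ≤ y := by linarith [(hPW p hp).2]
    exact ⟨⟨(hPW p hp).1.pos, by exact_mod_cast h1⟩, (hPW p hp).1⟩
  have hVy : V PW * V R = VV y := by
    rw [VV_eq]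
    unfold V
    rw [hR, mul_comm]
    exact prod_sdiff hPWsub
  have hRp : ∀ p ∈ R, p.Prime := by
    intro q hq
    rw [hR, Finset.mem_sdiff, mem_filter] at hq
    exact hq.1.2
  have hReq : R = (Icc 1 y).filter (fun p => p.Prime ∧ p ∉ PW) := by
    ext p
    rw [hR, Finset.mem_sdiff, mem_filter, mem_filter]
    tauto
  have hVR1 := V_le_one R hRp
  have hVR0 := V_pos R hRp
  have hVR2 : 1 - σ' ≤ V R := by
    have h1 := V_ge R hRp
    rw [hReq] at h1 ⊢
    linarith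
  have hVP0 := V_pos PW (fun p hp => (hPW p hp).1)
  set ρ := VV Q / V PW with hρ
  have hρV : ρ * V PW = VV Q := by rw [hρ]; field_simp
  have hVV0 : 0 < VV Q := MERB_pos Q
  have hρ0 : 0 < ρ := by positivity
  have k1 : ρ ≤ E * V R := by
    have h1 : VV Q ≤ E * VV y := FIN_VV y Q hyQ
    rw [← hVy] at h1
    rw [hρ, div_le_iff₀ hVP0]
    linarith
  have k2 : E * V R ≤ Real.exp (2 / (y : ℝ)) * ρ := by
    have h1 : E * VV y ≤ Real.exp (2 / (y : ℝ)) * VV Q := FINU_VV y Q hy2 hyQ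
    rw [← hVy, ← hρV] at h1
    have h2 : (E * V R) * V PW ≤ (Real.exp (2 / (y : ℝ)) * ρ) * V PW := by linarith
    exact le_of_mul_le_mul_right h2 hVP0
  have k3 : ρ ≤ E := k1.trans (ay3 hE0.le hVR1)
  have k4 : E - ρ ≤ 2 * σ' * E := by
    have h1 : 2 / (y : ℝ) ≤ 1 / 2 := by
      rw [div_le_iff₀ hy0]
      linarith
    have h2 := FINU_exp (x := 2 / (y : ℝ)) (by positivity) h1
    have h3 : Real.exp (2 / (y : ℝ)) * ρ ≤ (1 + 2 * (2 / (y : ℝ))) * ρ := mul_le_mul_of_nonneg_right h2 hρ0.le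
    have h4 : 2 * (2 / (y : ℝ)) * ρ ≤ θ * E := by
      have h5 : 2 * (2 / (y : ℝ)) ≤ θ := by
        have h6 : 4 / θ ≤ y := by linarith
        rw [div_le_iff₀ hθ0] at h6
        have h7 : 2 * (2 / (y : ℝ)) = 4 / y := by ring
        rw [h7, div_le_iff₀ hy0]
        linarith
      exact mul_le_mul h5 k3 hρ0.le hθ0.le
    have h5 : (1 - σ') * E ≤ E * V R := by
      rw [mul_comm]
      exact mul_le_mul_of_nonneg_left hVR2 hE0.le
    have h6 : θ * E ≤ σ' * E := mul_le_mul_of_nonneg_right (by rw [hσ']; linarith) hE0.le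
    linarith
  -- the size of `E`
  have hlQ0 : 0 < Real.log Q := by
    have : 0 < t / 1000 := by positivity
    linarith
  have hly : Real.log y ≤ 3 * L := by
    have h1 : (y : ℝ) ≤ 2 * t ^ (1 + θ) := by linarith
    have h2 : Real.log y ≤ Real.log (2 * t ^ (1 + θ)) := Real.log_le_log hy0 h1
    rw [Real.log_mul (by norm_num) (by positivity), Real.log_rpow ht0] at h2
    have h3 : Real.log 2 ≤ 1 := by
      have := Real.log_two_lt_d9
      linarith
    exact ay4 h2 h3 ht4 hθ1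
  have hly0 : 0 < Real.log y := Real.log_pos (by linarith)
  have hUV : (U : ℝ) / Real.log Q ≤ K * (U * VV Q) := by
    have h1 := (hM Q Q (hy2.trans hyQ) le_rfl).2.2.1
    rw [div_le_iff₀ (by positivity)] at h1
    rw [div_le_iff₀ hlQ0]
    exact ay5 h1 hU0
  have hEs : E * (U / L) ≤ 3 * K ^ 2 * (U * VV Q) := by
    have h1 : E * (Real.log Q / Real.log y) ≤ K := (hM y Q hy2 hyQ).1
    have h2 : E * Real.log Q ≤ K * Real.log y := by
      rw [← mul_div_assoc, div_le_iff₀ hly0] at h1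
      exact h1
    have h3 : E * Real.log Q ≤ K * (3 * L) := h2.trans (mul_le_mul_of_nonneg_left hly (by linarith))
    have h4 : E * (U / L) ≤ 3 * K * (U / Real.log Q) := by
      rw [← mul_div_assoc, ← mul_div_assoc, div_le_div_iff₀ hL0 hlQ0]
      exact ay6 h3 hU0
    have h5 : 3 * K * (U / Real.log Q) ≤ 3 * K * (K * (U * VV Q)) :=
      mul_le_mul_of_nonneg_left hUV (by positivity)
    linarith
  have hUt : (U : ℝ) / t ≤ K * (U * VV Q) :=
    (div_le_div_of_nonneg_left hU0 hlQ0 hQ2).trans hUV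
  -- conclusion
  set Y := (U : ℝ) * VV Q with hY
  have hY0 : 0 ≤ Y := by positivity
  have hN0 : 0 ≤ N := hB0.trans hBN
  have q1 : η1 * (E * B) ≤ η1 * (3 * K ^ 2 * C * (Y * m)) := by
    apply mul_le_mul_of_nonneg_left _ hη10.le
    calc E * B ≤ E * (C * (U / L) * m) := mul_le_mul_of_nonneg_left (hBN.trans hNC) hE0.le
      _ = C * m * (E * (U / L)) := by ring
      _ ≤ C * m * (3 * K ^ 2 * Y) := mul_le_mul_of_nonneg_left hEs (by positivity)
      _ = 3 * K ^ 2 * C * (Y * m) := by ring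
  have q2 : η1 * (U / t) * m ≤ η1 * (K * (Y * m)) := by
    calc η1 * (U / t) * m = η1 * m * (U / t) := by ring
      _ ≤ η1 * m * (K * Y) := mul_le_mul_of_nonneg_left hUt (by positivity)
      _ = η1 * (K * (Y * m)) := by ring
  have q3 : E * (N - B) ≤ 3 * K ^ 2 * C * σ' * (Y * m) := by
    calc E * (N - B) ≤ E * (C * σ' * (U / L) * m) := mul_le_mul_of_nonneg_left (by linarith) hE0.le
      _ = C * σ' * m * (E * (U / L)) := by ring
      _ ≤ C * σ' * m * (3 * K ^ 2 * Y) := mul_le_mul_of_nonneg_left hEs (by positivity)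
      _ = 3 * K ^ 2 * C * σ' * (Y * m) := by ring
  have q4 : (E - ρ) * N ≤ 6 * K ^ 2 * C * σ' * (Y * m) := by
    calc (E - ρ) * N ≤ (2 * σ' * E) * N := mul_le_mul_of_nonneg_right k4 hN0
      _ ≤ (2 * σ' * E) * (C * (U / L) * m) := mul_le_mul_of_nonneg_left hNC (by positivity)
      _ = 2 * σ' * C * m * (E * (U / L)) := by ring
      _ ≤ 2 * σ' * C * m * (3 * K ^ 2 * Y) := mul_le_mul_of_nonneg_left hEs (by positivity)
      _ = 6 * K ^ 2 * C * σ' * (Y * m) := by ring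
  have q5 : 0 ≤ (E - ρ) * N := mul_nonneg (by linarith) hN0
  have q6 : 0 ≤ E * (N - B) := mul_nonneg hE0.le (by linarith)
  have hYm : 0 ≤ Y * m := mul_nonneg hY0 hm0
  have q7 : η1 * (3 * K ^ 2 * C * (Y * m)) + η1 * (K * (Y * m)) = η / 2 * (Y * m) := by
    rw [hη1]
    field_simp
  have q8 : 9 * K ^ 2 * C * σ' * (Y * m) ≤ η / 2 * (Y * m) := by
    apply mul_le_mul_of_nonneg_right _ hYm
    have h1 : 90 * K ^ 2 * C * θ ≤ η := by
      have := (le_div_iff₀ (by positivity)).1 hθ3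
      linarith
    rw [hσ']
    linarith
  have e0 : E * (N - B) = E * N - E * B := by ring
  have e1 : (E - ρ) * N = E * N - ρ * N := by ring
  have hrec' := abs_le.1 hrec
  rw [abs_le]
  constructor
  · have : -(η * Y * m) = -(η / 2 * (Y * m)) - η / 2 * (Y * m) := by ring
    rw [this]
    linarith [hrec'.1]
  · have : η * Y * m = η / 2 * (Y * m) + η / 2 * (Y * m) := by ring
    rw [this]
    linarith [hrec'.2]

end Pool.Agent.H301.SX
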