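import Pool.Agent.H301.SX.Prime

/-! Pointwise comparison, classes and means. -/

set_option autoImplicit false

namespace Pool.Agent.H301.SX

open Finset Filter Topology
open Pool.Agent.Y829 (HS Sf mem_HS V V_insert)
open Pool.Agent.N422.LG

/-- the numbers free of the primes of the modulus and those free of the primes up to `t` -/
theorem pointwise (η : ℝ) (hη : 0 < η) : ∃ σ : ℝ, 0 < σ ∧ ∀ᶠ t : ℝ in atTop, ∀ U : ℕ,
    t * Real.log t ≤ U → ∀ P : Finset ℕ, (∀ p ∈ P, p.Prime ∧ (p : ℝ) ≤ t) →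
    ∑ p ∈ (Icc 1 ⌊t / 1000⌋₊).filter (fun p => p.Prime ∧ p ∉ P), 1 / (p : ℝ) ≤ σ →
    ∑ p ∈ (Icc 1 ⌊t / 1000⌋₊).filter (fun p => p.Prime ∧ p ∉ P ∧ t ^ (1 / 2 : ℝ) < p), 1 / (p : ℝ) ≤
      σ / Real.log t → ∀ n,
      |Sf P n U / (U * V P) - ((Sv U ⌊t⌋₊ n).card : ℝ) / (U * VV ⌊t⌋₊)| ≤ η := by
  classical
  obtain ⟨C, hC, hG⟩ := upG
  obtain ⟨K, hK, hM⟩ := t_MERB2
  obtain ⟨σ0, hσ0, hs⟩ := sand2 1 le_rfl (η / K) (by positivity)
  set σ : ℝ := min σ0 (min (1 / 8) (η / (8 * C))) with hσ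
  have hσp : 0 < σ := lt_min hσ0 (lt_min (by norm_num) (by positivity))
  have hσ1 : σ ≤ σ0 := min_le_left _ _
  have hσ2 : σ ≤ 1 / 8 := (min_le_right _ _).trans (min_le_left _ _)
  have hσ3 : 8 * C * σ ≤ η := by
    have h1 : σ ≤ η / (8 * C) := (min_le_right _ _).trans (min_le_right _ _)
    rw [le_div_iff₀ (by positivity)] at h1
    linarith
  refine ⟨σ, hσp, ?_⟩
  have hl : Tendsto Real.log atTop atTop := Real.tendsto_log_atTop
  filter_upwards [hG, hs, shortC 1 le_rfl, eventually_ge_atTop (4 : ℝ), hl.eventually_ge_atTop (max 1 (4000 / σ))]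
    with t ht1 ht2 ht3 ht4 ht5
  intro U hU P hP hsum hsum2 n
  have ht0 : (0 : ℝ) < t := by linarith
  set L := Real.log t with hL
  have hL1 : 1 ≤ L := (le_max_left _ _).trans ht5
  have hL0 : 0 < L := by linarith
  have hLσ : 4000 / L ≤ σ := by
    have h1 : 4000 / σ ≤ L := (le_max_right _ _).trans ht5
    rw [div_le_iff₀ hσp] at h1
    rw [div_le_iff₀ hL0]
    linarith
  set f := ⌊t⌋₊ with hf
  have hft : (f : ℝ) ≤ t := Nat.floor_le ht0.le
  have hf2 : 2 ≤ f := Nat.le_floor (by push_cast; linarith)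
  have hf2r : (2 : ℝ) ≤ f := by exact_mod_cast hf2
  have hUt : t ≤ U := ay9 ht0 hL1 hU
  have hU0 : (0 : ℝ) < U := by linarith
  have hfc : f ≤ ⌈(1 : ℝ) * t⌉₊ := by
    rw [one_mul]
    exact Nat.floor_le_ceil t
  obtain ⟨g1, g2⟩ := ht2 U hU P hP (hsum.trans hσ1) (hsum2.trans (div_le_div_of_nonneg_right hσ1 hL0.le)) n
  have hPsub : P ⊆ (Icc 1 f).filter Nat.Prime := by
    intro p hp
    rw [mem_filter, mem_Icc]
    exact ⟨⟨(hP p hp).1.pos, Nat.le_floor (hP p hp).2⟩, (hP p hp).1⟩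
  have g3 : ((Sv U f n).card : ℝ) ≤ Sf P n U := by
    rw [Sv_eq]
    exact Sf_mono hPsub n U
  have g4 : ((Sv U ⌈(1 : ℝ) * t⌉₊ n).card : ℝ) ≤ ((Sv U f n).card : ℝ) := by
    rw [Sv_eq, Sv_eq, Nat.cast_le]
    apply card_le_card
    apply HS_mono
    intro p hp
    rw [mem_filter, mem_Icc] at hp ⊢
    exact ⟨⟨hp.1.1, hp.1.2.trans hfc⟩, hp.2⟩
  -- the densities
  set R := ((Icc 1 f).filter Nat.Prime) \ P with hR
  have hVf : V P * V R = VV f := by
    rw [VV_eq]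
    unfold V
    rw [hR, mul_comm]
    exact prod_sdiff hPsub
  have hRp : ∀ p ∈ R, p.Prime := by
    intro q hq
    rw [hR, Finset.mem_sdiff, mem_filter] at hq
    exact hq.1.2
  have hRs : ∑ p ∈ R, 1 / (p : ℝ) ≤ 2 * σ := by
    have h1 : R ⊆ (Icc 1 ⌊t / 1000⌋₊).filter (fun p => p.Prime ∧ p ∉ P) ∪
        (Icc 1 ⌈(1 : ℝ) * t⌉₊).filter (fun p => p.Prime ∧ ⌊t / 1000⌋₊ < p) := by
      intro p hp
      rw [hR, Finset.mem_sdiff, mem_filter, mem_Icc] at hp
      rw [mem_union, mem_filter, mem_filter, mem_Icc, mem_Icc]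
      by_cases h : p ≤ ⌊t / 1000⌋₊
      · exact Or.inl ⟨⟨hp.1.1.1, h⟩, hp.1.2, hp.2⟩
      · exact Or.inr ⟨⟨hp.1.1.1, hp.1.1.2.trans hfc⟩, hp.1.2, not_le.1 h⟩
    have h2 := sum_le_sum_of_subset_of_nonneg h1 (f := fun p : ℕ => 1 / (p : ℝ)) (fun p _ _ => by positivity)
    have h3 := sum_union_inter (s₁ := (Icc 1 ⌊t / 1000⌋₊).filter (fun p => p.Prime ∧ p ∉ P))
      (s₂ := (Icc 1 ⌈(1 : ℝ) * t⌉₊).filter (fun p => p.Prime ∧ ⌊t / 1000⌋₊ < p)) (f := fun p : ℕ => 1 / (p : ℝ))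
    have h4 : 0 ≤ ∑ p ∈ (Icc 1 ⌊t / 1000⌋₊).filter (fun p => p.Prime ∧ p ∉ P) ∩
        (Icc 1 ⌈(1 : ℝ) * t⌉₊).filter (fun p => p.Prime ∧ ⌊t / 1000⌋₊ < p), 1 / (p : ℝ) :=
      sum_nonneg fun p _ => by positivity
    rw [mul_one] at ht3
    linarith
  have hVR1 := V_le_one R hRp
  have hVR2 : 1 - 2 * σ ≤ V R := by
    have h1 := V_ge R hRp
    linarith
  have hVP0 := V_pos P (fun p hp => (hP p hp).1)
  have hVf0 : 0 < VV f := MERB_pos f
  set a : ℝ := Sf P n U / (U * V P) with ha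
  set b : ℝ := ((Sv U f n).card : ℝ) / (U * VV f) with hb
  have hb0 : 0 ≤ b := by positivity
  have hbV : b * V R = ((Sv U f n).card : ℝ) / (U * V P) := by
    rw [hb, ← hVf]
    have h1 : V R ≠ 0 := by
      intro h
      rw [h] at hVR2
      linarith
    field_simp
  have haC : a ≤ C := by
    rw [ha, div_le_iff₀ (by positivity)]
    have h1 := ht1 P hP (hsum.trans (by linarith)) U hUt n
    linarith
  have hab : b * V R ≤ a := by
    rw [hbV, ha]
    exact div_le_div_of_nonneg_right g3 (by positivity)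
  have hb2C : b ≤ 2 * C := by
    have h1 : 1 / 2 ≤ V R := by linarith
    have h2 : b * (1 / 2) ≤ b * V R := mul_le_mul_of_nonneg_left h1 hb0
    linarith
  have hVPK : 1 / (K * L) ≤ V P := by
    have h1 := (hM f f hf2 le_rfl).2.2.1
    have h2 : VV f ≤ V P := by
      rw [VV_eq]
      apply V_anti hPsub
      intro p hp
      exact (mem_filter.1 hp).2
    refine le_trans ?_ (h1.trans h2)
    apply one_div_le_one_div_of_le
    · have : 0 < Real.log f := Real.log_pos (by linarith)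
      positivity
    · apply mul_le_mul_of_nonneg_left _ (by linarith)
      exact Real.log_le_log (by linarith) hft
  rw [abs_le]
  constructor
  · have h1 : b - b * V R ≤ 2 * σ * b := ay12 hb0 hVR2
    have h2 : 2 * σ * b ≤ 2 * σ * (2 * C) := mul_le_mul_of_nonneg_left hb2C (by positivity)
    have h3 : 2 * σ * (2 * C) ≤ η := by
      have h4 : 0 ≤ C * σ := by positivity
      linarith
    linarith
  · have h1 : Sf P n U ≤ ((Sv U f n).card : ℝ) + η / K * (U / L) := by linarith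
    have h2 : a ≤ b * V R + (η / K * (U / L)) / (U * V P) := by
      rw [hbV, ha, ← add_div]
      exact div_le_div_of_nonneg_right h1 (by positivity)
    have h3 : (η / K * (U / L)) / (U * V P) ≤ η := by
      rw [div_le_iff₀ (by positivity)]
      rw [div_le_iff₀ (by positivity)] at hVPK
      calc η / K * (U / L) = η * U * (1 / (K * L)) := by
            field_simp
        _ ≤ η * U * V P := by
            apply mul_le_mul_of_nonneg_left _ (by positivity)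
            rw [div_le_iff₀ (by positivity)]
            exact hVPK
        _ = η * (U * V P) := by ring
    have h4 : b * V R ≤ b := mul_le_of_le_one_right hb0 hVR1
    linarith

/-- a residue class in an interval -/
lemma class_card (W X b : ℕ) (hW : 0 < W) (hWX : W ≤ X) :
    (X : ℝ) / W ≤ (((Ioc X (3 * X)).filter (fun n => n % W = b % W)).card : ℝ) := by
  have h1 := Nat.Ioc_filter_modEq_card X (3 * X) hW b
  have hWr : (0 : ℝ) < W := by exact_mod_cast hW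
  have h2 : ((Ioc X (3 * X)).filter (fun n => n ≡ b [MOD W])).card =
      ((Ioc X (3 * X)).filter (fun n => n % W = b % W)).card := by
    rfl
  rw [h2] at h1
  have h3 : ((((Ioc X (3 * X)).filter (fun n => n % W = b % W)).card : ℤ) : ℝ) =
      (((Ioc X (3 * X)).filter (fun n => n % W = b % W)).card : ℝ) := by push_cast; rfl
  rw [← h3, h1]
  have h4 : ((⌊(((3 * X : ℕ) : ℚ) - b) / W⌋ - ⌊((X : ℚ) - b) / W⌋ : ℤ) : ℝ) ≤
      ((max (⌊(((3 * X : ℕ) : ℚ) - b) / W⌋ - ⌊((X : ℚ) - b) / W⌋) 0 : ℤ) : ℝ) := by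
    exact_mod_cast le_max_left _ _
  refine le_trans ?_ h4
  have h5 : (((3 * X : ℕ) : ℚ) - b) / W - 1 < ⌊(((3 * X : ℕ) : ℚ) - b) / W⌋ := Int.sub_one_lt_floor _
  have h6 : (⌊((X : ℚ) - b) / W⌋ : ℚ) ≤ ((X : ℚ) - b) / W := Int.floor_le _
  have h7 : (X : ℚ) / W ≤ ((⌊(((3 * X : ℕ) : ℚ) - b) / W⌋ - ⌊((X : ℚ) - b) / W⌋ : ℤ) : ℚ) := by
    push_cast at h5 ⊢
    have hWq : (0 : ℚ) < W := by exact_mod_cast hW
    have h8 : (1 : ℚ) ≤ X / W := by
      rw [le_div_iff₀ hWq]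
      have : (W : ℚ) ≤ X := by exact_mod_cast hWX
      linarith
    have h9 : (3 * (X : ℚ) - b) / W = 3 * (X / W) - b / W := by ring
    have h10 : ((X : ℚ) - b) / W = X / W - b / W := by ring
    rw [h9] at h5
    rw [h10] at h6
    rw [h9, h10]
    linarith
  generalize (⌊(((3 * X : ℕ) : ℚ) - b) / W⌋ - ⌊((X : ℚ) - b) / W⌋ : ℤ) = z at h7 ⊢
  have h8 := (Rat.cast_le (K := ℝ)).2 h7
  push_cast at h8
  exact h8

/-- weighted means -/
lemma mean_le {I : Finset ℕ} {w f g : ℕ → ℝ} {η : ℝ} (hw : ∀ n ∈ I, 0 ≤ w n) (h0 : 0 < ∑ n ∈ I, w n)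
    (h : ∀ n ∈ I, f n ≤ g n + η) :
    (∑ n ∈ I, w n * f n) / (∑ n ∈ I, w n) ≤ (∑ n ∈ I, w n * g n) / (∑ n ∈ I, w n) + η := by
  have h1 : ∑ n ∈ I, w n * f n ≤ ∑ n ∈ I, w n * g n + η * ∑ n ∈ I, w n := by
    rw [mul_sum, ← sum_add_distrib]
    apply sum_le_sum
    intro n hn
    have := mul_le_mul_of_nonneg_left (h n hn) (hw n hn)
    linarith
  rw [div_le_iff₀ h0, add_mul, div_mul_cancel₀ _ h0.ne']
  exact h1

lemma mean_const {I : Finset ℕ} {w f : ℕ → ℝ} {F : ℝ} (h0 : 0 < ∑ n ∈ I, w n)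
    (h : ∀ n ∈ I, w n * f n = w n * F) : (∑ n ∈ I, w n * f n) / (∑ n ∈ I, w n) = F := by
  rw [sum_congr rfl h, ← sum_mul, mul_comm, mul_div_assoc, div_self h0.ne', mul_one]

end Pool.Agent.H301.SX
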