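import Pool.Agent.H301.SX.Sand2

/-! The model, all windows of length at least `B t log t`. -/

set_option autoImplicit false

namespace Pool.Agent.H301.SX

open Finset Filter Topology
open Pool.Agent.Y829 (HS Sf mem_HS V V_insert)
open Pool.Agent.N422.SL (wt)
open Pool.Agent.N422.LG

/-- the mean number of survivors between the modulus and the limit `t^(1+2a)` -/
theorem mid : ∃ Cs : ℝ, 0 < Cs ∧ ∀ a : ℝ, 0 < a → a ≤ 1 / 4 → ∀ C : ℝ, 1 ≤ C → ∀ κ : ℝ, 0 < κ → ∃ σ : ℝ, 0 < σ ∧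
    ∀ᶠ t : ℝ in atTop, ∀ Q : ℕ, Real.log Q ≤ t → ⌈t ^ (1 + 2 * a)⌉₊ ≤ Q → ∀ U : ℕ,
    t * Real.log t ≤ U → ∀ PW : Finset ℕ, (∀ p ∈ PW, p.Prime ∧ (p : ℝ) ≤ t) →
    ∑ p ∈ (Icc 1 ⌊t / 1000⌋₊).filter (fun p => p.Prime ∧ p ∉ PW), 1 / (p : ℝ) ≤ σ →
    ∑ p ∈ (Icc 1 ⌊t / 1000⌋₊).filter (fun p => p.Prime ∧ p ∉ PW ∧ t ^ (1 / 2 : ℝ) < p), 1 / (p : ℝ) ≤
      σ / Real.log t → ∀ c : ℕ → ℕ → ℝ, (∀ n, 0 ≤ wt Q c n) →
    mQ Q (fun n => wt Q c n * ((Sv U ⌈t ^ (1 + 2 * a)⌉₊ n).card : ℝ)) ≤ mQ Q (fun n => wt Q c n * Sf PW n U) ∧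
    mQ Q (fun n => wt Q c n * Sf PW n U) ≤ mQ Q (fun n => wt Q c n * ((Sv U ⌈t ^ (1 + 2 * a)⌉₊ n).card : ℝ)) +
      (κ + 9 * a * Cs + 640 / C) * (U / Real.log t) * mQ Q (wt Q c) ∧
    mQ Q (fun n => wt Q c n * Sf PW n U) ≤ Cs * (U / Real.log t) * mQ Q (wt Q c) ∧
    ∑ p ∈ (Icc 1 ⌈t ^ (1 + 2 * a)⌉₊).filter (fun p => p.Prime ∧ p ∉ PW), 1 / (p : ℝ) ≤
      ∑ p ∈ (Icc 1 ⌊t / 1000⌋₊).filter (fun p => p.Prime ∧ p ∉ PW), 1 / (p : ℝ) + 8 * a := by
  classical
  obtain ⟨Cs, hCs, hup⟩ := upW (1 / 2) (by norm_num) (by norm_num)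
  refine ⟨Cs, hCs, ?_⟩
  intro a ha ha1 C hC κ hκ
  obtain ⟨σ0, hσ0, hs2⟩ := sand2 C hC κ hκ
  set σ : ℝ := min σ0 (1 / 2) with hσ
  have hσp : 0 < σ := lt_min hσ0 (by norm_num)
  have hσ1 : σ ≤ σ0 := min_le_left _ _
  have hσ2 : σ ≤ 1 / 2 := min_le_right _ _
  refine ⟨σ, hσp, ?_⟩
  have hl : Tendsto Real.log atTop atTop := Real.tendsto_log_atTop
  filter_upwards [hup, hs2, short (2 * a) (by positivity) (by linarith), eventually_ge_atTop (16 : ℝ),
    hl.eventually_ge_atTop (2 * C), (tendsto_rpow_atTop (show 0 < 2 * a by positivity)).eventually_ge_atTop (2 * C)]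
    with t ht1 ht2 ht3 ht4 ht5 ht6
  intro Q hQ2 hyQ U hU PW hPW hsum hsum2 c hw
  have ht0 : (0 : ℝ) < t := by linarith
  set L := Real.log t with hL
  have hL2 : 2 ≤ L := by linarith
  have hL0 : 0 < L := by linarith
  set T := ⌊t / 1000⌋₊ with hT
  set y := ⌈t ^ (1 + 2 * a)⌉₊ with hy
  set y1 := ⌈C * t⌉₊ with hy1
  have hy1t : C * t ≤ (y1 : ℝ) := Nat.le_ceil _
  have hy1t2 : (y1 : ℝ) < C * t + 1 := Nat.ceil_lt_add_one (by positivity)
  have hCt : t ≤ C * t := ay7 hC ht0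
  have hyt : t ^ (1 + 2 * a) ≤ (y : ℝ) := Nat.le_ceil _
  have hy1y : y1 ≤ y := by
    apply Nat.ceil_le_ceil
    have e1 : t ^ (1 + 2 * a) = t * t ^ (2 * a) := by rw [Real.rpow_add ht0, Real.rpow_one]
    rw [e1]
    exact ay8 ht6 hC ht0
  have hTt : (T : ℝ) ≤ t / 1000 := Nat.floor_le (by positivity)
  have hTy1 : T ≤ y1 := by
    have : (T : ℝ) ≤ y1 := by linarith
    exact_mod_cast this
  have hy116 : (16 : ℝ) ≤ y1 := by linarith
  have hy12 : 2 ≤ y1 := by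
    have : (2 : ℝ) ≤ y1 := by linarith
    exact_mod_cast this
  have hUr : (0 : ℝ) ≤ U := Nat.cast_nonneg _
  have hUt : t ≤ U := ay9 ht0 (by linarith) hU
  have hy1U : (y1 : ℝ) ≤ U := ay10 (by linarith) hC ht5 hU hy1t2
  have hRD : RECD y y1 ≤ 8 * a := by
    have e1 := RECD_add hTy1 hy1y
    have e2 := RECD_nonneg y1 T
    have e3 := ht3.2
    linarith
  have hRD0 := RECD_nonneg y y1
  set m := mQ Q (wt Q c) with hm
  have hm0 : 0 ≤ m := REC_mQ_nonneg hw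
  set By := mQ Q (fun n => wt Q c n * ((Sv U y n).card : ℝ)) with hBy
  set B1 := mQ Q (fun n => wt Q c n * ((Sv U y1 n).card : ℝ)) with hB1
  set N := mQ Q (fun n => wt Q c n * Sf PW n U) with hN
  have hUL : 0 ≤ (U : ℝ) / L := by positivity
  have hB10 : 0 ≤ B1 := REC_mQ_nonneg (fun n => mul_nonneg (hw n) (Nat.cast_nonneg _))
  have hmul : ∀ x : ℝ, mQ Q (fun n => wt Q c n * x) = x * m := by
    intro x
    rw [hm, ← FIN_smul]
    congr 1
    ext n
    ring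
  have hpt := ht2 U hU PW hPW (hsum.trans hσ1)
    (hsum2.trans (div_le_div_of_nonneg_right hσ1 hL0.le))
  have hByB1 : By ≤ B1 := by
    apply REC_mQ_mono
    intro n
    apply mul_le_mul_of_nonneg_left _ (hw n)
    rw [Sv_eq, Sv_eq, Nat.cast_le]
    apply card_le_card
    apply HS_mono
    intro p hp
    rw [mem_filter, mem_Icc] at hp ⊢
    exact ⟨⟨hp.1.1, hp.1.2.trans hy1y⟩, hp.2⟩
  have hB1N : B1 ≤ N := REC_mQ_mono (fun n => mul_le_mul_of_nonneg_left (hpt n).1 (hw n))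
  have hNB1 : N ≤ B1 + κ * (U / L) * m := by
    have h1 : N ≤ mQ Q (fun n => wt Q c n * ((Sv U y1 n).card : ℝ) + wt Q c n * (κ * (U / L))) := by
      apply REC_mQ_mono
      intro n
      rw [← mul_add]
      exact mul_le_mul_of_nonneg_left (hpt n).2 (hw n)
    rw [REC_mQ_add, hmul] at h1
    exact h1
  have hNC : N ≤ Cs * (U / L) * m := by
    have h1 : N ≤ mQ Q (fun n => wt Q c n * (Cs * (U / L))) := by
      apply REC_mQ_mono
      intro n
      refine mul_le_mul_of_nonneg_left ?_ (hw n)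
      exact ht1 PW (fun p hp => (hPW p hp).1) (hsum.trans hσ2) U (by
        have : t ^ (2 * (1 / 2) : ℝ) = t := by norm_num
        rw [this]
        exact hUt) n
    rw [hmul] at h1
    exact h1
  refine ⟨hByB1.trans hB1N, ?_, hNC, ?_⟩
  · have hst := REC_step Pool.Agent.H301.SV.hit_all Q U y1 y1 y (1 / 16) c hy12 le_rfl hy1y hyQ (by norm_num) le_rfl hw
    rw [← hB1, ← hBy, ← hm] at hst
    have hly1 : L ≤ Real.log y1 := Real.log_le_log ht0 (by linarith)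
    have hlQ0 : 0 ≤ Real.log Q := Real.log_natCast_nonneg Q
    have e1 : ((U : ℝ) / y1 + 1) * (20 * (Real.log Q / Real.log y1) / (1 / 16)) ≤ 640 / C * (U / L) := by
      have a1 : (1 : ℝ) ≤ U / y1 := by
        rw [le_div_iff₀ (by linarith)]
        linarith
      have a2 : (U : ℝ) / y1 ≤ U / (C * t) := div_le_div_of_nonneg_left hUr (by positivity) hy1t
      have a3 : (U : ℝ) / y1 + 1 ≤ 2 * (U / (C * t)) := by linarith
      have a4 : Real.log Q / Real.log y1 ≤ t / L := div_le_div₀ ht0.le hQ2 hL0 hly1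
      have a5 : 0 ≤ Real.log Q / Real.log y1 := div_nonneg hlQ0 (by linarith)
      calc ((U : ℝ) / y1 + 1) * (20 * (Real.log Q / Real.log y1) / (1 / 16)) =
            ((U : ℝ) / y1 + 1) * (320 * (Real.log Q / Real.log y1)) := by ring
        _ ≤ (2 * (U / (C * t))) * (320 * (t / L)) := by
            apply mul_le_mul a3 _ (by positivity) (by positivity)
            linarith
        _ = 640 / C * (U / L) := by
            field_simp
            ring
    have e2 := mul_le_mul_of_nonneg_right e1 hm0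
    have e3 : (1 - 9 * a) * B1 ≤ (1 - (1 + 2 * (1 / 16)) * RECD y y1) * B1 := by
      apply mul_le_mul_of_nonneg_right _ hB10
      linarith
    have e4 : 9 * a * B1 ≤ 9 * a * (Cs * (U / L) * m) :=
      mul_le_mul_of_nonneg_left (hB1N.trans hNC) (by positivity)
    have e5 : (κ + 9 * a * Cs + 640 / C) * (U / L) * m = κ * (U / L) * m + 9 * a * (Cs * (U / L) * m) +
        640 / C * (U / L) * m := by ring
    rw [e5]
    linarith
  · have h1 : (Icc 1 y).filter (fun p => p.Prime ∧ p ∉ PW) ⊆ (Icc 1 T).filter (fun p => p.Prime ∧ p ∉ PW) ∪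
        (Icc 1 y).filter (fun p : ℕ => p.Prime ∧ T < p) := by
      intro p hp
      rw [mem_filter, mem_Icc] at hp
      rw [mem_union, mem_filter, mem_filter, mem_Icc, mem_Icc]
      by_cases h : p ≤ T
      · exact Or.inl ⟨⟨hp.1.1, h⟩, hp.2⟩
      · exact Or.inr ⟨hp.1, hp.2.1, not_le.1 h⟩
    have h2 := sum_le_sum_of_subset_of_nonneg h1 (f := fun p : ℕ => 1 / (p : ℝ)) (fun p _ _ => by positivity)
    have h3 := sum_union_inter (s₁ := (Icc 1 T).filter (fun p => p.Prime ∧ p ∉ PW))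
      (s₂ := (Icc 1 y).filter (fun p : ℕ => p.Prime ∧ T < p)) (f := fun p : ℕ => 1 / (p : ℝ))
    have h4 : 0 ≤ ∑ p ∈ (Icc 1 T).filter (fun p => p.Prime ∧ p ∉ PW) ∩
        (Icc 1 y).filter (fun p : ℕ => p.Prime ∧ T < p), 1 / (p : ℝ) := sum_nonneg fun p _ => by positivity
    have h5 := ht3.2
    unfold RECD at h5
    linarith

/-- the model, all windows of length at least `B t log t` -/
theorem model2 (η : ℝ) (hη : 0 < η) : ∃ σ B : ℝ, 0 < σ ∧ 0 < B ∧ ∀ᶠ t : ℝ in atTop, ∀ Q : ℕ,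
    t / 1000 ≤ Real.log Q → Real.log Q ≤ t → ∀ U : ℕ, B * (t * Real.log t) ≤ U → ∀ PW : Finset ℕ,
    (∀ p ∈ PW, p.Prime ∧ (p : ℝ) ≤ t) →
    ∑ p ∈ (Icc 1 ⌊t / 1000⌋₊).filter (fun p => p.Prime ∧ p ∉ PW), 1 / (p : ℝ) ≤ σ →
    ∑ p ∈ (Icc 1 ⌊t / 1000⌋₊).filter (fun p => p.Prime ∧ p ∉ PW ∧ t ^ (1 / 2 : ℝ) < p), 1 / (p : ℝ) ≤
      σ / Real.log t → ∀ c : ℕ → ℕ → ℝ, (∀ n, 0 ≤ wt Q c n) →
    |mQ Q (fun n => wt Q c n * ((Sv U Q n).card : ℝ)) - VV Q / V PW * mQ Q (fun n => wt Q c n * Sf PW n U)| ≤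
      η * (U * VV Q) * mQ Q (wt Q c) := by
  classical
  obtain ⟨K, hK, hM⟩ := t_MERB2
  obtain ⟨Cs, hCs, hmid⟩ := mid
  set a : ℝ := min (1 / 4) (η / (408 * K * Cs)) with ha
  have ha0 : 0 < a := lt_min (by norm_num) (by positivity)
  have ha1 : a ≤ 1 / 4 := min_le_left _ _
  have haη : 51 * K * Cs * a ≤ η / 8 := by
    have h1 : a ≤ η / (408 * K * Cs) := min_le_right _ _
    calc 51 * K * Cs * a ≤ 51 * K * Cs * (η / (408 * K * Cs)) := mul_le_mul_of_nonneg_left h1 (by positivity)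
      _ = η / 8 := by
        field_simp
        norm_num
  set C : ℝ := max 1 (15360 * K / η) with hC
  have hC1 : 1 ≤ C := le_max_left _ _
  have hCη : 1920 * K / C ≤ η / 8 := by
    have h1 : 15360 * K / η ≤ C := le_max_right _ _
    rw [div_le_iff₀ hη] at h1
    rw [div_le_iff₀ (by linarith)]
    linarith
  set κ : ℝ := η / (24 * K) with hκ
  have hκ0 : 0 < κ := by positivity
  have hκη : 3 * K * κ = η / 8 := by
    rw [hκ]
    field_simp
    norm_num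
  set ε : ℝ := η / (8 * (3 * K * Cs + 1)) with hε
  have hε0 : 0 < ε := by positivity
  have hεη : (3 * K * Cs + 1) * ε = η / 8 := by
    rw [hε]
    field_simp
  obtain ⟨σ1, hσ1, hm1⟩ := hmid a ha0 ha1 C hC1 κ hκ0
  obtain ⟨B1, hB1, hseq⟩ := seqQ a ha0 (by linarith) ε hε0
  obtain ⟨σ2, hσ2, hm2⟩ := model (1 + a) (by linarith) (by linarith) η hη
  set σ : ℝ := min (min σ1 σ2) (η / (24 * K * Cs)) with hσ
  have hσp : 0 < σ := lt_min (lt_min hσ1 hσ2) (by positivity)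
  have hσa : σ ≤ σ1 := (min_le_left _ _).trans (min_le_left _ _)
  have hσb : σ ≤ σ2 := (min_le_left _ _).trans (min_le_right _ _)
  have hση : 3 * K * Cs * σ ≤ η / 8 := by
    have h1 : σ ≤ η / (24 * K * Cs) := min_le_right _ _
    calc 3 * K * Cs * σ ≤ 3 * K * Cs * (η / (24 * K * Cs)) := mul_le_mul_of_nonneg_left h1 (by positivity)
      _ = η / 8 := by
        field_simp
        norm_num
  refine ⟨σ, max B1 1, hσp, lt_max_of_lt_left hB1, ?_⟩
  have hl : Tendsto Real.log atTop atTop := Real.tendsto_log_atTop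
  filter_upwards [hm1, hseq, hm2, eventually_ge_atTop (4 : ℝ), hl.eventually_ge_atTop (1 : ℝ)]
    with t ht1 ht2 ht3 ht4 ht5
  intro Q hQ1 hQ2 U hU PW hPW hsum hsum2 c hw
  have ht0 : (0 : ℝ) < t := by linarith
  set L := Real.log t with hL
  have hL0 : 0 < L := by linarith
  rcases le_total (t ^ (1 + a)) U with hUa | hUa
  · exact ht3 Q hQ1 hQ2 U hUa PW hPW (hsum.trans hσb) c hw
  have htL : 0 < t * L := by positivity
  have hUB1 : B1 * (t * L) ≤ U := (mul_le_mul_of_nonneg_right (le_max_left _ _) htL.le).trans hU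
  have hU1 : t * L ≤ U := by
    have := (mul_le_mul_of_nonneg_right (le_max_right B1 1) htL.le).trans hU
    linarith
  obtain ⟨hyQ, hsq⟩ := ht2 Q hQ1 hQ2 U hUB1 hUa c hw
  obtain ⟨hBN, hNB, hNC, hMy⟩ := ht1 Q hQ2 hyQ U hU1 PW hPW (hsum.trans hσa)
    (hsum2.trans (div_le_div_of_nonneg_right hσa hL0.le)) c hw
  set y := ⌈t ^ (1 + 2 * a)⌉₊ with hy
  have hyt : t ^ (1 + 2 * a) ≤ (y : ℝ) := Nat.le_ceil _
  have hyt2 : (y : ℝ) < t ^ (1 + 2 * a) + 1 := Nat.ceil_lt_add_one (Real.rpow_nonneg ht0.le _)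
  have hpw : t ≤ t ^ (1 + 2 * a) := by
    calc t = t ^ (1 : ℝ) := (Real.rpow_one t).symm
      _ ≤ t ^ (1 + 2 * a) := Real.rpow_le_rpow_of_exponent_le (by linarith) (by linarith)
  have hy0 : (0 : ℝ) < y := by linarith
  have hy2 : 2 ≤ y := by
    have : (2 : ℝ) ≤ y := by linarith
    exact_mod_cast this
  have hPWsub : PW ⊆ (Icc 1 y).filter Nat.Prime := by
    intro p hp
    rw [mem_filter, mem_Icc]
    have h1 : (p : ℝ) ≤ y := by linarith [(hPW p hp).2]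
    exact ⟨⟨(hPW p hp).1.pos, by exact_mod_cast h1⟩, (hPW p hp).1⟩
  set R := ((Icc 1 y).filter Nat.Prime) \ PW with hR
  have hVy : V PW * V R = VV y := by
    rw [VV_eq]
    unfold V
    rw [hR, mul_comm]
    exact prod_sdiff hPWsub
  have hRp : ∀ p ∈ R, p.Prime := by
    intro q hq
    rw [hR, Finset.mem_sdiff, mem_filter] at hq
    exact hq.1.2
  have hReq : R = (Icc 1 y).filter (fun p => p.Prime ∧ p ∉ PW) := by
    ext p
    rw [hR, Finset.mem_sdiff, mem_filter, mem_filter]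
    tauto
  set σ' : ℝ := σ + 8 * a with hσ'
  have hσ'0 : 0 ≤ σ' := by positivity
  have hVR1 := V_le_one R hRp
  have hVR0 := V_pos R hRp
  have hVR2 : 1 - σ' ≤ V R := by
    have h1 := V_ge R hRp
    rw [hReq] at h1 ⊢
    linarith
  have hVP0 := V_pos PW (fun p hp => (hPW p hp).1)
  have hVQ0 : 0 < VV Q := MERB_pos Q
  have hVy0 : 0 < VV y := MERB_pos y
  set ρ := VV Q / V PW with hρ
  set ρ' := VV Q / VV y with hρ'
  have hρ0 : 0 < ρ := by positivity
  have hρ'0 : 0 < ρ' := by positivity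
  have hρρ : ρ = ρ' * V R := by
    rw [hρ, hρ', ← hVy]
    field_simp
  have k1 : 0 ≤ ρ' - ρ := by
    rw [hρρ]
    exact ay11 hρ'0.le hVR1
  have k2 : ρ' - ρ ≤ σ' * ρ' := by
    rw [hρρ]
    exact ay12 hρ'0.le hVR2
  set By := mQ Q (fun n => wt Q c n * ((Sv U y n).card : ℝ)) with hBy
  set AQ := mQ Q (fun n => wt Q c n * ((Sv U Q n).card : ℝ)) with hAQ
  set N := mQ Q (fun n => wt Q c n * Sf PW n U) with hN
  set m := mQ Q (wt Q c) with hm
  have hm0 : 0 ≤ m := REC_mQ_nonneg hw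
  have hU0 : (0 : ℝ) ≤ U := Nat.cast_nonneg _
  have hBy0 : 0 ≤ By := REC_mQ_nonneg (fun n => mul_nonneg (hw n) (Nat.cast_nonneg _))
  have hN0 : 0 ≤ N := hBy0.trans hBN
  have hly : Real.log y ≤ 3 * L := by
    have h1 : (y : ℝ) ≤ 2 * t ^ (1 + 2 * a) := by linarith
    have h2 : Real.log y ≤ Real.log (2 * t ^ (1 + 2 * a)) := Real.log_le_log hy0 h1
    rw [Real.log_mul (by norm_num) (by positivity), Real.log_rpow ht0] at h2
    have h3 : Real.log 2 ≤ 1 := by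
      have := Real.log_two_lt_d9
      linarith
    exact ay4 h2 h3 ht5 (by linarith)
  have hly0 : 0 < Real.log y := Real.log_pos (by linarith)
  set Y := (U : ℝ) * VV Q with hY
  have hY0 : 0 ≤ Y := by positivity
  have hρUL : ρ' * (U / L) ≤ 3 * K * Y := by
    have h1 := (hM y y hy2 le_rfl).2.2.1
    have h2 : 1 / VV y ≤ 3 * K * L := by
      rw [div_le_iff₀ (by positivity)] at h1
      rw [div_le_iff₀ hVy0]
      have h3 : VV y * (K * Real.log y) ≤ VV y * (K * (3 * L)) := by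
        apply mul_le_mul_of_nonneg_left _ hVy0.le
        exact mul_le_mul_of_nonneg_left hly (by linarith)
      linarith
    calc ρ' * (U / L) = VV Q * (U / L) * (1 / VV y) := by
          rw [hρ']
          ring
      _ ≤ VV Q * (U / L) * (3 * K * L) := mul_le_mul_of_nonneg_left h2 (by positivity)
      _ = 3 * K * Y := by
          rw [hY]
          field_simp
  have hYm : 0 ≤ Y * m := mul_nonneg hY0 hm0
  have hUL : 0 ≤ (U : ℝ) / L := by positivity
  have hρm : ρ' * ((U / L) * m) ≤ 3 * K * (Y * m) := by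
    have := mul_le_mul_of_nonneg_right hρUL hm0
    linarith
  -- the errors
  have q1 : ε * (ρ' * By) ≤ 3 * K * Cs * ε * (Y * m) := by
    have b1 : ρ' * By ≤ ρ' * (Cs * (U / L) * m) := mul_le_mul_of_nonneg_left (hBN.trans hNC) hρ'0.le
    have b2 : ρ' * (Cs * (U / L) * m) = Cs * (ρ' * ((U / L) * m)) := by ring
    have b3 := mul_le_mul_of_nonneg_left hρm hCs.le
    have b4 : ρ' * By ≤ Cs * (3 * K * (Y * m)) := by linarith
    have b5 := mul_le_mul_of_nonneg_left b4 hε0.le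
    linarith
  have q2 : ρ' * (N - By) ≤ 3 * K * (κ + 9 * a * Cs + 640 / C) * (Y * m) := by
    have hκt : 0 ≤ κ + 9 * a * Cs + 640 / C := by positivity
    have b1 : ρ' * (N - By) ≤ ρ' * ((κ + 9 * a * Cs + 640 / C) * (U / L) * m) :=
      mul_le_mul_of_nonneg_left (by linarith) hρ'0.le
    have b2 := mul_le_mul_of_nonneg_left hρm hκt
    linarith
  have q3 : (ρ' - ρ) * N ≤ 3 * K * Cs * σ' * (Y * m) := by
    have b1 : (ρ' - ρ) * N ≤ (σ' * ρ') * (Cs * (U / L) * m) := mul_le_mul k2 hNC hN0 (by positivity)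
    have b2 := mul_le_mul_of_nonneg_left hρm (show 0 ≤ σ' * Cs by positivity)
    linarith
  have q4 : 0 ≤ ρ' * (N - By) := mul_nonneg hρ'0.le (by linarith)
  have q5 : 0 ≤ (ρ' - ρ) * N := mul_nonneg k1 hN0
  have c1 : 3 * K * Cs * ε + ε + 3 * K * (κ + 9 * a * Cs + 640 / C) + 3 * K * Cs * σ' ≤ η := by
    have d1 : 3 * K * (κ + 9 * a * Cs + 640 / C) = 3 * K * κ + 27 * K * Cs * a + 1920 * K / C := by ring
    have d2 : 3 * K * Cs * σ' = 3 * K * Cs * σ + 24 * K * Cs * a := by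
      rw [hσ']
      ring
    rw [d1, d2]
    linarith
  have c2 := mul_le_mul_of_nonneg_right c1 hYm
  have hsq' := abs_le.1 hsq
  have hYm2 : ε * Y * m = ε * (Y * m) := by ring
  have hfin : ε * (ρ' * By) + ε * Y * m + ρ' * (N - By) + (ρ' - ρ) * N ≤ η * Y * m := by
    have d3 : η * Y * m = η * (Y * m) := by ring
    rw [d3, hYm2]
    linarith
  have e0 : ρ' * (N - By) = ρ' * N - ρ' * By := by ring
  have e1 : (ρ' - ρ) * N = ρ' * N - ρ * N := by ring
  have f0 : 0 ≤ ε * (ρ' * By) := by positivity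
  have f1 : 0 ≤ ε * Y * m := by positivity
  rw [abs_le]
  constructor
  · linarith [hsq'.1]
  · linarith [hsq'.2]

end Pool.Agent.H301.SX
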