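import Pool.Agent.H301.SX.Model2
import Pool.Graph.R_pool_sql_team_seeded_1acbe0a2.Y829.RX3

/-! Primes under sieve weights over the record modulus: the exact formula. -/

set_option autoImplicit false

namespace Pool.Agent.H301.SX

open Finset Filter Topology Pool.Agent.Y829 Pool.Agent.Y829.RP Pool.Agent.Y829.RW
open Pool.Agent.H378R2 (Phi EPhi LPhi MPhi WW PW GoodP GoodS BVrel)
open Pool.Agent.N422.LG (Sv VV mQ)

/-- the number of `h ≤ U` with `n + h` prime to `W` -/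
noncomputable def cop (W U n : ℕ) : ℝ := (((Icc 1 U).filter (fun h => (n + h).Coprime W)).card : ℝ)

lemma cop_nonneg (W U n : ℕ) : 0 ≤ cop W U n := Nat.cast_nonneg _

lemma cop_le (W U n : ℕ) : cop W U n ≤ U := by
  unfold cop
  have h := card_filter_le (Icc 1 U) (fun h => (n + h).Coprime W)
  rw [Nat.card_Icc, Nat.add_sub_cancel] at h
  exact_mod_cast h

lemma cop_mod (W U n q : ℕ) : cop W U (n % (W * q)) = cop W U n := by
  unfold cop
  congr 2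
  apply filter_congr
  intro h _
  have e : (n % (W * q) + h) % W = (n + h) % W := by
    rw [Nat.add_mod, Nat.mod_mul_right_mod, ← Nat.add_mod]
  unfold Nat.Coprime
  rw [Nat.gcd_comm (n % (W * q) + h) W, Nat.gcd_comm (n + h) W, Nat.gcd_rec W, Nat.gcd_rec W (n + h), e]

lemma mem_PW {X : ℝ} {S : Finset ℕ} {ps p : ℕ} : p ∈ PW X S ps ↔
    (1 ≤ p ∧ p ≤ ⌊Real.log X / 1000⌋₊) ∧ p.Prime ∧ p ∉ S ∧ p ≠ ps := by
  unfold Pool.Agent.H378R2.PW Pool.Agent.H378R2.yy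
  rw [mem_filter, mem_Icc]

lemma PW_prime {X : ℝ} {S : Finset ℕ} {ps p : ℕ} (h : p ∈ PW X S ps) : p.Prime := (mem_PW.1 h).2.1

lemma cop_eq (X : ℝ) (S : Finset ℕ) (ps U n : ℕ) : cop (WW X S ps) U n = Sf (PW X S ps) n U := by
  classical
  unfold cop Sf
  congr 2
  ext h
  rw [mem_filter, mem_HS, mem_Icc]
  refine and_congr_right fun _ => ?_
  unfold Pool.Agent.H378R2.WW
  rw [Nat.coprime_prod_right_iff]
  apply forall₂_congr
  intro p hp
  rw [Nat.coprime_comm, Nat.Prime.coprime_iff_not_dvd (PW_prime hp)]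

lemma V_tot (X : ℝ) (S : Finset ℕ) (ps : ℕ) :
    V (PW X S ps) = (Nat.totient (WW X S ps) : ℝ) / (WW X S ps : ℝ) := by
  have hW0 : (0 : ℝ) < WW X S ps := by exact_mod_cast Pool.Agent.H378R2.WW_pos X S ps
  have h1 := Nat.totient_eq_mul_prod_factors (WW X S ps)
  have h2 : (WW X S ps).primeFactors = PW X S ps := by
    unfold Pool.Agent.H378R2.WW
    exact Nat.primeFactors_prod (fun p hp => PW_prime hp)
  rw [h2] at h1
  have h3 : (Nat.totient (WW X S ps) : ℝ) = (WW X S ps : ℝ) * ∏ p ∈ PW X S ps, (1 - (p : ℝ)⁻¹) := by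
    have h4 := congrArg (fun x : ℚ => (x : ℝ)) h1
    push_cast at h4
    exact h4
  rw [h3, mul_div_cancel_left₀ _ hW0.ne']
  unfold V
  apply prod_congr rfl
  intro p _
  rw [one_div]

lemma V_anti {P P' : Finset ℕ} (h : P ⊆ P') (hP : ∀ p ∈ P', p.Prime) : V P' ≤ V P := by
  classical
  have h1 : V (P' \ P) * V P = V P' := by
    unfold V
    exact prod_sdiff h
  have h2 := V_le_one (P' \ P) (fun p hp => hP p (Finset.mem_sdiff.1 hp).1)
  have h3 := V_pos P (fun p hp => hP p (h hp))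
  rw [← h1]
  nlinarith

/-- the upper bound sieve, normalised -/
lemma upG : ∃ C : ℝ, 0 < C ∧ ∀ᶠ t : ℝ in atTop, ∀ P : Finset ℕ,
    (∀ p ∈ P, p.Prime ∧ (p : ℝ) ≤ t) →
    ∑ p ∈ (Icc 1 ⌊t / 1000⌋₊).filter (fun p => p.Prime ∧ p ∉ P), 1 / (p : ℝ) ≤ 1 / 2 →
    ∀ U : ℕ, t ≤ U → ∀ n, Sf P n U ≤ C * (U * V P) := by
  classical
  obtain ⟨C, hC, hup⟩ := upW (1 / 2) (by norm_num) (by norm_num)
  obtain ⟨K, hK, hM⟩ := Pool.Agent.N422.LG.t_MERB2
  refine ⟨C * K, by positivity, ?_⟩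
  filter_upwards [hup, eventually_ge_atTop (4 : ℝ)] with t h1 h2 P hP hsum U hU n
  have ht0 : (0 : ℝ) < t := by linarith
  have hL0 : 0 < Real.log t := Real.log_pos (by linarith)
  have h3 := h1 P (fun p hp => (hP p hp).1) hsum U (by
    have : t ^ (2 * (1 / 2) : ℝ) = t := by norm_num
    rw [this]
    exact hU) n
  have hf2 : 2 ≤ ⌊t⌋₊ := Nat.le_floor (by push_cast; linarith)
  have hf0 : (2 : ℝ) ≤ ⌊t⌋₊ := by exact_mod_cast hf2
  have h4 := (hM ⌊t⌋₊ ⌊t⌋₊ hf2 le_rfl).2.2.1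
  have h5 : VV ⌊t⌋₊ ≤ V P := by
    rw [VV_eq]
    apply V_anti
    · intro p hp
      rw [mem_filter, mem_Icc]
      exact ⟨⟨(hP p hp).1.pos, Nat.le_floor (hP p hp).2⟩, (hP p hp).1⟩
    · intro p hp
      exact (mem_filter.1 hp).2
  have h6 : Real.log ⌊t⌋₊ ≤ Real.log t := Real.log_le_log (by linarith) (Nat.floor_le ht0.le)
  have h7 : 1 / (K * Real.log t) ≤ V P := by
    refine le_trans (one_div_le_one_div_of_le ?_ (mul_le_mul_of_nonneg_left h6 (by linarith))) (h4.trans h5)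
    have : 0 < Real.log ⌊t⌋₊ := Real.log_pos (by linarith)
    positivity
  have h8 : 1 / Real.log t ≤ K * V P := by
    rw [div_le_iff₀ (by positivity)] at h7
    rw [div_le_iff₀ hL0]
    linarith
  have hU0 : (0 : ℝ) ≤ U := Nat.cast_nonneg _
  calc Sf P n U ≤ C * (U / Real.log t) := h3
    _ = C * U * (1 / Real.log t) := by ring
    _ ≤ C * U * (K * V P) := mul_le_mul_of_nonneg_left h8 (by positivity)
    _ = _ := by ring

/-- the singular series and the model -/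
lemma GG_mQ (Q U : ℕ) (c : ℕ → ℕ → ℝ) :
    mQ Q (fun n => wt Q c n * ((Sv U Q n).card : ℝ)) = VV Q * ∑ h ∈ Icc 1 U, RP.GG Q c h := by
  classical
  have hN : (0 : ℝ) < (Q.factorial : ℝ) := by exact_mod_cast Nat.factorial_pos Q
  have hdN : ∀ d ∈ Icc 1 Q, d ∣ Q.factorial := fun d hd =>
    Nat.dvd_factorial (mem_Icc.1 hd).1 (mem_Icc.1 hd).2
  have h1 : ∑ n ∈ range Q.factorial, wt Q c n * ((Sv U Q n).card : ℝ) =
      ∑ h ∈ Icc 1 U, ∑ n ∈ range Q.factorial, wt Q c n * (if (∀ p ∈ PQ Q, ¬ p ∣ n + h) then 1 else 0) := by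
    rw [sum_comm]
    apply sum_congr rfl
    intro n _
    rw [← mul_sum]
    congr 1
    unfold Sv PQ
    rw [card_filter]
    push_cast
    rfl
  unfold mQ
  rw [h1, sum_congr rfl (fun h _ => sum_wt_free Q Q.factorial h c (Nat.factorial_pos Q) hdN), ← mul_sum, VV_eq]
  unfold PQ
  field_simp

lemma mu_mQ (Q : ℕ) (c : ℕ → ℕ → ℝ) : mQ Q (fun n => wt Q c n) = mu Q c := by
  have hN : (0 : ℝ) < (Q.factorial : ℝ) := by exact_mod_cast Nat.factorial_pos Q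
  have hdN : ∀ d ∈ Icc 1 Q, d ∣ Q.factorial := fun d hd =>
    Nat.dvd_factorial (mem_Icc.1 hd).1 (mem_Icc.1 hd).2
  unfold mQ
  rw [sum_wt Q Q.factorial c hdN]
  field_simp

lemma ax1 {a b c : ℝ} (ha : 0 ≤ a) (hb : 1 ≤ b) (h : a * b ≤ c) : a ≤ c := (le_mul_of_one_le_right ha hb).trans h

lemma ax2 {m η : ℝ} (hm : 0 ≤ m) (h : η ≤ 1 / 6400) : m / 2 ≤ (1 - η) * m := by nlinarith

lemma ax3 {σ l : ℝ} (h1 : 1 ≤ l) (h2 : 12 ≤ l * σ) : 6 ≤ σ / 2 * l ^ 2 := by nlinarith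

lemma ax4 {w r : ℝ} (hw : 1 ≤ w) (hr : 0 ≤ r) : r ≤ w * r := le_mul_of_one_le_left hr hw

lemma ax5 {l ll u : ℝ} (hl : 0 < l) (h1 : 1 ≤ ll) (h2 : 1 * (l * ll) ≤ u) : l ≤ u := by
  rw [one_mul] at h2
  exact (le_mul_of_one_le_right hl.le h1).trans h2

lemma ax6 {a b e : ℝ} (hb : 0 ≤ b) (he : e ≤ 1) (h : |a - b| ≤ e * b) : a ≤ 2 * b ∧ 0 ≤ a := by
  have h1 := abs_le.1 h
  have h2 : e * b ≤ 1 * b := mul_le_mul_of_nonneg_right he hb
  constructor <;> linarith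

lemma ax7 {σ l : ℝ} (h1 : 1 ≤ l) (h2 : 12 ≤ l * σ) : 6 * l ≤ σ / 2 * l ^ 2 := by nlinarith

/-- the formula -/
theorem primeform (η τ : ℝ) (hη : 0 < η) (hτ : 0 < τ) : ∃ B : ℝ, 1 ≤ B ∧ ∀ K Z : ℕ, ∃ X0 : ℕ, ∀ X : ℕ, X0 ≤ X →
    ∃ (ps : ℕ) (S : Finset ℕ), GoodP Z ps ∧ GoodS X S ∧
    ∑ p ∈ (Icc 1 ⌊Real.log X / 1000⌋₊).filter (fun p => p.Prime ∧ p ∉ PW X S ps), 1 / (p : ℝ) ≤ τ ∧
    ∑ p ∈ (Icc 1 ⌊Real.log X / 1000⌋₊).filter (fun p => p.Prime ∧ p ∉ PW X S ps ∧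
      Real.log X ^ (1 / 2 : ℝ) < p), 1 / (p : ℝ) ≤ τ / Real.log (Real.log X) ∧ ∀ U : ℕ, B * (Real.log X * Real.log (Real.log X)) ≤ U →
    (U : ℝ) ≤ (X : ℝ) ^ (9 / 10 : ℝ) → ∀ (c : ℕ → ℕ → ℝ) (M : ℝ), 0 < M →
    (∀ n, 0 ≤ ∑ q ∈ QS X S ps, c q (n % (WW X S ps * q))) →
    (∀ q ∈ QS X S ps, ∑ a ∈ range (WW X S ps * q), |c q a| ≤ M * (q.divisors.card : ℝ) ^ K * Real.log X ^ K) →
    M * X / (WW X S ps * Real.log X ^ K) ≤ ∑ n ∈ Ioc X (3 * X), ∑ q ∈ QS X S ps, c q (n % (WW X S ps * q)) →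
    0 < ∑ n ∈ Icc 1 (3 * X), (∑ q ∈ QS X S ps, c q (n % (WW X S ps * q))) * Phi (n / (X : ℝ)) ∧
    |∑ n ∈ Icc 1 (3 * X), (∑ q ∈ QS X S ps, c q (n % (WW X S ps * q))) * ∑ h ∈ Icc 1 U, th X (n + h) -
        (WW X S ps : ℝ) / (Nat.totient (WW X S ps) : ℝ) * ∑ n ∈ Icc 1 (3 * X),
          (∑ q ∈ QS X S ps, c q (n % (WW X S ps * q))) * cop (WW X S ps) U n * Phi (n / (X : ℝ))| ≤
      η * (U * ∑ n ∈ Icc 1 (3 * X), (∑ q ∈ QS X S ps, c q (n % (WW X S ps * q))) * Phi (n / (X : ℝ))) := by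
  classical
  obtain ⟨C, hC, hupG⟩ := upG
  obtain ⟨σ, B, hσ, hB, hmodel⟩ := model2 (η / 16) (by positivity)
  refine ⟨max B 1, le_max_right _ _, ?_⟩
  intro K Z
  set η₁ : ℝ := min (η / 2240) (1 / 6400) with hη₁
  have hη₁0 : 0 < η₁ := lt_min (by positivity) (by norm_num)
  have hη₁x : η₁ ≤ η / 2240 := min_le_left _ _
  have hη₁64 : η₁ ≤ 1 / 6400 := min_le_right _ _
  set ε : ℝ := min 1 (η / (16 * C)) with hε
  have hε0 : 0 < ε := lt_min one_pos (by positivity)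
  have hε1 : ε ≤ 1 := min_le_left _ _
  have hεC : ε * C ≤ η / 16 := by
    have h1 : ε ≤ η / (16 * C) := min_le_right _ _
    calc ε * C ≤ η / (16 * C) * C := mul_le_mul_of_nonneg_right h1 hC.le
      _ = η / 16 := by field_simp
  set σ1 : ℝ := min (min σ (1 / 2)) τ with hσ1
  have hσ10 : 0 < σ1 := lt_min (lt_min hσ (by norm_num)) hτ
  have hσ1a : σ1 ≤ σ := (min_le_left _ _).trans (min_le_left _ _)
  have hσ1b : σ1 ≤ 1 / 2 := (min_le_left _ _).trans (min_le_right _ _)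
  have hσ1c : σ1 ≤ τ := min_le_right _ _
  obtain ⟨Z1, hZ1⟩ := exists_nat_gt (2 / σ1)
  obtain ⟨X1, hest⟩ := est K (max Z Z1) η₁ hη₁0
  have hlog : Tendsto (fun X : ℕ => Real.log (X : ℝ)) atTop atTop := log_tend
  have hll : Tendsto (fun X : ℕ => Real.log (Real.log (X : ℝ))) atTop atTop := Real.tendsto_log_atTop.comp hlog
  have hev : ∀ᶠ X : ℕ in atTop, X1 ≤ X ∧ 4 ≤ X ∧ (100 : ℝ) ≤ Real.log X ∧
      (∀ h : ℕ, (h : ℝ) ≤ (X : ℝ) ^ (9 / 10 : ℝ) →
        Real.log (3 * X) * h + 2 * Real.sqrt (3 * X) * Real.log (3 * X) ≤ (X : ℝ) ^ (19 / 20 : ℝ)) ∧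
      (|LPhi X - MPhi X| ≤ ε * MPhi X ∧ X / 20 ≤ MPhi X) ∧ max 1 (12 / σ1) ≤ Real.log (Real.log (X : ℝ)) ∧
      Real.log (Real.log (X : ℝ)) ≤ σ1 / 2 * Real.log (X : ℝ) ^ (1 / 2 : ℝ) := by
    have hsq : ∀ᶠ t : ℝ in atTop, Real.log t ≤ σ1 / 2 * t ^ (1 / 2 : ℝ) := by
      filter_upwards [(isLittleO_log_rpow_atTop (show (0 : ℝ) < 1 / 2 by norm_num)).bound
        (show (0 : ℝ) < σ1 / 2 by positivity), eventually_ge_atTop (1 : ℝ)] with t h1 h2
      rw [Real.norm_of_nonneg (Real.log_nonneg h2), Real.norm_of_nonneg (Real.rpow_nonneg (by linarith) _)] at h1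
      exact h1
    filter_upwards [eventually_ge_atTop X1, eventually_ge_atTop 4, hlog.eventually_ge_atTop 100, small_U, LM ε hε0,
      hll.eventually_ge_atTop (max 1 (12 / σ1)), hlog.eventually hsq] with X a1 a2 a3 a4 a5 a6 a7
    exact ⟨a1, a2, a3, a4, a5, a6, a7⟩
  obtain ⟨X0, hX0⟩ := (hev.and ((hlog.eventually hupG).and (hlog.eventually hmodel))).exists_forall_of_atTop
  refine ⟨X0, ?_⟩
  intro X hX
  obtain ⟨⟨hXX1, h4X, hLbig, hsm, ⟨hLM, hMP⟩, hLL, hLL2⟩, hG, hMo⟩ := hX0 X hX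
  obtain ⟨ps, S, hps', hS, hc⟩ := hest X hXX1
  have hps : GoodP Z ps := by
    rcases hps' with h | h
    · exact Or.inl h
    · exact Or.inr ⟨h.1, lt_of_le_of_lt (le_max_left _ _) h.2⟩
  set L := Real.log (X : ℝ) with hL
  have hL100 : 100 ≤ L := hLbig
  have hL4 : 4 ≤ L := by linarith
  have hL0 : 0 < L := by linarith
  set P := PW X S ps with hP
  have hPp : ∀ p ∈ P, p.Prime ∧ (p : ℝ) ≤ L := by
    intro p hp
    refine ⟨PW_prime hp, ?_⟩
    have h1 := (mem_PW.1 hp).1.2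
    have h2 : (p : ℝ) ≤ (⌊L / 1000⌋₊ : ℝ) := by exact_mod_cast h1
    have h3 : (⌊L / 1000⌋₊ : ℝ) ≤ L / 1000 := Nat.floor_le (by positivity)
    linarith
  have hsum : ∑ p ∈ (Icc 1 ⌊L / 1000⌋₊).filter (fun p => p.Prime ∧ p ∉ P), 1 / (p : ℝ) ≤ σ1 := by
    have h1 : (Icc 1 ⌊L / 1000⌋₊).filter (fun p => p.Prime ∧ p ∉ P) ⊆ S ∪ ({ps} : Finset ℕ).filter Nat.Prime := by
      intro p hp
      rw [mem_filter, mem_Icc] at hp
      rw [mem_union, mem_filter, mem_singleton]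
      by_cases hpS : p ∈ S
      · exact Or.inl hpS
      · right
        refine ⟨?_, hp.2.1⟩
        by_contra hne
        exact hp.2.2 (mem_PW.2 ⟨hp.1, hp.2.1, hpS, hne⟩)
    have h2 := sum_le_sum_of_subset_of_nonneg h1 (f := fun p : ℕ => 1 / (p : ℝ)) (fun p _ _ => by positivity)
    have h3 := sum_union_inter (s₁ := S) (s₂ := ({ps} : Finset ℕ).filter Nat.Prime) (f := fun p : ℕ => 1 / (p : ℝ))
    have h4 : 0 ≤ ∑ p ∈ S ∩ ({ps} : Finset ℕ).filter Nat.Prime, 1 / (p : ℝ) := sum_nonneg fun p _ => by positivity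
    have h5 : ∑ p ∈ ({ps} : Finset ℕ).filter Nat.Prime, 1 / (p : ℝ) ≤ σ1 / 2 := by
      by_cases hpp : ps.Prime
      · rw [filter_singleton, if_pos hpp, sum_singleton]
        rcases hps' with h | h
        · rw [h] at hpp
          exact absurd hpp (by norm_num)
        · have h6 : (2 : ℝ) / σ1 < ps := hZ1.trans (by
            exact_mod_cast lt_of_le_of_lt (le_max_right Z Z1) h.2)
          rw [div_lt_iff₀ hσ10] at h6
          have h7 : (0 : ℝ) < ps := by exact_mod_cast hpp.pos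
          rw [div_le_iff₀ h7]
          linarith
      · rw [filter_singleton, if_neg hpp, sum_empty]
        positivity
    have h6 : ∑ q ∈ S, (1 : ℝ) / q ≤ σ1 / 2 := by
      refine hS.2.trans ?_
      have h7 : 12 / σ1 ≤ Real.log L := (le_max_right _ _).trans hLL
      have h8 : 1 ≤ Real.log L := (le_max_left _ _).trans hLL
      rw [div_le_iff₀ (by positivity)]
      rw [div_le_iff₀ hσ10] at h7
      exact ax3 h8 h7
    linarith
  have hsum2 : ∑ p ∈ (Icc 1 ⌊L / 1000⌋₊).filter (fun p => p.Prime ∧ p ∉ P ∧ L ^ (1 / 2 : ℝ) < p), 1 / (p : ℝ) ≤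
      σ1 / Real.log L := by
    have hLL1 : 1 ≤ Real.log L := (le_max_left _ _).trans hLL
    have hsq0 : 0 < L ^ (1 / 2 : ℝ) := Real.rpow_pos_of_pos hL0 _
    have h1 : (Icc 1 ⌊L / 1000⌋₊).filter (fun p => p.Prime ∧ p ∉ P ∧ L ^ (1 / 2 : ℝ) < p) ⊆
        S ∪ ({ps} : Finset ℕ).filter (fun p : ℕ => L ^ (1 / 2 : ℝ) < (p : ℝ)) := by
      intro p hp
      rw [mem_filter, mem_Icc] at hp
      rw [mem_union, mem_filter, mem_singleton]
      by_cases hpS : p ∈ S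
      · exact Or.inl hpS
      · right
        refine ⟨?_, hp.2.2.2⟩
        by_contra hne
        exact hp.2.2.1 (mem_PW.2 ⟨hp.1, hp.2.1, hpS, hne⟩)
    have h2 := sum_le_sum_of_subset_of_nonneg h1 (f := fun p : ℕ => 1 / (p : ℝ)) (fun p _ _ => by positivity)
    have h3 := sum_union_inter (s₁ := S) (s₂ := ({ps} : Finset ℕ).filter (fun p : ℕ => L ^ (1 / 2 : ℝ) < (p : ℝ)))
      (f := fun p : ℕ => 1 / (p : ℝ))
    have h4 : 0 ≤ ∑ p ∈ S ∩ ({ps} : Finset ℕ).filter (fun p : ℕ => L ^ (1 / 2 : ℝ) < (p : ℝ)), 1 / (p : ℝ) :=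
      sum_nonneg fun p _ => by positivity
    have h5 : ∑ p ∈ ({ps} : Finset ℕ).filter (fun p : ℕ => L ^ (1 / 2 : ℝ) < (p : ℝ)), 1 / (p : ℝ) ≤
        σ1 / 2 / Real.log L := by
      by_cases hpp : L ^ (1 / 2 : ℝ) < (ps : ℝ)
      · rw [filter_singleton, if_pos hpp, sum_singleton]
        rw [div_le_div_iff₀ (by linarith) (by linarith)]
        have h6 : σ1 / 2 * L ^ (1 / 2 : ℝ) ≤ σ1 / 2 * ps := mul_le_mul_of_nonneg_left hpp.le (by positivity)
        linarith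
      · rw [filter_singleton, if_neg hpp, sum_empty]
        positivity
    have h6 : ∑ q ∈ S, (1 : ℝ) / q ≤ σ1 / 2 / Real.log L := by
      refine hS.2.trans ?_
      have h7 : 12 / σ1 ≤ Real.log L := (le_max_right _ _).trans hLL
      rw [div_le_div_iff₀ (by positivity) (by linarith)]
      rw [div_le_iff₀ hσ10] at h7
      exact ax7 hLL1 h7
    have h7 : σ1 / Real.log L = σ1 / 2 / Real.log L + σ1 / 2 / Real.log L := by ring
    linarith
  have hLL0 : 0 < Real.log L := by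
    have := (le_max_left _ _).trans hLL
    linarith
  refine ⟨ps, S, hps, hS, hsum.trans hσ1c, hsum2.trans (div_le_div_of_nonneg_right hσ1c hLL0.le), ?_⟩
  intro U hU hUX c M hM hw hs hm
  obtain ⟨hT, hSt⟩ := hc c M hM hs
  have hXr : (4 : ℝ) ≤ X := by exact_mod_cast h4X
  have hX0 : (0 : ℝ) < X := by linarith
  set W := WW X S ps with hW
  have hW0 : 0 < W := Pool.Agent.H378R2.WW_pos X S ps
  have hWr : (0 : ℝ) < W := by exact_mod_cast hW0
  set R := ⌊(X : ℝ) ^ (1 / 100 : ℝ)⌋₊ with hR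
  have hXp1 : 1 ≤ (X : ℝ) ^ (1 / 100 : ℝ) := Real.one_le_rpow (by linarith) (by norm_num)
  have hR1 : 1 ≤ R := Nat.le_floor (by rw [Nat.cast_one]; exact hXp1)
  set Q := W * R with hQ
  have hQ1 : 1 ≤ Q := Nat.mul_pos hW0 hR1
  set CC := ct W (QS X S ps) c with hCC
  have hwt : ∀ n, wt Q CC n = ∑ q ∈ QS X S ps, c q (n % (W * q)) :=
    fun n => wt_ct W R hW0 (QS X S ps) (QS_sub _ _ _) c n
  simp only [← hwt] at hw hm ⊢
  set St : ℝ := ∑ d ∈ Icc 1 Q, ss CC d with hStd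
  set m : ℝ := ∑ n ∈ Ioc X (3 * X), wt Q CC n with hmd
  have hSt0 : 0 ≤ St := sum_nonneg fun d _ => ss_nonneg _ _
  have hSt1 : St * (X : ℝ) ^ (19 / 20 : ℝ) ≤ η₁ * m := hSt.trans (mul_le_mul_of_nonneg_left hm hη₁0.le)
  have hSt2 : St ≤ η₁ * m := by
    refine le_trans ?_ hSt1
    have h1 : 1 ≤ (X : ℝ) ^ (19 / 20 : ℝ) := Real.one_le_rpow (by linarith) (by norm_num)
    exact le_mul_of_one_le_right hSt0 h1
  have hm0 : 0 ≤ m := sum_nonneg fun n _ => hw n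
  have hmass := (abs_le.1 ((sum_int Q X (3 * X) (by omega) CC))).2
  rw [← hmd, ← hStd] at hmass
  have e1 : (((3 * X : ℕ) : ℝ) - X) * mu Q CC = 2 * (X * mu Q CC) := by push_cast; ring
  rw [e1] at hmass
  have hWX : (W : ℝ) ≤ (X : ℝ) ^ (1 / 700 : ℝ) := by
    refine (Pool.Agent.H378R2.WW_le X (by linarith) S ps).trans (le_of_eq ?_)
    rw [Real.rpow_def_of_pos hX0]
    congr 1
    ring
  have hQX : (Q : ℝ) ≤ X := by
    have h2 : (R : ℝ) ≤ (X : ℝ) ^ (1 / 100 : ℝ) := Nat.floor_le (Real.rpow_nonneg hX0.le _)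
    calc (Q : ℝ) = W * R := by rw [hQ]; push_cast; ring
      _ ≤ (X : ℝ) ^ (1 / 700 : ℝ) * (X : ℝ) ^ (1 / 100 : ℝ) :=
          mul_le_mul hWX h2 (by positivity) (Real.rpow_nonneg hX0.le _)
      _ = (X : ℝ) ^ (1 / 700 + 1 / 100 : ℝ) := (Real.rpow_add hX0 _ _).symm
      _ ≤ (X : ℝ) ^ (1 : ℝ) := Real.rpow_le_rpow_of_exponent_le (by linarith) (by norm_num)
      _ = X := Real.rpow_one _
  have hmu0 : 0 ≤ mu Q CC := by
    have h1 : 0 ≤ (1 - η₁) * m := mul_nonneg (by linarith) hm0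
    have h2 : 0 ≤ 2 * (X * mu Q CC) := by linarith
    have h3 : 0 ≤ X * mu Q CC := by linarith
    exact nonneg_of_mul_nonneg_right h3 hX0
  have hUleX : ∀ h ∈ Icc 1 U, h ≤ X ∧ (h : ℝ) ≤ (X : ℝ) ^ (9 / 10 : ℝ) := by
    intro h hh
    have h1 : (h : ℝ) ≤ U := by exact_mod_cast (mem_Icc.1 hh).2
    have h2 : (X : ℝ) ^ (9 / 10 : ℝ) ≤ X := by
      calc (X : ℝ) ^ (9 / 10 : ℝ) ≤ (X : ℝ) ^ (1 : ℝ) :=
            Real.rpow_le_rpow_of_exponent_le (by linarith) (by norm_num)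
        _ = X := Real.rpow_one _
    refine ⟨?_, h1.trans hUX⟩
    have : (h : ℝ) ≤ X := by linarith
    exact_mod_cast this
  set Y : ℝ := MPhi X * mu Q CC with hY
  set NN : ℝ := ∑ n ∈ Icc 1 (3 * X), wt Q CC n * Phi (n / (X : ℝ)) with hNN
  have hMP0 : 0 ≤ MPhi X := le_trans (by positivity) hMP
  have hY0 : 0 ≤ Y := mul_nonneg hMP0 hmu0
  have hmY : m ≤ 80 * Y := by
    have h1 : m / 2 ≤ (1 - η₁) * m := ax2 hm0 hη₁64
    have h2 : X / 20 * mu Q CC ≤ Y := mul_le_mul_of_nonneg_right hMP hmu0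
    have h3 : (1 - η₁) * m ≤ 2 * (X * mu Q CC) := by linarith
    linarith
  have hStY : St ≤ 80 * η₁ * Y := by
    calc St ≤ η₁ * m := hSt2
      _ ≤ η₁ * (80 * Y) := mul_le_mul_of_nonneg_left hmY hη₁0.le
      _ = _ := by ring
  have hNY := mass_Phi X h4X Q (by exact_mod_cast hQX) CC
  rw [← hNN, ← hY, ← hStd] at hNY
  have hNY' : |NN - Y| ≤ 400 * η₁ * Y := by linarith
  have hNN2 : Y / 2 ≤ NN := by
    have h1 := (abs_le.1 hNY').1
    have h2 : 400 * η₁ * Y ≤ Y / 2 := by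
      have := mul_le_mul_of_nonneg_right hη₁64 hY0
      linarith
    linarith
  -- the model
  have hlQ2 : Real.log Q ≤ L := Real.log_le_log (by exact_mod_cast hQ1) hQX
  have hlQ1 : L / 1000 ≤ Real.log Q := by
    have h1 : (X : ℝ) ^ (1 / 100 : ℝ) / 2 ≤ R := by
      have h2 : (X : ℝ) ^ (1 / 100 : ℝ) < R + 1 := Nat.lt_floor_add_one _
      have h3 : (1 : ℝ) ≤ R := by exact_mod_cast hR1
      linarith
    have h2 : (R : ℝ) ≤ Q := by
      rw [hQ]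
      push_cast
      have : (1 : ℝ) ≤ W := by exact_mod_cast hW0
      exact ax4 this (Nat.cast_nonneg R)
    have h3 : Real.log ((X : ℝ) ^ (1 / 100 : ℝ) / 2) ≤ Real.log Q := Real.log_le_log (by positivity) (h1.trans h2)
    rw [Real.log_div (by positivity) (by norm_num), Real.log_rpow hX0] at h3
    have h4 : Real.log 2 ≤ 9 / 1000 * L := by
      have := Real.log_two_lt_d9
      linarith
    linarith
  have hLL1 : 1 ≤ Real.log L := (le_max_left _ _).trans hLL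
  have hLLp : 0 < L * Real.log L := by positivity
  have hUB : B * (L * Real.log L) ≤ U := (mul_le_mul_of_nonneg_right (le_max_left _ _) hLLp.le).trans hU
  have hUL : L ≤ U := by
    have h1 : 1 * (L * Real.log L) ≤ U := (mul_le_mul_of_nonneg_right (le_max_right _ _) hLLp.le).trans hU
    exact ax5 hL0 hLL1 h1
  have hmod := hMo Q hlQ1 hlQ2 U hUB P hPp (hsum.trans hσ1a)
    (hsum2.trans (div_le_div_of_nonneg_right hσ1a (by linarith))) CC hw
  have hup := hG P hPp (hsum.trans hσ1b) U hUL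
  have hVP0 : 0 < V P := V_pos P (fun p hp => (hPp p hp).1)
  have hVQ0 : 0 < VV Q := Pool.Agent.N422.LG.MERB_pos Q
  have hU0 : (0 : ℝ) ≤ U := Nat.cast_nonneg _
  set GS : ℝ := ∑ h ∈ Icc 1 U, RP.GG Q CC h with hGS
  set N : ℝ := mQ Q (fun n => wt Q CC n * Sf P n U) with hN
  set G' : ℝ := N / V P with hG'
  have hmod' : |VV Q * GS - VV Q / V P * N| ≤ η / 16 * (U * VV Q) * mu Q CC := by
    rw [hGS, ← GG_mQ, ← mu_mQ]
    exact hmod
  have hGG' : |GS - G'| ≤ η / 16 * (U * mu Q CC) := by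
    have h1 : VV Q * GS - VV Q / V P * N = VV Q * (GS - G') := by
      rw [hG']
      ring
    rw [h1, abs_mul, abs_of_pos hVQ0] at hmod'
    have h2 : VV Q * |GS - G'| ≤ VV Q * (η / 16 * (U * mu Q CC)) := by linarith
    exact le_of_mul_le_mul_left h2 hVQ0
  have hN0 : 0 ≤ N := Pool.Agent.N422.LG.REC_mQ_nonneg (fun n => mul_nonneg (hw n) (Nat.cast_nonneg _))
  have hG'0 : 0 ≤ G' := by positivity
  have hG'le : G' ≤ C * (U * mu Q CC) := by
    rw [hG', div_le_iff₀ hVP0]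
    have h1 : N ≤ mQ Q (fun n => (C * (U * V P)) * wt Q CC n) := by
      apply Pool.Agent.N422.LG.REC_mQ_mono
      intro n
      rw [mul_comm]
      exact mul_le_mul_of_nonneg_right (hup n) (hw n)
    rw [Pool.Agent.N422.LG.FIN_smul, mu_mQ] at h1
    linarith
  -- the weight `w N`
  set C2 := ct W (QS X S ps) (fun q a => c q a * cop W U a) with hC2
  have hwt2 : ∀ n, wt Q C2 n = wt Q CC n * cop W U n := by
    intro n
    rw [hwt, hC2, hQ, wt_ct W R hW0 (QS X S ps) (QS_sub _ _ _), sum_mul]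
    apply sum_congr rfl
    intro q _
    rw [cop_mod]
  have hNmu : N = mu Q C2 := by
    rw [← mu_mQ, hN]
    congr 1
    ext n
    rw [hwt2, hP, ← cop_eq]
  have hss2 : ∑ d ∈ Icc 1 Q, ss C2 d ≤ U * St := by
    rw [hStd, mul_sum]
    apply sum_le_sum
    intro d _
    rw [hC2, hCC, ss_ct, ss_ct]
    split_ifs with h
    · rw [mul_sum]
      apply sum_le_sum
      intro a _
      rw [abs_mul, abs_of_nonneg (cop_nonneg _ _ _), mul_comm]
      exact mul_le_mul_of_nonneg_right (cop_le _ _ _) (abs_nonneg _)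
    · simp
  have hmass2 := mass_Phi X h4X Q (by exact_mod_cast hQX) C2
  rw [← hNmu] at hmass2
  set T2 : ℝ := ∑ n ∈ Icc 1 (3 * X), wt Q CC n * cop W U n * Phi (n / (X : ℝ)) with hT2
  have hT2' : ∑ n ∈ Icc 1 (3 * X), wt Q C2 n * Phi (n / (X : ℝ)) = T2 :=
    sum_congr rfl (fun n _ => by rw [hwt2])
  rw [hT2'] at hmass2
  have hVinv : 1 / V P ≤ (X : ℝ) ^ (19 / 20 : ℝ) := by
    have h1 : V P = (Nat.totient W : ℝ) / (W : ℝ) := V_tot X S ps
    have h2 : (1 : ℝ) ≤ (Nat.totient W : ℝ) := by exact_mod_cast Nat.totient_pos.2 hW0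
    rw [h1, one_div_div]
    calc (W : ℝ) / (Nat.totient W : ℝ) ≤ W := div_le_self hWr.le h2
      _ ≤ (X : ℝ) ^ (1 / 700 : ℝ) := hWX
      _ ≤ (X : ℝ) ^ (19 / 20 : ℝ) := Real.rpow_le_rpow_of_exponent_le (by linarith) (by norm_num)
  have hWtot : (W : ℝ) / (Nat.totient W : ℝ) = 1 / V P := by
    have h1 : V P = (Nat.totient W : ℝ) / (W : ℝ) := V_tot X S ps
    rw [h1, one_div_div]
  -- the individual steps
  have hsw : ∑ n ∈ Icc 1 (3 * X), wt Q CC n * ∑ h ∈ Icc 1 U, th X (n + h) =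
      ∑ h ∈ Icc 1 U, ∑ n ∈ Icc 1 (3 * X), wt Q CC n * th X (n + h) := by
    rw [sum_comm]
    apply sum_congr rfl
    intro n _
    rw [mul_sum]
  have s1 : |∑ h ∈ Icc 1 U, ∑ n ∈ Icc 1 (3 * X), wt Q CC n * th X (n + h) - ∑ h ∈ Icc 1 U, TT X Q CC h| ≤
      U * (80 * η₁ * Y) := by
    rw [← sum_sub_distrib]
    refine (abs_sum_le_sum_abs _ _).trans ?_
    have h1 : ∀ h ∈ Icc 1 U, |∑ n ∈ Icc 1 (3 * X), wt Q CC n * th X (n + h) - TT X Q CC h| ≤ 80 * η₁ * Y := by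
      intro h hh
      refine (TT_th X (by omega) Q CC hw St (wt_le_ss Q CC) h (hUleX h hh).1).trans ?_
      have h2 := hsm h (hUleX h hh).2
      have h3 : 0 ≤ Real.log (3 * X) * h := mul_nonneg (Real.log_nonneg (by linarith)) (Nat.cast_nonneg _)
      calc St * (2 * Real.sqrt (3 * X) * Real.log (3 * X)) ≤ St * (X : ℝ) ^ (19 / 20 : ℝ) :=
            mul_le_mul_of_nonneg_left (by linarith) hSt0
        _ ≤ η₁ * m := hSt1
        _ ≤ η₁ * (80 * Y) := mul_le_mul_of_nonneg_left hmY hη₁0.le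
        _ = _ := by ring
    refine (sum_le_sum h1).trans ?_
    rw [sum_const, Nat.card_Icc, Nat.add_sub_cancel, nsmul_eq_mul]
  have s2 : |∑ h ∈ Icc 1 U, TT X Q CC h - LPhi X * GS| ≤ U * (80 * η₁ * Y) := by
    rw [hGS, mul_sum, ← sum_sub_distrib]
    refine (abs_sum_le_sum_abs _ _).trans ?_
    have h1 : ∀ h ∈ Icc 1 U, |TT X Q CC h - LPhi X * RP.GG Q CC h| ≤ 80 * η₁ * Y := by
      intro h hh
      refine (hT h (hUleX h hh).1).trans ?_
      calc η₁ * (M * X / (W * L ^ K)) ≤ η₁ * m := mul_le_mul_of_nonneg_left hm hη₁0.le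
        _ ≤ η₁ * (80 * Y) := mul_le_mul_of_nonneg_left hmY hη₁0.le
        _ = _ := by ring
    refine (sum_le_sum h1).trans ?_
    rw [sum_const, Nat.card_Icc, Nat.add_sub_cancel, nsmul_eq_mul]
  obtain ⟨hLPle, hLP0⟩ := ax6 hMP0 hε1 hLM
  have s3 : |LPhi X * GS - LPhi X * G'| ≤ η / 8 * (U * Y) := by
    rw [← mul_sub, abs_mul, abs_of_nonneg hLP0]
    calc LPhi X * |GS - G'| ≤ (2 * MPhi X) * (η / 16 * (U * mu Q CC)) :=
          mul_le_mul hLPle hGG' (abs_nonneg _) (by linarith)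
      _ = _ := by rw [hY]; ring
  have s4 : |LPhi X * G' - MPhi X * G'| ≤ η / 16 * (U * Y) := by
    rw [← sub_mul, abs_mul, abs_of_nonneg hG'0]
    have hUmu : 0 ≤ U * mu Q CC := by positivity
    calc |LPhi X - MPhi X| * G' ≤ (ε * MPhi X) * (C * (U * mu Q CC)) :=
          mul_le_mul hLM hG'le hG'0 (by positivity)
      _ = (ε * C) * (MPhi X * (U * mu Q CC)) := by ring
      _ ≤ (η / 16) * (MPhi X * (U * mu Q CC)) := mul_le_mul_of_nonneg_right hεC (by positivity)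
      _ = _ := by rw [hY]; ring
  have s5 : |MPhi X * G' - 1 / V P * T2| ≤ U * (400 * η₁ * Y) := by
    have h1 : MPhi X * G' - 1 / V P * T2 = -(1 / V P * (T2 - MPhi X * N)) := by
      rw [hG']
      ring
    rw [h1, abs_neg, abs_mul, abs_of_nonneg (show 0 ≤ 1 / V P by positivity)]
    have h2 : |T2 - MPhi X * N| ≤ 5 * (U * St) := hmass2.trans (by linarith)
    calc 1 / V P * |T2 - MPhi X * N| ≤ (X : ℝ) ^ (19 / 20 : ℝ) * (5 * (U * St)) :=
          mul_le_mul hVinv h2 (abs_nonneg _) (Real.rpow_nonneg hX0.le _)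
      _ = 5 * U * (St * (X : ℝ) ^ (19 / 20 : ℝ)) := by ring
      _ ≤ 5 * U * (η₁ * m) := mul_le_mul_of_nonneg_left hSt1 (by positivity)
      _ ≤ 5 * U * (η₁ * (80 * Y)) := by
          apply mul_le_mul_of_nonneg_left _ (by positivity)
          exact mul_le_mul_of_nonneg_left hmY hη₁0.le
      _ = _ := by ring
  have hNNpos : 0 < NN := by
    have h1 : 0 < M * X / (W * L ^ K) := by positivity
    linarith
  refine ⟨hNNpos, ?_⟩
  rw [hsw, hWtot]
  have htot : |∑ h ∈ Icc 1 U, ∑ n ∈ Icc 1 (3 * X), wt Q CC n * th X (n + h) - 1 / V P * T2| ≤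
      U * (80 * η₁ * Y) + U * (80 * η₁ * Y) + η / 8 * (U * Y) + η / 16 * (U * Y) + U * (400 * η₁ * Y) := by
    have t1 := abs_le.1 s1
    have t2 := abs_le.1 s2
    have t3 := abs_le.1 s3
    have t4 := abs_le.1 s4
    have t5 := abs_le.1 s5
    rw [abs_le]
    constructor <;> linarith
  refine htot.trans ?_
  calc U * (80 * η₁ * Y) + U * (80 * η₁ * Y) + η / 8 * (U * Y) + η / 16 * (U * Y) + U * (400 * η₁ * Y) =
        U * Y * (560 * η₁ + 3 / 16 * η) := by ring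
    _ ≤ U * Y * (η / 2) := by
        apply mul_le_mul_of_nonneg_left _ (by positivity)
        linarith
    _ = η * (U * (Y / 2)) := by ring
    _ ≤ η * (U * NN) := by
        apply mul_le_mul_of_nonneg_left _ hη.le
        exact mul_le_mul_of_nonneg_left hNN2 hU0

end Pool.Agent.H301.SX
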