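import Pool.Agent.H301.SV.All

/-! The recursion over the scales for nonnegative weights, lower bound with relative errors (adapted from LG/REC and
LG/RECU2 of project LG, helper422; helpers 289 and 75), by helper301. -/

set_option autoImplicit false

open Finset

namespace Pool.Agent.H301.SX

open Pool.Agent.N422.NW Pool.Agent.N422.SL Pool.Agent.N422.WS Pool.Agent.N422.LG

theorem rec2 (Q U y : ℕ) (δ K : ℝ) (c : ℕ → ℕ → ℝ) (hy : 2 ≤ y) (hyQ : y ≤ Q) (hδ : 0 < δ) (hδ1 : δ ≤ 1 / 16)
    (hyδ : 1 / (y : ℝ) ≤ δ) (hw : ∀ n, 0 ≤ wt Q c n)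
    (hK : ∀ z : ℕ, y ≤ z → z ≤ Q → Real.exp (-(RECD Q z)) * (Real.log Q / Real.log z) ≤ K) :
    Real.exp (-((1 + 8 * δ) * RECD Q y)) * mQ Q (fun n => wt Q c n * ((Sv U y n).card : ℝ)) -
      (RECD Q y / δ + 1) * ((U / y + 1) * (40 * K / δ)) * mQ Q (wt Q c) ≤
    mQ Q (fun n => wt Q c n * ((Sv U Q n).card : ℝ)) := by
  have h : S_HIT := Pool.Agent.H301.SV.hit_all
  have hy0 : (0 : ℝ) < y := by exact_mod_cast (by omega : 0 < y)
  have hB : 0 ≤ mQ Q (wt Q c) := REC_mQ_nonneg hw
  have hlog : ∀ z : ℕ, 0 ≤ Real.log Q / Real.log z := fun z =>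
    div_nonneg (Real.log_natCast_nonneg Q) (Real.log_natCast_nonneg z)
  have hK0 : 0 ≤ K := (mul_nonneg (Real.exp_pos _).le (hlog Q)).trans (hK Q hyQ le_rfl)
  obtain ⟨E, hE⟩ : ∃ E : ℝ, E = (U / y + 1) * (40 * K / δ) := ⟨_, rfl⟩
  have hE0 : 0 ≤ E := by
    rw [hE]
    positivity
  obtain ⟨A, hA⟩ : ∃ A : ℕ → ℝ, ∀ z, A z = mQ Q (fun n => wt Q c n * ((Sv U z n).card : ℝ)) := ⟨_, fun _ => rfl⟩
  have hA0 : ∀ z, 0 ≤ A z := fun z => by
    rw [hA]
    exact REC_mQ_nonneg (fun n => mul_nonneg (hw n) (Nat.cast_nonneg _))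
  have hEB : 0 ≤ E * mQ Q (wt Q c) := mul_nonneg hE0 hB
  have step : ∀ z z', y ≤ z → z ≤ z' → z' ≤ Q → RECD z' z ≤ 2 * δ →
      Real.exp (-((1 + 8 * δ) * RECD Q z)) * A z ≤
        Real.exp (-((1 + 8 * δ) * RECD Q z')) * A z' + E * mQ Q (wt Q c) := by
    intro z z' h1 h2 h3 h4
    have h5 := REC_step h Q U z z z' δ c (hy.trans h1) le_rfl h2 h3 hδ hδ1 hw
    rw [← hA, ← hA] at h5
    have hd := RECD_add h2 h3
    have hD := RECD_nonneg z' z
    have h6 := mul_le_mul_of_nonneg_right (REC_factor hδ hδ1 hD h4) (hA0 z)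
    have h8 : Real.exp (-((1 + 8 * δ) * RECD z' z)) * A z ≤ A z' +
        (((U : ℝ) / z + 1) * (20 * (Real.log Q / Real.log z) / δ)) * mQ Q (wt Q c) := by linarith
    have h9 := mul_le_mul_of_nonneg_left h8 (Real.exp_pos (-((1 + 8 * δ) * RECD Q z'))).le
    have h10 : Real.exp (-((1 + 8 * δ) * RECD Q z)) =
        Real.exp (-((1 + 8 * δ) * RECD Q z')) * Real.exp (-((1 + 8 * δ) * RECD z' z)) := by
      rw [← Real.exp_add, hd]
      congr 1
      ring
    rw [← mul_assoc, ← h10, mul_add] at h9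
    refine h9.trans ?_
    have hQz := RECD_nonneg Q z'
    have g1 : Real.exp (-((1 + 8 * δ) * RECD Q z')) ≤ 2 * Real.exp (-(RECD Q z)) := by
      have g2 : Real.exp (-((1 + 8 * δ) * RECD Q z')) ≤ Real.exp (RECD z' z + -(RECD Q z)) := by
        apply Real.exp_le_exp.2
        rw [hd]
        nlinarith [mul_nonneg hδ.le hQz]
      rw [Real.exp_add] at g2
      refine g2.trans (mul_le_mul_of_nonneg_right ?_ (Real.exp_pos _).le)
      have g3 : Real.exp (RECD z' z) ≤ Real.exp (1 / 8) := Real.exp_le_exp.2 (by linarith)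
      have g4 : Real.exp (1 / 8 : ℝ) ≤ 2 := by
        have g5 := Real.exp_one_lt_d9
        have g6 : Real.exp (1 / 8 : ℝ) ^ 8 = Real.exp 1 := by
          rw [← Real.exp_nat_mul]
          norm_num
        by_contra hcon
        push Not at hcon
        have g7 : (2 : ℝ) ^ 8 < Real.exp (1 / 8 : ℝ) ^ 8 := pow_lt_pow_left₀ hcon (by norm_num) (by norm_num)
        rw [g6] at g7
        norm_num at g5 g7
        linarith
      exact g3.trans g4
    have hyz' : (y : ℝ) ≤ z := by exact_mod_cast h1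
    have a1 : (U : ℝ) / z + 1 ≤ U / y + 1 := by
      have := div_le_div_of_nonneg_left (Nat.cast_nonneg U) hy0 hyz'
      linarith
    have a0 : (0 : ℝ) ≤ (U : ℝ) / y + 1 := by positivity
    have a2 : Real.exp (-((1 + 8 * δ) * RECD Q z')) * (Real.log Q / Real.log z) ≤ 2 * K := by
      have b1 := hK z h1 (h2.trans h3)
      have b2 := mul_le_mul_of_nonneg_right g1 (hlog z)
      linarith
    have a3 : 20 * (Real.exp (-((1 + 8 * δ) * RECD Q z')) * (Real.log Q / Real.log z)) / δ ≤ 40 * K / δ :=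
      div_le_div_of_nonneg_right (by linarith) hδ.le
    have a5 : 0 ≤ 20 * (Real.exp (-((1 + 8 * δ) * RECD Q z')) * (Real.log Q / Real.log z)) / δ := by
      have := mul_nonneg (Real.exp_pos (-((1 + 8 * δ) * RECD Q z'))).le (hlog z)
      positivity
    have a4 := mul_le_mul_of_nonneg_right (mul_le_mul a1 a3 a5 a0) hB
    rw [← hE] at a4
    have h11 : Real.exp (-((1 + 8 * δ) * RECD Q z')) *
        ((((U : ℝ) / z + 1) * (20 * (Real.log Q / Real.log z) / δ)) * mQ Q (wt Q c)) =
        (((U : ℝ) / z + 1) * (20 * (Real.exp (-((1 + 8 * δ) * RECD Q z')) *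
          (Real.log Q / Real.log z)) / δ)) * mQ Q (wt Q c) := by ring
    rw [h11]
    linarith
  have main : ∀ k z, Q - z = k → y ≤ z → z ≤ Q →
      Real.exp (-((1 + 8 * δ) * RECD Q z)) * A z ≤ A Q + (RECD Q z / δ + 1) * E * mQ Q (wt Q c) := by
    intro k
    induction k using Nat.strong_induction_on with
    | _ k ih =>
      intro z hk hyz hzQ
      by_cases hD : RECD Q z ≤ δ
      · have h1 := step z Q hyz hzQ le_rfl (by linarith)
        rw [RECD_self Q] at h1
        simp only [mul_zero, neg_zero, Real.exp_zero, one_mul] at h1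
        have h2 : 0 ≤ RECD Q z / δ * (E * mQ Q (wt Q c)) :=
          mul_nonneg (div_nonneg (RECD_nonneg Q z) hδ.le) hEB
        have h3 : (RECD Q z / δ + 1) * E * mQ Q (wt Q c) =
          RECD Q z / δ * (E * mQ Q (wt Q c)) + E * mQ Q (wt Q c) := by ring
        rw [h3]
        linarith
      · rw [not_le] at hD
        classical
        have hex : ∃ z', z ≤ z' ∧ δ < RECD z' z := ⟨Q, hzQ, hD⟩
        obtain ⟨z', hz', hmin⟩ : ∃ z', (z ≤ z' ∧ δ < RECD z' z) ∧ ∀ m < z', ¬ (z ≤ m ∧ δ < RECD m z) :=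
          ⟨Nat.find hex, Nat.find_spec hex, fun m hm => Nat.find_min hex hm⟩
        have hzQ' : z' ≤ Q := by
          by_contra hcon
          exact hmin Q (not_le.1 hcon) ⟨hzQ, hD⟩
        have hne : z ≠ z' := by
          rintro rfl
          have := hz'.2
          rw [RECD_self] at this
          linarith
        have hlt : z < z' := lt_of_le_of_ne hz'.1 hne
        obtain ⟨m, rfl⟩ : ∃ m, z' = m + 1 := ⟨z' - 1, by omega⟩
        have hm : RECD m z ≤ δ := by
          have := hmin m (by omega)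
          push Not at this
          exact this (by omega)
        have h2 : RECD (m + 1) z ≤ 2 * δ := by
          have h3 := RECD_succ z m
          have h4 : 1 / ((m : ℝ) + 1) ≤ 1 / (y : ℝ) := by
            apply one_div_le_one_div_of_le hy0
            exact_mod_cast (by omega : y ≤ m + 1)
          linarith
        have h3 := step z (m + 1) hyz hlt.le hzQ' h2
        have h4 := ih (Q - (m + 1)) (by omega) (m + 1) rfl (by omega) hzQ'
        have h5 := RECD_add hlt.le hzQ'
        have h10 : (RECD Q (m + 1) / δ + 2) * (E * mQ Q (wt Q c)) ≤ (RECD Q z / δ + 1) * (E * mQ Q (wt Q c)) := by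
          apply mul_le_mul_of_nonneg_right _ hEB
          rw [h5, add_div]
          have h11 : 1 ≤ RECD (m + 1) z / δ := by
            rw [le_div_iff₀ hδ]
            linarith [hz'.2]
          linarith
        have h12 : (RECD Q z / δ + 1) * E * mQ Q (wt Q c) = (RECD Q z / δ + 1) * (E * mQ Q (wt Q c)) := by ring
        have h13 : (RECD Q (m + 1) / δ + 1) * E * mQ Q (wt Q c) + E * mQ Q (wt Q c) =
          (RECD Q (m + 1) / δ + 2) * (E * mQ Q (wt Q c)) := by ring
        rw [h12]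
        linarith
  have h1 := main (Q - y) y rfl le_rfl hyQ
  rw [hA, hA, hE] at h1
  linarith

end Pool.Agent.H301.SX
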