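import Pool.Agent.H301.SX.Upper

/-! Integers free of the primes of the modulus and integers free of the primes up to a slightly larger limit. -/

set_option autoImplicit false

namespace Pool.Agent.H301.SX

open Finset Filter Topology
open Pool.Agent.Y829 (HS Sf mem_HS V V_insert avg_root)
open Pool.Agent.N422.LG (Sv VV RECD MERB2_L MERB2_sum)

/-- Mertens' sum over a short range of scales -/
lemma short (a : ℝ) (ha : 0 < a) (ha1 : a ≤ 1) : ∀ᶠ t : ℝ in atTop,
    ⌊t / 1000⌋₊ ≤ ⌈t ^ (1 + a)⌉₊ ∧ RECD ⌈t ^ (1 + a)⌉₊ ⌊t / 1000⌋₊ ≤ 4 * a := by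
  obtain ⟨M, hM⟩ := Pool.Agent.H305R2.mertens_inv_tendsto
  have h1 : ∀ᶠ N : ℕ in atTop, |MERB2_L N - Real.log (Real.log N) - M| ≤ a / 4 := by
    have h2 := (Metric.tendsto_nhds.1 hM (a / 4) (by positivity))
    filter_upwards [h2] with N hN
    rw [Real.dist_eq] at hN
    exact hN.le
  obtain ⟨N0, hN0⟩ := h1.exists_forall_of_atTop
  have hl : Tendsto Real.log atTop atTop := Real.tendsto_log_atTop
  filter_upwards [eventually_ge_atTop (2000 * ((N0 : ℝ) + 3)),
    hl.eventually_ge_atTop (2 * Real.log 2 / a), hl.eventually_ge_atTop (4 * Real.log 2000 / a)] with t ht1 ht2 ht3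
  have hN00 : (0 : ℝ) ≤ N0 := Nat.cast_nonneg _
  have ht0 : (0 : ℝ) < t := by linarith
  have ht1' : (1 : ℝ) ≤ t := by linarith
  have hpw : t ≤ t ^ (1 + a) := by
    calc t = t ^ (1 : ℝ) := (Real.rpow_one t).symm
      _ ≤ t ^ (1 + a) := Real.rpow_le_rpow_of_exponent_le ht1' (by linarith)
  set T := ⌊t / 1000⌋₊ with hT
  set y := ⌈t ^ (1 + a)⌉₊ with hy
  have hTt : (T : ℝ) ≤ t / 1000 := Nat.floor_le (by positivity)
  have hTt2 : t / 1000 < T + 1 := Nat.lt_floor_add_one _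
  have hyt : t ^ (1 + a) ≤ (y : ℝ) := Nat.le_ceil _
  have hyt2 : (y : ℝ) < t ^ (1 + a) + 1 := Nat.ceil_lt_add_one (Real.rpow_nonneg ht0.le _)
  have hTy : T ≤ y := by
    have : (T : ℝ) ≤ y := by linarith
    exact_mod_cast this
  refine ⟨hTy, ?_⟩
  have hTN : N0 ≤ T := by
    have : (N0 : ℝ) ≤ T := by linarith
    exact_mod_cast this
  have hT3 : (3 : ℝ) ≤ T := by linarith
  have e1 : RECD y T = MERB2_L y - MERB2_L T := by
    have := MERB2_sum hTy
    rw [← this]
    rfl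
  have b1 := abs_le.1 (hN0 T hTN)
  have b2 := abs_le.1 (hN0 y (hTN.trans hTy))
  have hlogt : 0 < Real.log t := Real.log_pos (by linarith)
  have hT2000 : t / 2000 ≤ T := by linarith
  have hlT : Real.log t - Real.log 2000 ≤ Real.log T := by
    rw [← Real.log_div ht0.ne' (by norm_num)]
    exact Real.log_le_log (by positivity) hT2000
  have hly : Real.log y ≤ Real.log 2 + (1 + a) * Real.log t := by
    have h3 : (y : ℝ) ≤ 2 * t ^ (1 + a) := by linarith
    calc Real.log y ≤ Real.log (2 * t ^ (1 + a)) := Real.log_le_log (by linarith) h3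
      _ = Real.log 2 + (1 + a) * Real.log t := by
        rw [Real.log_mul (by norm_num) (by positivity), Real.log_rpow ht0]
  have c1 : Real.log 2 ≤ a / 2 * Real.log t := by
    have := (div_le_iff₀ ha).1 ht2
    linarith
  have c2 : Real.log 2000 ≤ a / 4 * Real.log t := by
    have := (div_le_iff₀ ha).1 ht3
    linarith
  have d1 : (1 - a / 4) * Real.log t ≤ Real.log T := by linarith
  have d2 : Real.log y ≤ (1 + 3 * a / 2) * Real.log t := by linarith
  have hlT0 : 0 < Real.log T := Real.log_pos (by linarith)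
  have hly0 : 0 < Real.log y := hlT0.trans_le (Real.log_le_log (by linarith) (by exact_mod_cast hTy))
  have e2 : Real.log (Real.log y) - Real.log (Real.log T) ≤ 3 * a := by
    rw [← Real.log_div hly0.ne' hlT0.ne']
    have h4 := Real.log_le_sub_one_of_pos (div_pos hly0 hlT0)
    have h5 : Real.log y / Real.log T ≤ 1 + 3 * a := by
      rw [div_le_iff₀ hlT0]
      have h6 : (1 + 3 * a) * ((1 - a / 4) * Real.log t) ≤ (1 + 3 * a) * Real.log T :=
        mul_le_mul_of_nonneg_left d1 (by positivity)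
      have h7 : (1 + 3 * a / 2) * Real.log t ≤ (1 + 3 * a) * ((1 - a / 4) * Real.log t) := by
        rw [← mul_assoc]
        apply mul_le_mul_of_nonneg_right _ hlogt.le
        nlinarith
      linarith
    linarith
  rw [e1]
  linarith

/-- the upper bound sieve for the modulus -/
lemma upW (b : ℝ) (hb : 0 < b) (hb1 : b < 1) : ∃ C : ℝ, 0 < C ∧ ∀ᶠ t : ℝ in atTop, ∀ PW : Finset ℕ,
    (∀ p ∈ PW, p.Prime) →
    ∑ p ∈ (Icc 1 ⌊t / 1000⌋₊).filter (fun p => p.Prime ∧ p ∉ PW), 1 / (p : ℝ) ≤ 1 / 2 →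
    ∀ H : ℕ, t ^ (2 * b) ≤ H → ∀ n, Sf PW n H ≤ C * (H / Real.log t) := by
  classical
  obtain ⟨C, hC, z0, h⟩ := upP
  obtain ⟨K, hK, hM⟩ := Pool.Agent.N422.LG.t_MERB2
  refine ⟨4 * C * K / b, by positivity, ?_⟩
  have hl : Tendsto Real.log atTop atTop := Real.tendsto_log_atTop
  filter_upwards [(tendsto_rpow_atTop hb).eventually_ge_atTop ((z0 : ℝ) + 4), eventually_gt_atTop (1 : ℝ),
    hl.eventually_ge_atTop (2 * Real.log 2 / b), (tendsto_rpow_atTop (by linarith : 0 < 1 - b)).eventually_ge_atTop 1000]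
    with t ht1 ht2 ht3 ht4
  intro PW hPW hsum H hH n
  have hz00 : (0 : ℝ) ≤ z0 := Nat.cast_nonneg _
  have ht0 : (0 : ℝ) < t := by linarith
  have hlogt : 0 < Real.log t := Real.log_pos ht2
  have htb : 0 < t ^ b := Real.rpow_pos_of_pos ht0 _
  set z := ⌊t ^ b⌋₊ with hz
  have hzt : (z : ℝ) ≤ t ^ b := Nat.floor_le htb.le
  have hzt2 : t ^ b < z + 1 := Nat.lt_floor_add_one _
  have hz4 : (z0 : ℝ) + 3 ≤ z := by linarith
  have hzz0 : z0 ≤ z := by
    have : (z0 : ℝ) ≤ z := by linarith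
    exact_mod_cast this
  have hz2 : 2 ≤ z := by
    have : (2 : ℝ) ≤ z := by linarith
    exact_mod_cast this
  have hzT : z ≤ ⌊t / 1000⌋₊ := by
    apply Nat.floor_le_floor
    rw [le_div_iff₀ (by norm_num)]
    calc t ^ b * 1000 ≤ t ^ b * t ^ (1 - b) := mul_le_mul_of_nonneg_left ht4 htb.le
      _ = t ^ (1 : ℝ) := by rw [← Real.rpow_add ht0]; congr 1; ring
      _ = t := Real.rpow_one t
  have hzH : (z : ℝ) ^ (2 : ℝ) ≤ H := by
    calc (z : ℝ) ^ (2 : ℝ) ≤ (t ^ b) ^ (2 : ℝ) := Real.rpow_le_rpow (Nat.cast_nonneg _) hzt (by norm_num)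
      _ = t ^ (2 * b) := by rw [← Real.rpow_mul ht0.le]; congr 1; ring
      _ ≤ H := hH
  set P := PW.filter (fun p => p ≤ z) with hP
  have hPp : ∀ p ∈ P, p.Prime ∧ p ≤ z := by
    intro p hp
    rw [hP, mem_filter] at hp
    exact ⟨hPW p hp.1, hp.2⟩
  have h1 := h z hzz0 P hPp H hzH n
  have h2 : Sf PW n H ≤ Sf P n H := Sf_mono (filter_subset _ _) n H
  set R := ((Icc 1 z).filter Nat.Prime) \ P with hR
  have hRp : ∀ p ∈ R, p.Prime := by
    intro q hq
    rw [hR, Finset.mem_sdiff, mem_filter] at hq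
    exact hq.1.2
  have hRs : ∑ p ∈ R, 1 / (p : ℝ) ≤ 1 / 2 := by
    refine le_trans (sum_le_sum_of_subset_of_nonneg ?_ (fun p _ _ => by positivity)) hsum
    intro p hp
    rw [hR, Finset.mem_sdiff, hP, mem_filter, mem_filter, mem_Icc] at hp
    rw [mem_filter, mem_Icc]
    refine ⟨⟨hp.1.1.1, hp.1.1.2.trans hzT⟩, hp.1.2, fun hc => hp.2 ⟨hc, hp.1.1.2⟩⟩
  have hVR := V_ge R hRp
  have hVP0 := V_pos P (fun p hp => (hPp p hp).1)
  have hmul : V P * V R = VV z := by
    rw [VV_eq]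
    unfold V
    rw [hR, mul_comm]
    apply prod_sdiff
    intro p hp
    rw [mem_filter, mem_Icc]
    exact ⟨⟨(hPp p hp).1.pos, (hPp p hp).2⟩, (hPp p hp).1⟩
  have hVP : V P ≤ 2 * VV z := by
    rw [← hmul]
    nlinarith
  have hVV := (hM z z hz2 le_rfl).2.2.2
  have hlz : b / 2 * Real.log t ≤ Real.log z := by
    have h3 : t ^ b / 2 ≤ z := by linarith
    have h4 : Real.log (t ^ b / 2) ≤ Real.log z := Real.log_le_log (by positivity) h3
    rw [Real.log_div htb.ne' (by norm_num), Real.log_rpow ht0] at h4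
    have h5 := (div_le_iff₀ hb).1 ht3
    linarith
  have hlz0 : 0 < b / 2 * Real.log t := by positivity
  have hVV2 : VV z ≤ K / (b / 2 * Real.log t) :=
    hVV.trans (div_le_div_of_nonneg_left (by linarith) hlz0 hlz)
  have hH0 : (0 : ℝ) ≤ H := Nat.cast_nonneg _
  calc Sf PW n H ≤ C * H * V P := h2.trans h1
    _ ≤ C * H * (2 * (K / (b / 2 * Real.log t))) := by
        apply mul_le_mul_of_nonneg_left _ (by positivity)
        linarith
    _ = 4 * C * K / b * (H / Real.log t) := by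
        field_simp
        norm_num

/-- the survivors divisible by `p` -/
lemma card_dvd (PW : Finset ℕ) (p U n : ℕ) (hp : 0 < p) :
    (((HS PW n U).filter (fun h => p ∣ n + h)).card : ℝ) ≤ Sf PW (n / p) (U / p + 1) := by
  classical
  unfold Sf
  rw [Nat.cast_le]
  apply card_le_card_of_injOn (fun h => (n + h) / p - n / p)
  · intro h hh
    rw [mem_coe, mem_filter, mem_HS] at hh
    rw [mem_coe, mem_HS]
    obtain ⟨⟨⟨h1, h2⟩, h3⟩, m, hm⟩ := hh
    have e1 : (n + h) / p = m := by rw [hm]; exact Nat.mul_div_cancel_left m hp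
    have e2 : n / p < m := by
      rw [Nat.div_lt_iff_lt_mul hp, mul_comm]
      omega
    have e3 : m ≤ n / p + (U / p + 1) := by
      by_contra hcon
      push Not at hcon
      have h4 := Nat.div_add_mod n p
      have h5 := Nat.div_add_mod U p
      have h6 := Nat.mod_lt n hp
      have h7 := Nat.mod_lt U hp
      have h8 : p * (n / p + (U / p + 1) + 1) ≤ p * m := Nat.mul_le_mul_left p hcon
      have h9 : p * (n / p + (U / p + 1) + 1) = p * (n / p) + p * (U / p) + p + p := by ring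
      omega
    dsimp only
    rw [e1]
    refine ⟨⟨by omega, by omega⟩, fun q hq hqm => h3 q hq ?_⟩
    have e4 : n / p + (m - n / p) = m := by omega
    rw [e4] at hqm
    rw [hm]
    exact hqm.mul_left p
  · intro h hh k hk hhk
    rw [mem_coe, mem_filter, mem_HS] at hh hk
    obtain ⟨⟨⟨h1, h2⟩, h3⟩, m, hm⟩ := hh
    obtain ⟨⟨⟨k1, k2⟩, k3⟩, l, hl⟩ := hk
    dsimp only at hhk
    have e1 : (n + h) / p = m := by rw [hm]; exact Nat.mul_div_cancel_left m hp
    have e1' : (n + k) / p = l := by rw [hl]; exact Nat.mul_div_cancel_left l hp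
    have e2 : n / p < m := by
      rw [Nat.div_lt_iff_lt_mul hp, mul_comm]
      omega
    have e2' : n / p < l := by
      rw [Nat.div_lt_iff_lt_mul hp, mul_comm]
      omega
    rw [e1, e1'] at hhk
    have : m = l := by omega
    subst this
    omega

/-- the integers free of the primes of the modulus, compared with those free of the primes up to `t^(1+a)` -/
theorem sand (A : ℝ) (hA : 1 < A) (hA2 : A ≤ 2) : ∃ C : ℝ, 0 < C ∧ ∀ a : ℝ, 0 < a → a ≤ (A - 1) / 4 →
    ∀ᶠ t : ℝ in atTop, ∀ U : ℕ, t ^ A ≤ U → ∀ PW : Finset ℕ, (∀ p ∈ PW, p.Prime ∧ (p : ℝ) ≤ t) → ∀ σ : ℝ, σ ≤ 1 / 2 →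
    ∑ p ∈ (Icc 1 ⌊t / 1000⌋₊).filter (fun p => p.Prime ∧ p ∉ PW), 1 / (p : ℝ) ≤ σ →
    ∑ p ∈ (Icc 1 ⌈t ^ (1 + a)⌉₊).filter (fun p => p.Prime ∧ p ∉ PW), 1 / (p : ℝ) ≤ σ + 4 * a ∧ ∀ n,
      ((Sv U ⌈t ^ (1 + a)⌉₊ n).card : ℝ) ≤ Sf PW n U ∧
      Sf PW n U ≤ (Sv U ⌈t ^ (1 + a)⌉₊ n).card + C * (σ + 4 * a) * (U / Real.log t) ∧
      Sf PW n U ≤ C * (U / Real.log t) := by
  classical
  set b : ℝ := (A - 1) / 4 with hb
  have hb0 : 0 < b := by rw [hb]; linarith
  have hb1 : b < 1 := by rw [hb]; linarith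
  obtain ⟨C, hC, hup⟩ := upW b hb0 hb1
  refine ⟨2 * C, by positivity, fun a ha hab => ?_⟩
  have hA' : (0 : ℝ) < A - (1 + a) - 2 * b := by
    rw [hb] at hab ⊢
    linarith
  filter_upwards [hup, short a ha (by linarith), eventually_gt_atTop (1 : ℝ),
    (tendsto_rpow_atTop hA').eventually_ge_atTop 2] with t ht1 ht2 ht3 ht4
  intro U hU PW hPW σ hσ hsum
  have ht0 : (0 : ℝ) < t := by linarith
  have hlogt : 0 < Real.log t := Real.log_pos ht3
  set T := ⌊t / 1000⌋₊ with hT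
  set y := ⌈t ^ (1 + a)⌉₊ with hy
  have hpw1 : 1 ≤ t ^ (1 + a) := Real.one_le_rpow ht3.le (by linarith)
  have hyt2 : (y : ℝ) ≤ 2 * t ^ (1 + a) := by
    have : (y : ℝ) < t ^ (1 + a) + 1 := Nat.ceil_lt_add_one (by linarith)
    linarith
  have hyt : t ^ (1 + a) ≤ (y : ℝ) := Nat.le_ceil _
  have hPWy : ∀ p ∈ PW, p ≤ y := by
    intro p hp
    have h1 : (p : ℝ) ≤ y := by
      have h2 : t ≤ t ^ (1 + a) := by
        calc t = t ^ (1 : ℝ) := (Real.rpow_one t).symm
          _ ≤ t ^ (1 + a) := Real.rpow_le_rpow_of_exponent_le ht3.le (by linarith)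
      linarith [(hPW p hp).2]
    exact_mod_cast h1
  set My := (Icc 1 y).filter (fun p => p.Prime ∧ p ∉ PW) with hMy
  have hMsum : ∑ p ∈ My, 1 / (p : ℝ) ≤ σ + 4 * a := by
    have h1 : My ⊆ (Icc 1 T).filter (fun p => p.Prime ∧ p ∉ PW) ∪
        (Icc 1 y).filter (fun p : ℕ => p.Prime ∧ T < p) := by
      intro p hp
      rw [hMy, mem_filter, mem_Icc] at hp
      rw [mem_union, mem_filter, mem_filter, mem_Icc, mem_Icc]
      by_cases h : p ≤ T
      · exact Or.inl ⟨⟨hp.1.1, h⟩, hp.2⟩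
      · exact Or.inr ⟨hp.1, hp.2.1, not_le.1 h⟩
    have h2 := sum_le_sum_of_subset_of_nonneg h1 (f := fun p : ℕ => 1 / (p : ℝ)) (fun p _ _ => by positivity)
    have h3 := sum_union_inter (s₁ := (Icc 1 T).filter (fun p => p.Prime ∧ p ∉ PW))
      (s₂ := (Icc 1 y).filter (fun p : ℕ => p.Prime ∧ T < p)) (f := fun p : ℕ => 1 / (p : ℝ))
    have h4 : 0 ≤ ∑ p ∈ (Icc 1 T).filter (fun p => p.Prime ∧ p ∉ PW) ∩
        (Icc 1 y).filter (fun p : ℕ => p.Prime ∧ T < p), 1 / (p : ℝ) := sum_nonneg fun p _ => by positivity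
    have h5 := ht2.2
    unfold RECD at h5
    linarith
  refine ⟨hMsum, fun n => ?_⟩
  have hU0 : (0 : ℝ) ≤ U := Nat.cast_nonneg _
  have htA : 0 < t ^ A := Real.rpow_pos_of_pos ht0 _
  have hUb : t ^ (2 * b) ≤ U := by
    refine le_trans (Real.rpow_le_rpow_of_exponent_le ht3.le ?_) hU
    linarith
  have htot : Sf PW n U ≤ C * (U / Real.log t) :=
    ht1 PW (fun p hp => (hPW p hp).1) (hsum.trans hσ) U hUb n
  have hUl : 0 ≤ U / Real.log t := by positivity
  refine ⟨?_, ?_, ?_⟩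
  · rw [Sv_eq]
    apply Sf_mono
    intro p hp
    rw [mem_filter, mem_Icc]
    exact ⟨⟨(hPW p hp).1.pos, hPWy p hp⟩, (hPW p hp).1⟩
  · have h1 : HS PW n U ⊆ Sv U y n ∪ My.biUnion (fun p => (HS PW n U).filter (fun h => p ∣ n + h)) := by
      intro h hh
      by_cases hc : h ∈ Sv U y n
      · exact mem_union_left _ hc
      · apply mem_union_right
        rw [Sv_eq, mem_HS] at hc
        rw [mem_HS] at hh
        push Not at hc
        obtain ⟨p, hp1, hp2⟩ := hc hh.1
        rw [mem_filter] at hp1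
        rw [mem_biUnion]
        refine ⟨p, ?_, ?_⟩
        · rw [hMy, mem_filter]
          exact ⟨hp1.1, hp1.2, fun hc2 => hh.2 p hc2 hp2⟩
        · rw [mem_filter, mem_HS]
          exact ⟨hh, hp2⟩
    have h2 := (card_le_card h1).trans ((card_union_le _ _).trans (Nat.add_le_add_left card_biUnion_le _))
    have h3 : (Sf PW n U) ≤ (Sv U y n).card + ∑ p ∈ My, (((HS PW n U).filter (fun h => p ∣ n + h)).card : ℝ) := by
      unfold Sf
      exact_mod_cast h2
    have h4 : ∀ p ∈ My, (((HS PW n U).filter (fun h => p ∣ n + h)).card : ℝ) ≤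
        2 * C * (U / Real.log t) * (1 / (p : ℝ)) := by
      intro p hp
      rw [hMy, mem_filter, mem_Icc] at hp
      have hp0 : 0 < p := hp.1.1
      have hp0r : (0 : ℝ) < p := by exact_mod_cast hp0
      have hpy : (p : ℝ) ≤ 2 * t ^ (1 + a) := le_trans (by exact_mod_cast hp.1.2) hyt2
      have hpU : (p : ℝ) * t ^ (2 * b) ≤ U := by
        refine le_trans ?_ hU
        have h5 : t ^ A = t ^ (A - (1 + a) - 2 * b) * (t ^ (1 + a) * t ^ (2 * b)) := by
          rw [← Real.rpow_add ht0, ← Real.rpow_add ht0]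
          congr 1
          ring
        have h6 : 0 ≤ t ^ (1 + a) * t ^ (2 * b) := by positivity
        have h7 : (p : ℝ) * t ^ (2 * b) ≤ 2 * t ^ (1 + a) * t ^ (2 * b) :=
          mul_le_mul_of_nonneg_right hpy (by positivity)
        rw [h5]
        nlinarith
      have hpU2 : (p : ℝ) ≤ U := by
        have h5 : 1 ≤ t ^ (2 * b) := Real.one_le_rpow ht3.le (by positivity)
        nlinarith
      have hdiv : ((U / p : ℕ) : ℝ) ≤ U / p := Nat.cast_div_le
      have hdiv2 : (U : ℝ) / p < ((U / p : ℕ) : ℝ) + 1 := by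
        rw [div_lt_iff₀ hp0r]
        have := Nat.lt_mul_div_succ U hp0
        have h6 : ((U : ℕ) : ℝ) < ((p * (U / p + 1) : ℕ) : ℝ) := by exact_mod_cast this
        push_cast at h6
        linarith
      refine (card_dvd PW p U n hp0).trans ?_
      have h5 := ht1 PW (fun p hp => (hPW p hp).1) (hsum.trans hσ) (U / p + 1) (by
        push_cast
        have h6 : t ^ (2 * b) ≤ U / p := by
          rw [le_div_iff₀ hp0r]
          linarith
        linarith) (n / p)
      refine h5.trans ?_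
      push_cast
      have h6 : ((U / p : ℕ) : ℝ) + 1 ≤ 2 * (U / p) := by
        have : (1 : ℝ) ≤ U / p := by
          rw [le_div_iff₀ hp0r]
          linarith
        linarith
      calc C * ((((U / p : ℕ) : ℝ) + 1) / Real.log t) ≤ C * ((2 * (U / p)) / Real.log t) :=
            mul_le_mul_of_nonneg_left (div_le_div_of_nonneg_right h6 hlogt.le) hC.le
        _ = 2 * C * (U / Real.log t) * (1 / (p : ℝ)) := by ring
    have h5 := sum_le_sum h4
    rw [← mul_sum] at h5
    have h6 : 2 * C * (U / Real.log t) * ∑ p ∈ My, 1 / (p : ℝ) ≤ 2 * C * (U / Real.log t) * (σ + 4 * a) :=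
      mul_le_mul_of_nonneg_left hMsum (by positivity)
    linarith
  · linarith [mul_nonneg hC.le hUl]

end Pool.Agent.H301.SX
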