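import Pool.Agent.H301.SX.Big

/-! Short windows: integers free of the primes of the modulus and integers free of the primes up to `C t`. -/

set_option autoImplicit false

namespace Pool.Agent.H301.SX

open Finset Filter Topology
open Pool.Agent.Y829 (HS Sf mem_HS V V_insert)
open Pool.Agent.N422.SL (wt)
open Pool.Agent.N422.LG

/-- the reciprocals of the primes between two multiples of `t` -/
lemma shortC (C : ℝ) (hC : 1 ≤ C) : ∀ᶠ t : ℝ in atTop,
    ∑ p ∈ (Icc 1 ⌈C * t⌉₊).filter (fun p => p.Prime ∧ ⌊t / 1000⌋₊ < p), 1 / (p : ℝ) ≤ 4000 * C / Real.log t := by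
  have h1 : ∀ᶠ x : ℕ in atTop, H343E.pi1 x * Real.log x / x ≤ 2 := by
    have := Pool.Agent.Y829.RP.pi_tend.eventually_lt_const (show (1 : ℝ) < 2 by norm_num)
    filter_upwards [this] with x hx
    exact hx.le
  have h2 : Tendsto (fun t : ℝ => ⌈C * t⌉₊) atTop atTop :=
    tendsto_nat_ceil_atTop.comp (tendsto_id.const_mul_atTop (by linarith : (0 : ℝ) < C))
  filter_upwards [h2.eventually h1, eventually_ge_atTop (3 : ℝ)] with t ht1 ht2
  have ht0 : 0 < t := by linarith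
  have hL0 : 0 < Real.log t := Real.log_pos (by linarith)
  set y := ⌈C * t⌉₊ with hy
  have hyt : C * t ≤ (y : ℝ) := Nat.le_ceil _
  have hyt2 : (y : ℝ) < C * t + 1 := Nat.ceil_lt_add_one (by positivity)
  have hCt : t ≤ C * t := ay7 hC ht0
  have hy0 : (0 : ℝ) < y := by linarith
  have hly : Real.log t ≤ Real.log y := Real.log_le_log ht0 (by linarith)
  have hcard : (((Icc 1 y).filter (fun p => p.Prime ∧ ⌊t / 1000⌋₊ < p)).card : ℝ) ≤ 4 * C * t / Real.log t := by
    have e1 : (((Icc 1 y).filter (fun p => p.Prime ∧ ⌊t / 1000⌋₊ < p)).card : ℝ) ≤ H343E.pi1 y := by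
      unfold H343E.pi1
      rw [Nat.cast_le]
      apply card_le_card
      intro p hp
      rw [mem_filter] at hp ⊢
      exact ⟨hp.1, hp.2.1⟩
    refine e1.trans ?_
    rw [div_le_iff₀ hy0] at ht1
    rw [le_div_iff₀ hL0]
    have e2 : 0 ≤ H343E.pi1 y := Nat.cast_nonneg _
    calc H343E.pi1 y * Real.log t ≤ H343E.pi1 y * Real.log y := mul_le_mul_of_nonneg_left hly e2
      _ ≤ 2 * y := ht1
      _ ≤ 4 * C * t := by linarith
  have hterm : ∀ p ∈ (Icc 1 y).filter (fun p => p.Prime ∧ ⌊t / 1000⌋₊ < p), 1 / (p : ℝ) ≤ 1000 / t := by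
    intro p hp
    rw [mem_filter] at hp
    have e1 : t / 1000 < p := by
      have e2 : t / 1000 < ⌊t / 1000⌋₊ + 1 := Nat.lt_floor_add_one _
      have e3 : ((⌊t / 1000⌋₊ + 1 : ℕ) : ℝ) ≤ p := by exact_mod_cast hp.2.2
      push_cast at e3
      linarith
    have e4 : (0 : ℝ) < p := by
      have : 0 < t / 1000 := by positivity
      linarith
    rw [div_le_div_iff₀ e4 ht0]
    linarith
  calc ∑ p ∈ (Icc 1 y).filter (fun p => p.Prime ∧ ⌊t / 1000⌋₊ < p), 1 / (p : ℝ) ≤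
        ∑ p ∈ (Icc 1 y).filter (fun p => p.Prime ∧ ⌊t / 1000⌋₊ < p), 1000 / t := sum_le_sum hterm
    _ = (((Icc 1 y).filter (fun p => p.Prime ∧ ⌊t / 1000⌋₊ < p)).card : ℝ) * (1000 / t) := by
        rw [sum_const, nsmul_eq_mul]
    _ ≤ 4 * C * t / Real.log t * (1000 / t) := mul_le_mul_of_nonneg_right hcard (by positivity)
    _ = 4000 * C / Real.log t := by
        field_simp
        norm_num

lemma Sf_le (P : Finset ℕ) (n U : ℕ) : Sf P n U ≤ U := by
  unfold Sf HS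
  have h := card_filter_le (Icc 1 U) (fun h => ∀ p ∈ P, ¬ p ∣ n + h)
  rw [Nat.card_Icc, Nat.add_sub_cancel] at h
  exact_mod_cast h

/-- short windows -/
theorem sand2 (C : ℝ) (hC : 1 ≤ C) (η : ℝ) (hη : 0 < η) : ∃ σ : ℝ, 0 < σ ∧ ∀ᶠ t : ℝ in atTop, ∀ U : ℕ,
    t * Real.log t ≤ U → ∀ PW : Finset ℕ, (∀ p ∈ PW, p.Prime ∧ (p : ℝ) ≤ t) →
    ∑ p ∈ (Icc 1 ⌊t / 1000⌋₊).filter (fun p => p.Prime ∧ p ∉ PW), 1 / (p : ℝ) ≤ σ →
    ∑ p ∈ (Icc 1 ⌊t / 1000⌋₊).filter (fun p => p.Prime ∧ p ∉ PW ∧ t ^ (1 / 2 : ℝ) < p), 1 / (p : ℝ) ≤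
      σ / Real.log t → ∀ n,
      ((Sv U ⌈C * t⌉₊ n).card : ℝ) ≤ Sf PW n U ∧ Sf PW n U ≤ (Sv U ⌈C * t⌉₊ n).card + η * (U / Real.log t) := by
  classical
  obtain ⟨C2, hC2, hup⟩ := upW (1 / 4) (by norm_num) (by norm_num)
  set σ : ℝ := min (1 / 2) (η / (6 * (C2 + 1))) with hσ
  have hσ0 : 0 < σ := lt_min (by norm_num) (by positivity)
  have hσ1 : σ ≤ 1 / 2 := min_le_left _ _
  have hσ2 : 2 * (C2 + 1) * σ ≤ η / 3 := by
    have h1 : σ ≤ η / (6 * (C2 + 1)) := min_le_right _ _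
    calc 2 * (C2 + 1) * σ ≤ 2 * (C2 + 1) * (η / (6 * (C2 + 1))) := mul_le_mul_of_nonneg_left h1 (by positivity)
      _ = η / 3 := by
        field_simp
        norm_num
  refine ⟨σ, hσ0, ?_⟩
  have hl : Tendsto Real.log atTop atTop := Real.tendsto_log_atTop
  filter_upwards [hup, hl.eventually hup, shortC C hC, eventually_ge_atTop (4 : ℝ),
    hl.eventually_ge_atTop (max 1 (16 * C ^ 2)), (hl.comp hl).eventually_ge_atTop (max 1 (24000 * C2 * C / η))]
    with t ht1 ht1' ht2 ht3 ht4 ht5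
  intro U hU PW hPW hsum hsum2
  have ht0 : (0 : ℝ) < t := by linarith
  set L := Real.log t with hL
  have hL1 : 1 ≤ L := (le_max_left _ _).trans ht4
  have hLC : 16 * C ^ 2 ≤ L := (le_max_right _ _).trans ht4
  have hL0 : 0 < L := by linarith
  have ht5' : max 1 (24000 * C2 * C / η) ≤ Real.log L := ht5
  set LL := Real.log L with hLL
  have hLL1 : 1 ≤ LL := (le_max_left _ _).trans ht5'
  have hLLC : 24000 * C2 * C / η ≤ LL := (le_max_right _ _).trans ht5'
  have hLL0 : 0 < LL := by linarith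
  set T := ⌊t / 1000⌋₊ with hT
  set y := ⌈C * t⌉₊ with hy
  have hyt : C * t ≤ (y : ℝ) := Nat.le_ceil _
  have hyt2 : (y : ℝ) < C * t + 1 := Nat.ceil_lt_add_one (by positivity)
  have hCt : t ≤ C * t := ay7 hC ht0
  have hy2C : (y : ℝ) ≤ 2 * C * t := by linarith
  have hPWy : ∀ p ∈ PW, p ≤ y := by
    intro p hp
    have h1 : (p : ℝ) ≤ y := by linarith [(hPW p hp).2]
    exact_mod_cast h1
  have hsq : t ^ (1 / 2 : ℝ) * t ^ (1 / 2 : ℝ) = t := by
    rw [← Real.rpow_add ht0]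
    norm_num
  have hsq0 : 0 < t ^ (1 / 2 : ℝ) := Real.rpow_pos_of_pos ht0 _
  have hLt : L ≤ t := (Real.log_le_sub_one_of_pos ht0).trans (by linarith)
  have hsumL : ∑ p ∈ (Icc 1 ⌊L / 1000⌋₊).filter (fun p => p.Prime ∧ p ∉ PW), 1 / (p : ℝ) ≤ 1 / 2 := by
    refine le_trans (sum_le_sum_of_subset_of_nonneg ?_ (fun p _ _ => by positivity)) (hsum.trans hσ1)
    intro p hp
    rw [mem_filter, mem_Icc] at hp ⊢
    refine ⟨⟨hp.1.1, hp.1.2.trans ?_⟩, hp.2⟩
    exact Nat.floor_le_floor (div_le_div_of_nonneg_right hLt (by norm_num))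
  have hUr : (0 : ℝ) ≤ U := Nat.cast_nonneg _
  have hUt : t ≤ U := ay9 ht0 hL1 hU
  intro n
  refine ⟨?_, ?_⟩
  · rw [Sv_eq]
    apply Sf_mono
    intro p hp
    rw [mem_filter, mem_Icc]
    exact ⟨⟨(hPW p hp).1.pos, hPWy p hp⟩, (hPW p hp).1⟩
  set My := (Icc 1 y).filter (fun p => p.Prime ∧ p ∉ PW) with hMy
  have h1 : HS PW n U ⊆ Sv U y n ∪ My.biUnion (fun p => (HS PW n U).filter (fun h => p ∣ n + h)) := by
    intro h hh
    by_cases hc : h ∈ Sv U y n
    · exact mem_union_left _ hc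
    · apply mem_union_right
      rw [Sv_eq, mem_HS] at hc
      rw [mem_HS] at hh
      push Not at hc
      obtain ⟨p, hp1, hp2⟩ := hc hh.1
      rw [mem_filter] at hp1
      rw [mem_biUnion]
      refine ⟨p, ?_, ?_⟩
      · rw [hMy, mem_filter]
        exact ⟨hp1.1, hp1.2, fun hc2 => hh.2 p hc2 hp2⟩
      · rw [mem_filter, mem_HS]
        exact ⟨hh, hp2⟩
  have h2 := (card_le_card h1).trans ((card_union_le _ _).trans (Nat.add_le_add_left card_biUnion_le _))
  have h3 : (Sf PW n U) ≤ (Sv U y n).card + ∑ p ∈ My, (((HS PW n U).filter (fun h => p ∣ n + h)).card : ℝ) := by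
    unfold Sf
    exact_mod_cast h2
  set g1 : ℕ → ℝ := fun p => if p ≤ T then 2 * C2 * (U / L) * (1 / (p : ℝ)) else 0 with hg1
  set g2 : ℕ → ℝ := fun p => if p ≤ T ∧ t ^ (1 / 2 : ℝ) < p then 2 * U * (1 / (p : ℝ)) else 0 with hg2
  set g3 : ℕ → ℝ := fun p => if T < p then 2 * C2 * (U / LL) * (1 / (p : ℝ)) else 0 with hg3
  have hg10 : ∀ p, 0 ≤ g1 p := fun p => by
    rw [hg1]
    dsimp only
    split_ifs <;> positivity
  have hg20 : ∀ p, 0 ≤ g2 p := fun p => by
    rw [hg2]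
    dsimp only
    split_ifs <;> positivity
  have hg30 : ∀ p, 0 ≤ g3 p := fun p => by
    rw [hg3]
    dsimp only
    split_ifs <;> positivity
  have h4 : ∀ p ∈ My, (((HS PW n U).filter (fun h => p ∣ n + h)).card : ℝ) ≤ g1 p + g2 p + g3 p := by
    intro p hp
    rw [hMy, mem_filter, mem_Icc] at hp
    have hp0 : 0 < p := hp.1.1
    have hp0r : (0 : ℝ) < p := by exact_mod_cast hp0
    have hpy : (p : ℝ) ≤ 2 * C * t := le_trans (by exact_mod_cast hp.1.2) hy2C
    have hdiv : ((U / p : ℕ) : ℝ) ≤ U / p := Nat.cast_div_le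
    have hdiv2 : (U : ℝ) / p < ((U / p : ℕ) : ℝ) + 1 := by
      rw [div_lt_iff₀ hp0r]
      have := Nat.lt_mul_div_succ U hp0
      have h6 : ((U : ℕ) : ℝ) < ((p * (U / p + 1) : ℕ) : ℝ) := by exact_mod_cast this
      push_cast at h6
      linarith
    have hA := card_dvd PW p U n hp0
    have hpU : (p : ℝ) ≤ U := by
      have b1 : 2 * C * t ≤ t * L := by
        exact ay14 ht0 (ay13 hC hLC)
      linarith
    have h1U : (1 : ℝ) ≤ U / p := by
      rw [le_div_iff₀ hp0r]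
      linarith
    have h6 : ((U / p : ℕ) : ℝ) + 1 ≤ 2 * (U / p) := by linarith
    rcases le_or_gt p T with hpT | hpT
    · rcases le_or_gt (p : ℝ) (t ^ (1 / 2 : ℝ)) with hps | hps
      · -- small missing primes
        have b1 : ((U / p + 1 : ℕ) : ℝ) = ((U / p : ℕ) : ℝ) + 1 := by push_cast; ring
        have b2 := ht1 PW (fun p hp => (hPW p hp).1) (hsum.trans hσ1) (U / p + 1) (by
          rw [b1]
          have b3 : t ^ (2 * (1 / 4) : ℝ) = t ^ (1 / 2 : ℝ) := by norm_num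
          rw [b3]
          have b4 : t ^ (1 / 2 : ℝ) ≤ U / p := by
            rw [le_div_iff₀ hp0r]
            calc t ^ (1 / 2 : ℝ) * p ≤ t ^ (1 / 2 : ℝ) * t ^ (1 / 2 : ℝ) := mul_le_mul_of_nonneg_left hps hsq0.le
              _ = t := hsq
              _ ≤ U := hUt
          linarith) (n / p)
        have b5 : g1 p = 2 * C2 * (U / L) * (1 / (p : ℝ)) := by
          rw [hg1]
          exact if_pos hpT
        have b6 : C2 * (((U / p + 1 : ℕ) : ℝ) / L) ≤ g1 p := by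
          rw [b1, b5]
          calc C2 * ((((U / p : ℕ) : ℝ) + 1) / L) ≤ C2 * ((2 * (U / p)) / L) :=
                mul_le_mul_of_nonneg_left (div_le_div_of_nonneg_right h6 hL0.le) hC2.le
            _ = 2 * C2 * (U / L) * (1 / (p : ℝ)) := by ring
        linarith [hg20 p, hg30 p]
      · -- large missing primes
        have b1 : g2 p = 2 * U * (1 / (p : ℝ)) := by
          rw [hg2]
          exact if_pos ⟨hpT, hps⟩
        have b2 := Sf_le PW (n / p) (U / p + 1)
        push_cast at b2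
        have b3 : 2 * U * (1 / (p : ℝ)) = 2 * (U / p) := by ring
        linarith [hg10 p, hg30 p]
    · -- primes above the modulus
      have b1 : ((U / p + 1 : ℕ) : ℝ) = ((U / p : ℕ) : ℝ) + 1 := by push_cast; ring
      have b2 := ht1' PW (fun p hp => (hPW p hp).1) hsumL (U / p + 1) (by
        rw [b1]
        have b3 : L ^ (2 * (1 / 4) : ℝ) = L ^ (1 / 2 : ℝ) := by norm_num
        rw [b3]
        have b4 : L / (2 * C) ≤ U / p := by
          rw [div_le_div_iff₀ (by linarith) hp0r]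
          calc L * p ≤ L * (2 * C * t) := mul_le_mul_of_nonneg_left hpy hL0.le
            _ = (t * L) * (2 * C) := by ring
            _ ≤ U * (2 * C) := mul_le_mul_of_nonneg_right hU (by linarith)
        have b5 : L ^ (1 / 2 : ℝ) * L ^ (1 / 2 : ℝ) = L := by
          rw [← Real.rpow_add hL0]
          norm_num
        have b6 : 2 * C ≤ L ^ (1 / 2 : ℝ) := by
          have b7 : (0 : ℝ) < L ^ (1 / 2 : ℝ) := Real.rpow_pos_of_pos hL0 _
          by_contra hcon
          push Not at hcon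
          have : L < (2 * C) * (2 * C) := by
            calc L = L ^ (1 / 2 : ℝ) * L ^ (1 / 2 : ℝ) := b5.symm
              _ < (2 * C) * (2 * C) := mul_lt_mul'' hcon hcon b7.le b7.le
          exact ay15 hL0 hLC this
        have b8 : L ^ (1 / 2 : ℝ) ≤ L / (2 * C) := by
          rw [le_div_iff₀ (by linarith)]
          calc L ^ (1 / 2 : ℝ) * (2 * C) ≤ L ^ (1 / 2 : ℝ) * L ^ (1 / 2 : ℝ) :=
                mul_le_mul_of_nonneg_left b6 (Real.rpow_pos_of_pos hL0 _).le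
            _ = L := b5
        linarith) (n / p)
      have b5 : g3 p = 2 * C2 * (U / LL) * (1 / (p : ℝ)) := by
        rw [hg3]
        exact if_pos hpT
      have b6 : C2 * (((U / p + 1 : ℕ) : ℝ) / LL) ≤ g3 p := by
        rw [b1, b5]
        calc C2 * ((((U / p : ℕ) : ℝ) + 1) / LL) ≤ C2 * ((2 * (U / p)) / LL) :=
              mul_le_mul_of_nonneg_left (div_le_div_of_nonneg_right h6 hLL0.le) hC2.le
          _ = 2 * C2 * (U / LL) * (1 / (p : ℝ)) := by ring
      linarith [hg10 p, hg20 p]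
  have h5 := sum_le_sum h4
  rw [sum_add_distrib, sum_add_distrib] at h5
  have s1 : ∑ p ∈ My, g1 p ≤ 2 * C2 * σ * (U / L) := by
    rw [hg1, ← sum_filter, ← mul_sum]
    have b1 : ∑ p ∈ My.filter (fun p => p ≤ T), 1 / (p : ℝ) ≤ σ := by
      refine le_trans (sum_le_sum_of_subset_of_nonneg ?_ (fun p _ _ => by positivity)) hsum
      intro p hp
      rw [mem_filter, hMy, mem_filter, mem_Icc] at hp
      rw [mem_filter, mem_Icc]
      exact ⟨⟨hp.1.1.1, hp.2⟩, hp.1.2⟩
    calc 2 * C2 * (U / L) * ∑ p ∈ My.filter (fun p => p ≤ T), 1 / (p : ℝ) ≤ 2 * C2 * (U / L) * σ :=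
          mul_le_mul_of_nonneg_left b1 (by positivity)
      _ = _ := by ring
  have s2 : ∑ p ∈ My, g2 p ≤ 2 * σ * (U / L) := by
    rw [hg2, ← sum_filter, ← mul_sum]
    have b1 : ∑ p ∈ My.filter (fun p : ℕ => p ≤ T ∧ t ^ (1 / 2 : ℝ) < (p : ℝ)), 1 / (p : ℝ) ≤ σ / L := by
      refine le_trans (sum_le_sum_of_subset_of_nonneg ?_ (fun p _ _ => by positivity)) hsum2
      intro p hp
      rw [mem_filter, hMy, mem_filter, mem_Icc] at hp
      rw [mem_filter, mem_Icc]
      exact ⟨⟨hp.1.1.1, hp.2.1⟩, hp.1.2.1, hp.1.2.2, hp.2.2⟩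
    calc 2 * (U : ℝ) * ∑ p ∈ My.filter (fun p : ℕ => p ≤ T ∧ t ^ (1 / 2 : ℝ) < (p : ℝ)), 1 / (p : ℝ) ≤
          2 * U * (σ / L) := mul_le_mul_of_nonneg_left b1 (by positivity)
      _ = _ := by ring
  have s3 : ∑ p ∈ My, g3 p ≤ η / 3 * (U / L) := by
    rw [hg3, ← sum_filter, ← mul_sum]
    have b1 : ∑ p ∈ My.filter (fun p => T < p), 1 / (p : ℝ) ≤ 4000 * C / L := by
      refine le_trans (sum_le_sum_of_subset_of_nonneg ?_ (fun p _ _ => by positivity)) ht2
      intro p hp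
      rw [mem_filter, hMy, mem_filter] at hp
      rw [mem_filter]
      exact ⟨hp.1.1, hp.1.2.1, hp.2⟩
    calc 2 * C2 * (U / LL) * ∑ p ∈ My.filter (fun p => T < p), 1 / (p : ℝ) ≤
          2 * C2 * (U / LL) * (4000 * C / L) := mul_le_mul_of_nonneg_left b1 (by positivity)
      _ = (8000 * C2 * C / LL) * (U / L) := by
          field_simp
          ring
      _ ≤ η / 3 * (U / L) := by
          apply mul_le_mul_of_nonneg_right _ (by positivity)
          rw [div_le_iff₀ hLL0]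
          rw [div_le_iff₀ hη] at hLLC
          linarith
  have hUL : 0 ≤ (U : ℝ) / L := by positivity
  have h6 : 2 * C2 * σ * (U / L) + 2 * σ * (U / L) ≤ η / 3 * (U / L) := by
    have := mul_le_mul_of_nonneg_right hσ2 hUL
    linarith
  have h7 : 0 ≤ η * (U / L) := by positivity
  linarith

end Pool.Agent.H301.SX
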