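import Pool.Agent.H301.SX.Rec2

/-! The number of the sites not hit under a nonnegative function of bounded level, all scales at once. -/

set_option autoImplicit false

open Finset

namespace Pool.Agent.H301.SX

open Pool.Agent.N422.NW Pool.Agent.N422.LR

/-- the classes which hit the sites -/
def sg {N : ℕ} (k : ℕ) (q : Fin N → ℕ) (i : Fin N) (u : Fin (q i)) : Option (Fin k) :=
  if h : (u : ℕ) < k then some ⟨u, h⟩ else none

lemma sg_some {N : ℕ} {k : ℕ} {q : Fin N → ℕ} (i : Fin N) (h : k ≤ q i) (a : Fin k) :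
    (univ.filter (fun u => sg k q i u = some a)) = {⟨(a : ℕ), a.2.trans_le h⟩} := by
  ext u
  rw [mem_filter, mem_singleton]
  unfold sg
  constructor
  · rintro ⟨_, h1⟩
    split_ifs at h1 with h2
    have h3 := Option.some.inj h1
    apply Fin.ext
    rw [← h3]
  · rintro rfl
    refine ⟨mem_univ _, ?_⟩
    simp

lemma sg_card {N : ℕ} {k : ℕ} {q : Fin N → ℕ} (i : Fin N) (h : k ≤ q i) (c : Option (Fin k)) :
    ((univ.filter (fun u => sg k q i u = c)).card : ℝ) = q i * mu1 (q i : ℝ) c := by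
  rcases Nat.eq_zero_or_pos (q i) with h0 | h0
  · have hk : k = 0 := by omega
    subst hk
    have : IsEmpty (Fin (q i)) := by
      rw [h0]
      infer_instance
    rw [univ_eq_empty, filter_empty, card_empty, h0]
    simp
  have hq : (0 : ℝ) < q i := by exact_mod_cast h0
  cases c with
  | some a =>
    rw [sg_some i h a, card_singleton]
    unfold mu1
    field_simp
    norm_num
  | none =>
    unfold mu1
    have h1 : (univ.filter (fun u : Fin (q i) => sg k q i u = none)).card + k = q i := by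
      have h2 := card_filter_add_card_filter_not (s := (univ : Finset (Fin (q i)))) (fun u => sg k q i u = none)
      rw [card_univ, Fintype.card_fin] at h2
      have h3 : (univ.filter (fun u : Fin (q i) => ¬ sg k q i u = none)).card = k := by
        have h4 : univ.filter (fun u : Fin (q i) => ¬ sg k q i u = none) =
            (univ : Finset (Fin k)).map ⟨Fin.castLE h, Fin.castLE_injective h⟩ := by
          ext u
          rw [mem_filter, mem_map]
          unfold sg
          constructor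
          · rintro ⟨_, h5⟩
            split_ifs at h5 with h6
            · exact ⟨⟨u, h6⟩, mem_univ _, Fin.ext rfl⟩
            · exact absurd rfl h5
          · rintro ⟨a, _, rfl⟩
            refine ⟨mem_univ _, ?_⟩
            simp
        rw [h4, card_map, card_univ, Fintype.card_fin]
      omega
    have h2 : (((univ.filter (fun u : Fin (q i) => sg k q i u = none)).card : ℕ) : ℝ) + k = q i := by exact_mod_cast h1
    have h3 : (q i : ℝ) * (1 - k / q i) = q i - k := by field_simp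
    rw [h3]
    linarith

/-- the uniform law on the classes and the law of the hits -/
lemma push {N k : ℕ} (q : Fin N → ℕ) (hq : ∀ i, k ≤ q i) (H : St N k → ℝ) :
    ∑ x : Xs q, H (fun i => sg k q i (x i)) = (∏ i, (q i : ℝ)) * ∑ γ, muP (fun i => (q i : ℝ)) γ * H γ := by
  classical
  have h1 : ∑ x : Xs q, H (fun i => sg k q i (x i)) =
      ∑ γ : St N k, ∑ x ∈ univ.filter (fun x : Xs q => (fun i => sg k q i (x i)) = γ), H γ := by
    rw [← Finset.sum_fiberwise (s := (univ : Finset (Xs q))) (g := fun x : Xs q => (fun i => sg k q i (x i) : St N k))]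
    apply sum_congr rfl
    intro γ _
    apply sum_congr rfl
    intro x hx
    rw [(mem_filter.1 hx).2]
  rw [h1, mul_sum]
  apply sum_congr rfl
  intro γ _
  rw [sum_const, nsmul_eq_mul]
  have h2 : univ.filter (fun x : Xs q => (fun i => sg k q i (x i)) = γ) =
      Fintype.piFinset (fun i => univ.filter (fun u : Fin (q i) => sg k q i u = γ i)) := by
    ext x
    rw [mem_filter, Fintype.mem_piFinset]
    constructor
    · rintro ⟨_, h3⟩ i
      rw [mem_filter]
      exact ⟨mem_univ _, congrFun h3 i⟩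
    · intro h3
      refine ⟨mem_univ _, funext fun i => ?_⟩
      exact (mem_filter.1 (h3 i)).2
  rw [h2, Fintype.card_piFinset]
  unfold muP
  push_cast
  rw [prod_congr rfl (fun i _ => sg_card i (hq i) (γ i)), prod_mul_distrib]
  ring

/-- one more place -/
lemma alive_succ {N k : ℕ} (γ : St N k) (i : Fin N) : ((alive γ ((i : ℕ) + 1)).card : ℝ) =
    ((alive γ i).card : ℝ) - (if Hit (alive γ i) (γ i) then 1 else 0) := by
  classical
  have hmem : ∀ a, a ∈ alive γ ((i : ℕ) + 1) ↔ a ∈ alive γ i ∧ γ i ≠ some a := by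
    intro a
    unfold alive
    rw [mem_filter, mem_filter]
    constructor
    · rintro ⟨_, h⟩
      exact ⟨⟨mem_univ _, fun j hj => h j (by omega)⟩, h i (by omega)⟩
    · rintro ⟨⟨_, h⟩, h2⟩
      refine ⟨mem_univ _, fun j hj => ?_⟩
      rcases Nat.lt_succ_iff_lt_or_eq.1 hj with h3 | h3
      · exact h j h3
      · have h4 : j = i := Fin.ext h3
        rw [h4]
        exact h2
  by_cases hh : Hit (alive γ i) (γ i)
  · rw [if_pos hh]
    obtain ⟨a, ha, hs⟩ := hh
    have h1 : alive γ ((i : ℕ) + 1) = (alive γ i).erase a := by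
      ext b
      rw [hmem, mem_erase, hs]
      constructor
      · rintro ⟨h2, h3⟩
        exact ⟨fun hc => h3 (by rw [hc]), h2⟩
      · rintro ⟨h2, h3⟩
        exact ⟨h3, fun hc => h2 (Option.some.inj hc).symm⟩
    rw [h1, card_erase_of_mem ha, Nat.cast_sub (card_pos.2 ⟨a, ha⟩)]
    norm_num
  · rw [if_neg hh, sub_zero]
    have h1 : alive γ ((i : ℕ) + 1) = alive γ i := by
      ext b
      rw [hmem]
      refine ⟨fun h => h.1, fun h => ⟨h, fun hc => hh ⟨b, h, hc⟩⟩⟩
    rw [h1]

lemma alive_zero {N k : ℕ} (γ : St N k) : ((alive γ 0).card : ℝ) = k := by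
  unfold alive
  rw [filter_true_of_mem]
  · rw [card_univ, Fintype.card_fin]
  · intro a _ j hj
    exact absurd hj (Nat.not_lt_zero _)

/-- the density of the first places -/
noncomputable def Pi1 {N : ℕ} (q : Fin N → ℝ) (i : ℕ) : ℝ := ∏ j ∈ univ.filter (fun j : Fin N => (j : ℕ) < i), (1 - 1 / q j)

lemma filt_succ {N : ℕ} (n : ℕ) (hn : n < N) : univ.filter (fun i : Fin N => (i : ℕ) < n + 1) =
    insert (⟨n, hn⟩ : Fin N) (univ.filter (fun i : Fin N => (i : ℕ) < n)) := by
  ext i
  rw [mem_filter, mem_insert, mem_filter]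
  constructor
  · rintro ⟨_, h⟩
    rcases Nat.lt_succ_iff_lt_or_eq.1 h with h1 | h1
    · exact Or.inr ⟨mem_univ _, h1⟩
    · exact Or.inl (Fin.ext h1)
  · rintro (h | ⟨_, h⟩)
    · subst h
      exact ⟨mem_univ _, Nat.lt_succ_self _⟩
    · exact ⟨mem_univ _, Nat.lt_succ_of_lt h⟩

lemma filt_not {N : ℕ} (n : ℕ) (hn : n < N) : (⟨n, hn⟩ : Fin N) ∉ univ.filter (fun i : Fin N => (i : ℕ) < n) := by
  rw [mem_filter]
  rintro ⟨_, h⟩
  exact lt_irrefl _ h

lemma Pi1_pos {N : ℕ} {q : Fin N → ℝ} (hq : ∀ i, 2 ≤ q i) (i : ℕ) : 0 < Pi1 q i := by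
  unfold Pi1
  apply prod_pos
  intro j _
  have h1 := hq j
  have h2 : 1 / q j ≤ 1 / 2 := one_div_le_one_div_of_le (by norm_num) h1
  linarith

lemma Pi1_succ {N : ℕ} (q : Fin N → ℝ) (i : Fin N) : Pi1 q ((i : ℕ) + 1) = (1 - 1 / q i) * Pi1 q i := by
  unfold Pi1
  rw [filt_succ (i : ℕ) i.2, prod_insert (filt_not _ _)]

lemma tele {N k : ℕ} {q : Fin N → ℝ} (hq : ∀ i, 2 ≤ q i) (γ : St N k) : ∀ i : ℕ, i ≤ N →
    ∑ j ∈ univ.filter (fun j : Fin N => (j : ℕ) < i), 1 / Pi1 q ((j : ℕ) + 1) *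
      (((alive γ j).card : ℝ) / q j - (if Hit (alive γ j) (γ j) then 1 else 0)) =
      ((alive γ i).card : ℝ) / Pi1 q i - k := by
  intro i
  induction i with
  | zero =>
    intro _
    have h1 : univ.filter (fun j : Fin N => (j : ℕ) < 0) = ∅ := by
      apply filter_false_of_mem
      intro j _
      exact Nat.not_lt_zero _
    have h2 : Pi1 q 0 = 1 := by
      unfold Pi1
      rw [h1, prod_empty]
    rw [h1, sum_empty, h2, alive_zero]
    simp
  | succ n ih =>
    intro hn
    have hn' : n < N := hn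
    have h1 := ih hn'.le
    rw [filt_succ n hn', sum_insert (filt_not n hn'), h1]
    have h2 := alive_succ γ (⟨n, hn'⟩ : Fin N)
    have h3 := Pi1_succ q (⟨n, hn'⟩ : Fin N)
    have h4 := Pi1_pos hq n
    have h5 := hq ⟨n, hn'⟩
    dsimp only at h2 h3 ⊢
    rw [h2, h3]
    set a : ℝ := ((alive γ n).card : ℝ) with ha
    set e : ℝ := (if Hit (alive γ n) (γ ⟨n, hn'⟩) then (1 : ℝ) else 0) with he
    set Q1 : ℝ := q ⟨n, hn'⟩ with hQ1
    have h6 : (1 : ℝ) - 1 / Q1 ≠ 0 := by
      have h7 : 1 / Q1 ≤ 1 / 2 := one_div_le_one_div_of_le (by norm_num) h5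
      intro h8
      linarith
    have h9 : Q1 ≠ 0 := by linarith
    have h10 : Q1 - 1 ≠ 0 := by
      intro h8
      linarith
    have h11 : 1 - 1 / Q1 = (Q1 - 1) / Q1 := by field_simp
    have h12 : Pi1 q n ≠ 0 := h4.ne'
    rw [h11]
    field_simp
    ring

/-- too many hits: the inequality for the law of the hits -/
theorem lowm (h : S_NX) (N k n : ℕ) (q : Fin N → ℕ) (ν : Fin N → ℕ) (f : St N k → ℝ)
    (hq : ∀ i, 2 * k ≤ q i ∧ 0 < q i) (hf : ∀ γ, 0 ≤ f γ) (hL : Lev ν n f) (t : ℝ) (ht : 0 < t) (R : Fin N → ℝ)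
    (hR : ∀ i, 0 ≤ R i ∧ R i * (Real.cosh (ν i * t) + 1) ≤ 1 / 4) :
    ∑ γ, muP (fun i => (q i : ℝ)) γ * f γ * ∑ i, R i * Real.sinh (ν i * t) *
      ((if Hit (alive γ i) (γ i) then 1 else 0) -
        (1 + 8 * R i * Real.cosh (ν i * t) + 2 * k / q i) * (((alive γ i).card : ℝ) / q i)) ≤
      n * t * ∑ γ, muP (fun i => (q i : ℝ)) γ * f γ := by
  classical
  have hkq : ∀ i, k ≤ q i := fun i => by
    have := (hq i).1
    omega
  have hP0 : (0 : ℝ) < ∏ i, (q i : ℝ) := prod_pos fun i _ => by exact_mod_cast (hq i).2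
  have hmu : ∀ γ : St N k, 0 ≤ muP (fun i => (q i : ℝ)) γ := by
    intro γ
    unfold muP
    apply prod_nonneg
    intro i _
    have hqi : (0 : ℝ) < q i := by exact_mod_cast (hq i).2
    have hki : (k : ℝ) ≤ q i := by exact_mod_cast hkq i
    cases γ i with
    | some a =>
      unfold mu1
      positivity
    | none =>
      unfold mu1
      have : (k : ℝ) / q i ≤ 1 := by
        rw [div_le_one hqi]
        exact hki
      linarith
  set f' : Xs q → ℝ := fun x => f (fun i => sg k q i (x i)) with hf'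
  have hf'0 : ∀ x, 0 ≤ f' x := fun x => hf _
  have hmax : ∀ x, max (f' x) 0 = f' x := fun x => max_eq_left (hf'0 x)
  have habs : ∀ x, |f' x| = f' x := fun x => abs_of_nonneg (hf'0 x)
  have hE : ∑ x, f' x = (∏ i, (q i : ℝ)) * ∑ γ, muP (fun i => (q i : ℝ)) γ * f γ := push q hkq f
  have hLX : LevX ν n f' := by
    obtain ⟨m, S, g, h1, h2, h3⟩ := hL
    refine ⟨m, S, fun j x => g j (fun i => sg k q i (x i)), h1, ?_, fun x => h3 _⟩
    intro j x x' hxx
    apply h2
    intro i hi
    rw [hxx i hi]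
  have hOne : One (sg k q) := by
    intro i a
    rw [sg_some i (hkq i) a, card_singleton]
  rcases (sum_nonneg fun x _ => hf'0 x : 0 ≤ ∑ x, f' x).eq_or_lt with h0 | hpos
  · -- the trivial case
    have h1 : ∑ γ, muP (fun i => (q i : ℝ)) γ * f γ = 0 := by
      rw [hE] at h0
      rcases mul_eq_zero.1 h0.symm with h2 | h2
      · exact absurd h2 hP0.ne'
      · exact h2
    have h2 : ∀ γ, muP (fun i => (q i : ℝ)) γ * f γ = 0 := fun γ =>
      (sum_eq_zero_iff_of_nonneg (fun γ _ => mul_nonneg (hmu γ) (hf γ))).1 h1 γ (mem_univ _)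
    rw [h1, mul_zero]
    apply le_of_eq
    apply sum_eq_zero
    intro γ _
    rw [h2, zero_mul]
  · have key := h N k n q (sg k q) ν f' hq hOne hLX t ht R hR (by simp only [hmax]; exact hpos)
    simp only [hmax, habs] at key
    rw [div_self hpos.ne', Real.log_one, add_zero, hE] at key
    have hpush := push q hkq (fun γ => f γ * ∑ i, R i * Real.sinh (ν i * t) *
      ((if Hit (alive γ i) (γ i) then 1 else 0) -
        (1 + 8 * R i * Real.cosh (ν i * t) + 2 * k / q i) * (((alive γ i).card : ℝ) / q i)))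
    have e1 : ∑ x, f' x * ∑ i : Fin N, R i * Real.sinh (ν i * t) *
        ((if Hit (al (sg k q) x i) (sg k q i (x i)) then 1 else 0) -
          (1 + 8 * R i * Real.cosh (ν i * t) + 2 * k / q i) * (((al (sg k q) x i).card : ℝ) / q i)) =
        (∏ i, (q i : ℝ)) * ∑ γ, muP (fun i => (q i : ℝ)) γ * (f γ * ∑ i, R i * Real.sinh (ν i * t) *
      ((if Hit (alive γ i) (γ i) then 1 else 0) -
        (1 + 8 * R i * Real.cosh (ν i * t) + 2 * k / q i) * (((alive γ i).card : ℝ) / q i))) := hpush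
    rw [e1] at key
    have e2 : ∀ a b : ℝ, n * t * ((∏ i, (q i : ℝ)) * b) = (∏ i, (q i : ℝ)) * (n * t * b) := fun _ b => by ring
    rw [e2 0] at key
    have key2 := le_of_mul_le_mul_left key hP0
    refine le_trans (le_of_eq ?_) key2
    apply sum_congr rfl
    intro γ _
    ring

/-- the mean number of the sites not hit, relative to the density -/
noncomputable def MM {N k : ℕ} (q : Fin N → ℝ) (f : St N k → ℝ) (i : ℕ) : ℝ :=
  ∑ γ, muP q γ * f γ * (((alive γ i).card : ℝ) / Pi1 q i)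

lemma muP_nonneg {N k : ℕ} {q : Fin N → ℝ} (hq : ∀ i, (k : ℝ) < q i) (γ : St N k) : 0 ≤ muP q γ := by
  unfold muP
  apply prod_nonneg
  intro i _
  have hqi : (0 : ℝ) < q i := lt_of_le_of_lt (Nat.cast_nonneg k) (hq i)
  cases γ i with
  | some a =>
    unfold mu1
    positivity
  | none =>
    unfold mu1
    have : (k : ℝ) / q i ≤ 1 := by
      rw [div_le_one hqi]
      exact (hq i).le
    linarith

lemma MM_nonneg {N k : ℕ} {q : Fin N → ℝ} (hq : ∀ i, (k : ℝ) < q i) (hq2 : ∀ i, 2 ≤ q i) {f : St N k → ℝ}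
    (hf : ∀ γ, 0 ≤ f γ) (i : ℕ) : 0 ≤ MM q f i := by
  unfold MM
  exact sum_nonneg fun γ _ => mul_nonneg (mul_nonneg (muP_nonneg hq γ) (hf γ))
    (div_nonneg (Nat.cast_nonneg _) (Pi1_pos hq2 i).le)

/-- the hits expected -/
lemma gsum {N k : ℕ} {q : Fin N → ℝ} (hq2 : ∀ i, 2 ≤ q i) (γ : St N k) (j : Fin N) :
    1 / Pi1 q ((j : ℕ) + 1) * (((alive γ j).card : ℝ) / q j) ≤ 2 * (1 / q j) * (((alive γ j).card : ℝ) / Pi1 q j) := by
  have h1 := hq2 j
  have h2 := Pi1_pos hq2 (j : ℕ)
  have h3 : (0 : ℝ) ≤ ((alive γ j).card : ℝ) := Nat.cast_nonneg _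
  rw [Pi1_succ]
  have h4 : 1 / q j ≤ 1 / 2 := one_div_le_one_div_of_le (by norm_num) h1
  have h5 : 1 / ((1 - 1 / q j) * Pi1 q j) ≤ 2 * (1 / Pi1 q j) := by
    have h6 : 0 < 1 - 1 / q j := by linarith
    have h7 : 1 / ((1 - 1 / q j) * Pi1 q j) = 1 / (1 - 1 / q j) * (1 / Pi1 q j) := by
      field_simp
    rw [h7]
    apply mul_le_mul_of_nonneg_right _ (by positivity)
    rw [div_le_iff₀ h6]
    linarith
  calc 1 / ((1 - 1 / q j) * Pi1 q j) * (((alive γ j).card : ℝ) / q j) ≤
        2 * (1 / Pi1 q j) * (((alive γ j).card : ℝ) / q j) :=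
        mul_le_mul_of_nonneg_right h5 (by positivity)
    _ = 2 * (1 / q j) * (((alive γ j).card : ℝ) / Pi1 q j) := by ring

/-- all scales at once -/
theorem seqm (h1 : S_NW1) (h2 : S_NX) (N k n : ℕ) (q : Fin N → ℕ) (ν : Fin N → ℕ) (f : St N k → ℝ)
    (hq : ∀ i, 2 * k ≤ q i ∧ 2 ≤ q i) (hf : ∀ γ, 0 ≤ f γ) (hL : Lev ν n f) (t T x J κ : ℝ) (ht : 0 < t) (hT : 0 < T)
    (hx : 0 < x) (hx1 : x ≤ 1 / 12) (hJ : ∑ i, 1 / (q i : ℝ) ≤ J) (hJx : 8 * (x * J) ≤ 1) (hκ : ∀ i, (k : ℝ) / q i ≤ κ)
    (hκ0 : 0 ≤ κ) (hν : ∀ i, 0 < ν i) (hs : ∀ i : Fin N, 1 / Pi1 (fun i => (q i : ℝ)) ((i : ℕ) + 1) ≤ T * Real.sinh (ν i * t))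
    (hc : ∀ i, Real.cosh (ν i * t) ≤ 2) :
    |MM (fun i => (q i : ℝ)) f N - k * ∑ γ, muP (fun i => (q i : ℝ)) γ * f γ| ≤
      (n * t * T / x + (2 * x + (64 * x + 8 * κ) * J) * (2 * k + n * t * T / x)) *
        ∑ γ, muP (fun i => (q i : ℝ)) γ * f γ := by
  classical
  set Q : Fin N → ℝ := fun i => (q i : ℝ) with hQ
  have hQ2 : ∀ i, 2 ≤ Q i := fun i => by
    show (2 : ℝ) ≤ (q i : ℝ)
    exact_mod_cast (hq i).2
  have hQk : ∀ i, (k : ℝ) < Q i := fun i => by
    have e : k < q i := by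
      have := hq i
      omega
    show (k : ℝ) < (q i : ℝ)
    exact_mod_cast e
  have hst : ∀ i, 0 < Real.sinh (ν i * t) := fun i => by
    apply Real.sinh_pos_iff.2
    have : (0 : ℝ) < ν i := by exact_mod_cast hν i
    positivity
  have hP0 : ∀ i : ℕ, 0 < Pi1 Q i := fun i => Pi1_pos hQ2 i
  set R : Fin N → ℝ := fun i => x / T * (1 / Pi1 Q ((i : ℕ) + 1)) / Real.sinh (ν i * t) with hR
  have hR0 : ∀ i, 0 ≤ R i := fun i => by
    have a1 := hP0 ((i : ℕ) + 1)
    have a2 := hst i
    rw [hR]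
    positivity
  have hRx : ∀ i, R i ≤ x := fun i => by
    rw [hR]
    dsimp only
    rw [div_le_iff₀ (hst i)]
    calc x / T * (1 / Pi1 Q ((i : ℕ) + 1)) ≤ x / T * (T * Real.sinh (ν i * t)) :=
          mul_le_mul_of_nonneg_left (hs i) (by positivity)
      _ = x * Real.sinh (ν i * t) := by field_simp
  have hRs : ∀ i, R i * Real.sinh (ν i * t) = x / T * (1 / Pi1 Q ((i : ℕ) + 1)) := fun i => by
    rw [hR]
    exact div_mul_cancel₀ _ (hst i).ne'
  have hc1 : ∀ i, 1 ≤ Real.cosh (ν i * t) := fun i => Real.one_le_cosh _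
  have hRc : ∀ i, R i * (Real.cosh (ν i * t) + 1) ≤ 1 / 4 := fun i => by
    calc R i * (Real.cosh (ν i * t) + 1) ≤ x * 3 :=
          mul_le_mul (hRx i) (by linarith [hc i]) (by linarith [hc1 i]) hx.le
      _ ≤ 1 / 4 := by linarith
  have hRc2 : ∀ i, R i * Real.cosh (ν i * t) ≤ 2 * x := fun i => by
    calc R i * Real.cosh (ν i * t) ≤ x * 2 :=
          mul_le_mul (hRx i) (hc i) (by linarith [hc1 i]) hx.le
      _ = 2 * x := by ring
  set E : ℝ := ∑ γ, muP Q γ * f γ with hE
  have hw : ∀ γ, 0 ≤ muP Q γ * f γ := fun γ => mul_nonneg (muP_nonneg hQk γ) (hf γ)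
  have hE0 : 0 ≤ E := sum_nonneg fun γ _ => hw γ
  set G : ℝ := n * t * T / x with hG
  have hG0 : 0 ≤ G := by positivity
  have hMM0 : ∀ i, 0 ≤ MM Q f i := fun i => MM_nonneg hQk hQ2 hf i
  have hxT : 0 < x / T := by positivity
  -- the sum of the expected hits
  have hmean : ∀ (i : ℕ) (γ : St N k), ∑ j ∈ univ.filter (fun j : Fin N => (j : ℕ) < i),
      1 / Pi1 Q ((j : ℕ) + 1) * (((alive γ j).card : ℝ) / Q j) ≤
      ∑ j ∈ univ.filter (fun j : Fin N => (j : ℕ) < i), 2 * (1 / Q j) * (((alive γ j).card : ℝ) / Pi1 Q j) :=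
    fun i γ => sum_le_sum fun j _ => gsum hQ2 γ j
  -- the upper bound
  have hup : ∀ i : ℕ, i ≤ N → MM Q f i ≤ (k * (1 + 2 * x) + G) * E +
      4 * x * ∑ j ∈ univ.filter (fun j : Fin N => (j : ℕ) < i), 1 / Q j * MM Q f j := by
    intro i hi
    have key := h1 N k n Q ν f hQk hf hL t ht (fun j => if (j : ℕ) < i then R j else 0) 1 (1 / 3)
      (fun j => by
        split_ifs
        · exact hR0 j
        · exact le_rfl) zero_le_one (by norm_num) (fun r hr hr1 => Pool.Agent.N422.LG.UB_log hr hr1)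
      (fun j => by
        split_ifs
        · have := hRc j
          linarith
        · rw [zero_mul]
          norm_num)
    rw [← hE] at key
    have e1 : ∀ γ : St N k, x / T * ((1 + 2 * x) * (((alive γ i).card : ℝ) / Pi1 Q i - k) -
        2 * x * (∑ j ∈ univ.filter (fun j : Fin N => (j : ℕ) < i),
          2 * (1 / Q j) * (((alive γ j).card : ℝ) / Pi1 Q j))) ≤
        ∑ j : Fin N, (if (j : ℕ) < i then R j else 0) * Real.sinh (ν j * t) * (((alive γ j).card : ℝ) / Q j -
      (1 + 1 * (if (j : ℕ) < i then R j else 0) * Real.cosh (ν j * t)) *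
        (if Hit (alive γ j) (γ j) then 1 else 0)) := by
      intro γ
      have e2 : ∑ j : Fin N, (if (j : ℕ) < i then R j else 0) * Real.sinh (ν j * t) * (((alive γ j).card : ℝ) / Q j -
          (1 + 1 * (if (j : ℕ) < i then R j else 0) * Real.cosh (ν j * t)) *
          (if Hit (alive γ j) (γ j) then (1 : ℝ) else 0)) =
          ∑ j ∈ univ.filter (fun j : Fin N => (j : ℕ) < i), (x / T * (1 / Pi1 Q ((j : ℕ) + 1))) *
          (((alive γ j).card : ℝ) / Q j - (1 + R j * Real.cosh (ν j * t)) *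
          (if Hit (alive γ j) (γ j) then (1 : ℝ) else 0)) := by
        rw [sum_filter]
        apply sum_congr rfl
        intro j _
        by_cases hji : (j : ℕ) < i
        · rw [if_pos hji, if_pos hji, ← hRs j, one_mul]
        · rw [if_neg hji, if_neg hji]
          ring
      rw [e2]
      have e3 : ∑ j ∈ univ.filter (fun j : Fin N => (j : ℕ) < i), (x / T * (1 / Pi1 Q ((j : ℕ) + 1))) *
          (((alive γ j).card : ℝ) / Q j - (1 + 2 * x) * (if Hit (alive γ j) (γ j) then (1 : ℝ) else 0)) ≤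
          ∑ j ∈ univ.filter (fun j : Fin N => (j : ℕ) < i), (x / T * (1 / Pi1 Q ((j : ℕ) + 1))) *
          (((alive γ j).card : ℝ) / Q j - (1 + R j * Real.cosh (ν j * t)) *
          (if Hit (alive γ j) (γ j) then (1 : ℝ) else 0)) := by
        apply sum_le_sum
        intro j _
        apply mul_le_mul_of_nonneg_left
        · have e4 : (1 + R j * Real.cosh (ν j * t)) * (if Hit (alive γ j) (γ j) then (1 : ℝ) else 0) ≤
              (1 + 2 * x) * (if Hit (alive γ j) (γ j) then (1 : ℝ) else 0) := by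
            apply mul_le_mul_of_nonneg_right
            · have := hRc2 j
              linarith
            · split_ifs <;> norm_num
          linarith
        · have := hP0 ((j : ℕ) + 1)
          positivity
      refine le_trans ?_ e3
      have e5 : ∑ j ∈ univ.filter (fun j : Fin N => (j : ℕ) < i), (x / T * (1 / Pi1 Q ((j : ℕ) + 1))) *
          (((alive γ j).card : ℝ) / Q j - (1 + 2 * x) * (if Hit (alive γ j) (γ j) then (1 : ℝ) else 0)) =
          x / T * ((1 + 2 * x) * (∑ j ∈ univ.filter (fun j : Fin N => (j : ℕ) < i), 1 / Pi1 Q ((j : ℕ) + 1) *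
            (((alive γ j).card : ℝ) / Q j - (if Hit (alive γ j) (γ j) then (1 : ℝ) else 0))) -
          2 * x * ∑ j ∈ univ.filter (fun j : Fin N => (j : ℕ) < i), 1 / Pi1 Q ((j : ℕ) + 1) *
            (((alive γ j).card : ℝ) / Q j)) := by
        rw [mul_sum, mul_sum, ← sum_sub_distrib, mul_sum]
        apply sum_congr rfl
        intro j _
        ring
      rw [e5, tele hQ2 γ i hi]
      apply mul_le_mul_of_nonneg_left _ hxT.le
      have e6 := mul_le_mul_of_nonneg_left (hmean i γ) (show 0 ≤ 2 * x by positivity)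
      linarith
    have e7 := (sum_le_sum fun γ (_ : γ ∈ univ) => mul_le_mul_of_nonneg_left (e1 γ) (hw γ)).trans key
    have e8 : ∑ γ, muP Q γ * f γ * (x / T * ((1 + 2 * x) * (((alive γ i).card : ℝ) / Pi1 Q i - k) -
        2 * x * (∑ j ∈ univ.filter (fun j : Fin N => (j : ℕ) < i),
          2 * (1 / Q j) * (((alive γ j).card : ℝ) / Pi1 Q j)))) =
        x / T * ((1 + 2 * x) * (MM Q f i - k * E) - 2 * x *
          ∑ j ∈ univ.filter (fun j : Fin N => (j : ℕ) < i), 2 * (1 / Q j) * MM Q f j) := by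
      unfold MM
      have e9 : ∑ j ∈ univ.filter (fun j : Fin N => (j : ℕ) < i), 2 * (1 / Q j) *
          ∑ γ, muP Q γ * f γ * (((alive γ j).card : ℝ) / Pi1 Q j) =
          ∑ γ, muP Q γ * f γ * ∑ j ∈ univ.filter (fun j : Fin N => (j : ℕ) < i),
            2 * (1 / Q j) * (((alive γ j).card : ℝ) / Pi1 Q j) := by
        simp only [mul_sum]
        rw [sum_comm]
        apply sum_congr rfl
        intro γ _
        apply sum_congr rfl
        intro j _
        ring
      rw [e9, hE, mul_sum, ← sum_sub_distrib, mul_sum, mul_sum, ← sum_sub_distrib, mul_sum]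
      apply sum_congr rfl
      intro γ _
      ring
    rw [e8] at e7
    have e10 : (1 + 2 * x) * (MM Q f i - k * E) - 2 * x *
          ∑ j ∈ univ.filter (fun j : Fin N => (j : ℕ) < i), 2 * (1 / Q j) * MM Q f j ≤ G * E := by
      have e11 : x / T * (G * E) = n * t * E := by
        rw [hG]
        field_simp
      rw [← e11] at e7
      exact le_of_mul_le_mul_left e7 hxT
    have e12 : ∑ j ∈ univ.filter (fun j : Fin N => (j : ℕ) < i), 2 * (1 / Q j) * MM Q f j =
        2 * ∑ j ∈ univ.filter (fun j : Fin N => (j : ℕ) < i), 1 / Q j * MM Q f j := by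
      rw [mul_sum]
      apply sum_congr rfl
      intro j _
      ring
    rw [e12] at e10
    have e13 := hMM0 i
    nlinarith
  set B0 : ℝ := k * (1 + 2 * x) + G with hB0
  have hB00 : 0 ≤ B0 := by positivity
  have hsumJ : ∀ i : ℕ, ∀ B : ℝ, 0 ≤ B → (∀ j : Fin N, (j : ℕ) < i → MM Q f j ≤ B) →
      ∑ j ∈ univ.filter (fun j : Fin N => (j : ℕ) < i), 1 / Q j * MM Q f j ≤ J * B := by
    intro i B hB hj
    calc ∑ j ∈ univ.filter (fun j : Fin N => (j : ℕ) < i), 1 / Q j * MM Q f j ≤
          ∑ j ∈ univ.filter (fun j : Fin N => (j : ℕ) < i), 1 / Q j * B := by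
          apply sum_le_sum
          intro j hj2
          have a1 := hQ2 j
          exact mul_le_mul_of_nonneg_left (hj j (mem_filter.1 hj2).2) (by positivity)
      _ ≤ ∑ j : Fin N, 1 / Q j * B := by
          apply sum_le_sum_of_subset_of_nonneg (filter_subset _ _)
          intro j _ _
          have a1 := hQ2 j
          positivity
      _ = (∑ j : Fin N, 1 / Q j) * B := by rw [sum_mul]
      _ ≤ J * B := mul_le_mul_of_nonneg_right hJ hB
  have hall : ∀ i : ℕ, i ≤ N → MM Q f i ≤ 2 * B0 * E := by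
    intro i
    induction i using Nat.strong_induction_on with
    | _ i ih =>
      intro hi
      have a1 := hup i hi
      have a2 := hsumJ i (2 * B0 * E) (by positivity) (fun j hj => ih j hj (by omega))
      have a3 : 4 * x * (J * (2 * B0 * E)) = 8 * (x * J) * (B0 * E) := by ring
      have a4 : 8 * (x * J) * (B0 * E) ≤ 1 * (B0 * E) := mul_le_mul_of_nonneg_right hJx (by positivity)
      have a5 := mul_le_mul_of_nonneg_left a2 (show 0 ≤ 4 * x by positivity)
      linarith
  have hJ0 : 0 ≤ J := le_trans (sum_nonneg fun i _ => by positivity) hJ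
  have hSJ := hsumJ N (2 * B0 * E) (by positivity) (fun j _ => hall j j.2.le)
  have hB0le : B0 ≤ 2 * k + G := by
    rw [hB0]
    have : (0 : ℝ) ≤ k := Nat.cast_nonneg _
    nlinarith
  have hkG : (0 : ℝ) ≤ 2 * k + G := by positivity
  have hfN : univ.filter (fun j : Fin N => (j : ℕ) < N) = univ := filter_true_of_mem fun j _ => j.2
  rw [hfN] at hSJ
  have hupN := hup N le_rfl
  rw [hfN] at hupN
  -- the lower bound
  have key := lowm h2 N k n q ν f (fun i => ⟨(hq i).1, by
    have := (hq i).2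
    omega⟩) hf hL t ht R (fun i => ⟨hR0 i, hRc i⟩)
  have hkey : ∑ γ, muP Q γ * f γ * ∑ i, R i * Real.sinh (ν i * t) *
      ((if Hit (alive γ i) (γ i) then 1 else 0) -
        (1 + 8 * R i * Real.cosh (ν i * t) + 2 * k / q i) * (((alive γ i).card : ℝ) / q i)) ≤ n * t * E := key
  have e1 : ∀ γ : St N k, x / T * ((k - ((alive γ N).card : ℝ) / Pi1 Q N) -
        (16 * x + 2 * κ) * (∑ j : Fin N, 2 * (1 / Q j) * (((alive γ j).card : ℝ) / Pi1 Q j))) ≤
        ∑ i, R i * Real.sinh (ν i * t) * ((if Hit (alive γ i) (γ i) then 1 else 0) -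
        (1 + 8 * R i * Real.cosh (ν i * t) + 2 * k / q i) * (((alive γ i).card : ℝ) / q i)) := by
    intro γ
    have e3 : ∑ j : Fin N, (x / T * (1 / Pi1 Q ((j : ℕ) + 1))) *
          ((if Hit (alive γ j) (γ j) then (1 : ℝ) else 0) - (1 + (16 * x + 2 * κ)) * (((alive γ j).card : ℝ) / Q j)) ≤
        ∑ i, R i * Real.sinh (ν i * t) * ((if Hit (alive γ i) (γ i) then 1 else 0) -
        (1 + 8 * R i * Real.cosh (ν i * t) + 2 * k / q i) * (((alive γ i).card : ℝ) / q i)) := by
      apply sum_le_sum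
      intro j _
      rw [hRs j]
      apply mul_le_mul_of_nonneg_left
      · have e4 : (1 + 8 * R j * Real.cosh (ν j * t) + 2 * k / q j) * (((alive γ j).card : ℝ) / q j) ≤
            (1 + (16 * x + 2 * κ)) * (((alive γ j).card : ℝ) / Q j) := by
          apply mul_le_mul_of_nonneg_right
          · have b1 := hRc2 j
            have b2 := hκ j
            have b3 : 2 * (k : ℝ) / q j = 2 * (k / q j) := by ring
            rw [b3]
            linarith
          · positivity
        linarith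
      · have := hP0 ((j : ℕ) + 1)
        positivity
    refine le_trans ?_ e3
    have e5 : ∑ j : Fin N, (x / T * (1 / Pi1 Q ((j : ℕ) + 1))) *
          ((if Hit (alive γ j) (γ j) then (1 : ℝ) else 0) - (1 + (16 * x + 2 * κ)) * (((alive γ j).card : ℝ) / Q j)) =
          x / T * (-(∑ j : Fin N, 1 / Pi1 Q ((j : ℕ) + 1) *
            (((alive γ j).card : ℝ) / Q j - (if Hit (alive γ j) (γ j) then (1 : ℝ) else 0))) -
          (16 * x + 2 * κ) * ∑ j : Fin N, 1 / Pi1 Q ((j : ℕ) + 1) * (((alive γ j).card : ℝ) / Q j)) := by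
      rw [mul_sum, ← sum_neg_distrib, ← sum_sub_distrib, mul_sum]
      apply sum_congr rfl
      intro j _
      ring
    have e6 := tele hQ2 γ N le_rfl
    rw [hfN] at e6
    rw [e5, e6]
    apply mul_le_mul_of_nonneg_left _ hxT.le
    have e7 := hmean N γ
    rw [hfN] at e7
    have e8 := mul_le_mul_of_nonneg_left e7 (show 0 ≤ 16 * x + 2 * κ by positivity)
    linarith
  have e7 := (sum_le_sum fun γ (_ : γ ∈ univ) => mul_le_mul_of_nonneg_left (e1 γ) (hw γ)).trans hkey
  have e8 : ∑ γ, muP Q γ * f γ * (x / T * ((k - ((alive γ N).card : ℝ) / Pi1 Q N) -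
        (16 * x + 2 * κ) * (∑ j : Fin N, 2 * (1 / Q j) * (((alive γ j).card : ℝ) / Pi1 Q j)))) =
      x / T * ((k * E - MM Q f N) - (16 * x + 2 * κ) * (2 * ∑ j : Fin N, 1 / Q j * MM Q f j)) := by
    have e9 : 2 * ∑ j : Fin N, 1 / Q j * MM Q f j =
        ∑ γ, muP Q γ * f γ * ∑ j : Fin N, 2 * (1 / Q j) * (((alive γ j).card : ℝ) / Pi1 Q j) := by
      unfold MM
      simp only [mul_sum]
      rw [sum_comm]
      apply sum_congr rfl
      intro γ _
      apply sum_congr rfl
      intro j _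
      ring
    rw [e9]
    unfold MM
    rw [hE, mul_sum, ← sum_sub_distrib, mul_sum, ← sum_sub_distrib, mul_sum]
    apply sum_congr rfl
    intro γ _
    ring
  rw [e8] at e7
  have e10 : (k * E - MM Q f N) - (16 * x + 2 * κ) * (2 * ∑ j : Fin N, 1 / Q j * MM Q f j) ≤ G * E := by
    have e11 : x / T * (G * E) = n * t * E := by
      rw [hG]
      field_simp
    rw [← e11] at e7
    exact le_of_mul_le_mul_left e7 hxT
  -- conclusion
  have f1 : J * (2 * B0 * E) ≤ J * (2 * (2 * k + G) * E) := by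
    apply mul_le_mul_of_nonneg_left _ hJ0
    apply mul_le_mul_of_nonneg_right _ hE0
    linarith
  have f2 := hSJ.trans f1
  have f3 : 4 * x * ∑ j : Fin N, 1 / Q j * MM Q f j ≤ 4 * x * (J * (2 * (2 * k + G) * E)) :=
    mul_le_mul_of_nonneg_left f2 (by positivity)
  have f4 : (16 * x + 2 * κ) * (2 * ∑ j : Fin N, 1 / Q j * MM Q f j) ≤
      (16 * x + 2 * κ) * (2 * (J * (2 * (2 * k + G) * E))) :=
    mul_le_mul_of_nonneg_left (by linarith) (by positivity)
  have f5 : 0 ≤ κ * J * (2 * k + G) * E := by positivity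
  have f6 : 0 ≤ x * J * (2 * k + G) * E := by positivity
  have f7 : 0 ≤ x * k * E := by positivity
  have f8 : 0 ≤ x * G * E := by positivity
  have f9 : 0 ≤ x * (2 * k + G) * E := by positivity
  rw [abs_le]
  constructor
  · have g1 : (G + (2 * x + (64 * x + 8 * κ) * J) * (2 * k + G)) * E = G * E +
        (16 * x + 2 * κ) * (2 * (J * (2 * (2 * k + G) * E))) + 2 * (x * (2 * k + G) * E) := by ring
    rw [g1]
    linarith
  · have g1 : (G + (2 * x + (64 * x + 8 * κ) * J) * (2 * k + G)) * E = G * E + 2 * (x * (2 * k + G) * E) +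
        4 * x * (J * (2 * (2 * k + G) * E)) + 56 * (x * J * (2 * k + G) * E) + 8 * (κ * J * (2 * k + G) * E) := by ring
    rw [g1]
    have g2 : (k * (1 + 2 * x) + G) * E = k * E + 2 * (x * k * E) + G * E := by ring
    have g3 : 2 * (x * (2 * k + G) * E) = 4 * (x * k * E) + 2 * (x * G * E) := by ring
    rw [g2] at hupN
    rw [g3]
    linarith

end Pool.Agent.H301.SX
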