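import Pool.Graph.R_seed8.Y829.BT2
import Pool.Agent.H301.SX.Rec2
import Pool.Graph.R_pool_sql_team_seeded_63374d34.N422.LG.SUB

/-! An upper bound sieve for subsets of the small primes. -/

set_option autoImplicit false

namespace Pool.Agent.H301.SX

open Finset Filter Topology
open Pool.Agent.Y829 (HS Sf mem_HS V_insert avg_root)
open Pool.Agent.Y829 (V)
open Pool.Agent.N422.LG (Sv VV)

lemma removeU1 {P : Finset ℕ} {p : ℕ} (hp : p.Prime) (hP : ∀ q ∈ P, q.Prime) (hpP : p ∉ P) (N : ℕ) (X : ℝ)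
    (h : ∀ n, Sf (insert p P) n N ≤ (1 - 1 / (p : ℝ)) * X) (n : ℕ) : Sf P n N ≤ X := by
  classical
  have hp0 : (0 : ℝ) < p := by exact_mod_cast hp.pos
  have hp1 : (1 : ℝ) < p := by exact_mod_cast hp.one_lt
  set q := ∏ r ∈ P, r with hq
  have hqp : q.Coprime p := by
    rw [hq]
    apply Nat.Coprime.prod_left
    intro r hr
    rw [Nat.coprime_primes (hP r hr) hp]
    rintro rfl
    exact hpP hr
  have h1 : ∑ j ∈ range p, Sf (insert p P) (n + q * j) N = (p - 1) * Sf P n N := by
    have h2 : ∀ j ∈ range p, Sf (insert p P) (n + q * j) N =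
        ∑ h ∈ HS P n N, (if ¬ p ∣ (n + h) + q * j then (1 : ℝ) else 0) := by
      intro j _
      unfold Sf
      rw [← Nat.cast_one, ← Nat.cast_zero]
      have h3 : HS (insert p P) (n + q * j) N = (HS P n N).filter (fun h => ¬ p ∣ (n + h) + q * j) := by
        ext h
        rw [mem_filter, mem_HS, mem_HS, forall_mem_insert]
        have e1 : n + q * j + h = n + h + q * j := by ring
        rw [e1]
        have e2 : (∀ r ∈ P, ¬ r ∣ n + h + q * j) ↔ ∀ r ∈ P, ¬ r ∣ n + h := by
          apply forall₂_congr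
          intro r hr
          rw [not_iff_not]
          exact (Nat.dvd_add_left ((dvd_prod_of_mem _ hr).trans (Dvd.intro _ rfl)))
        rw [e2]
        tauto
      rw [h3, card_filter]
      push_cast
      rfl
    rw [sum_congr rfl h2, sum_comm]
    have h4 : ∀ h ∈ HS P n N, ∑ j ∈ range p, (if ¬ p ∣ (n + h) + q * j then (1 : ℝ) else 0) = p - 1 :=
      fun h _ => avg_root hp hqp (n + h)
    rw [sum_congr rfl h4, sum_const, nsmul_eq_mul]
    unfold Sf
    ring
  have h2 : ∑ j ∈ range p, Sf (insert p P) (n + q * j) N ≤ ∑ j ∈ range p, ((1 - 1 / (p : ℝ)) * X) :=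
    sum_le_sum fun j _ => h _
  rw [h1, sum_const, card_range, nsmul_eq_mul] at h2
  have h3 : (p : ℝ) * ((1 - 1 / (p : ℝ)) * X) = (p - 1) * X := by field_simp
  rw [h3] at h2
  exact le_of_mul_le_mul_left h2 (by linarith)

lemma removeU {P : Finset ℕ} (hP : ∀ q ∈ P, q.Prime) (N : ℕ) (X : ℝ) (R : Finset ℕ) : (∀ q ∈ R, q.Prime) →
    Disjoint P R → (∀ n, Sf (P ∪ R) n N ≤ X * V (P ∪ R)) → ∀ n, Sf P n N ≤ X * V P := by
  classical
  induction R using Finset.induction_on with
  | empty =>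
    intro _ _ h n
    have := h n
    rwa [union_empty] at this
  | insert p R hpR ih =>
    intro hR hd h
    rw [disjoint_insert_right] at hd
    apply ih (fun q hq => hR q (mem_insert_of_mem hq)) hd.2
    have hpU : p ∉ P ∪ R := by
      rw [mem_union]
      rintro (h1 | h1)
      · exact hd.1 h1
      · exact hpR h1
    have e1 : P ∪ insert p R = insert p (P ∪ R) := by rw [union_insert]
    rw [e1] at h
    apply removeU1 (hR p (mem_insert_self _ _)) _ hpU
    · intro n
      have h2 := h n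
      rw [V_insert hpU] at h2
      linarith
    · intro q hq
      rw [mem_union] at hq
      rcases hq with hq | hq
      · exact hP q hq
      · exact hR q (mem_insert_of_mem hq)

lemma HS_mono {P P' : Finset ℕ} (h : P ⊆ P') (n N : ℕ) : HS P' n N ⊆ HS P n N := by
  intro x hx
  rw [mem_HS] at hx ⊢
  exact ⟨hx.1, fun p hp => hx.2 p (h hp)⟩

lemma Sf_mono {P P' : Finset ℕ} (h : P ⊆ P') (n N : ℕ) : Sf P' n N ≤ Sf P n N := by
  unfold Sf
  exact_mod_cast card_le_card (HS_mono h n N)

lemma Sv_eq (U y n : ℕ) : Sv U y n = HS ((Icc 1 y).filter Nat.Prime) n U := by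
  ext h
  rw [mem_HS]
  unfold Sv
  rw [mem_filter, mem_Icc]

lemma VV_eq (y : ℕ) : VV y = V ((Icc 1 y).filter Nat.Prime) := by
  unfold VV V
  rfl

/-- a product over primes -/
lemma V_ge (P : Finset ℕ) (hP : ∀ p ∈ P, p.Prime) : 1 - ∑ p ∈ P, 1 / (p : ℝ) ≤ V P := by
  classical
  unfold V
  induction P using Finset.induction_on with
  | empty => simp
  | insert p P hp ih =>
    rw [sum_insert hp, prod_insert hp]
    have h1 := ih (fun q hq => hP q (mem_insert_of_mem hq))
    have hp2 : (2 : ℝ) ≤ p := by exact_mod_cast (hP p (mem_insert_self _ _)).two_le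
    have h2 : 1 / (p : ℝ) ≤ 1 / 2 := one_div_le_one_div_of_le (by norm_num) hp2
    have h3 : 0 ≤ 1 / (p : ℝ) := by positivity
    have h4 : ∏ x ∈ P, (1 - 1 / (x : ℝ)) ≤ 1 := by
      apply prod_le_one
      · intro i hi
        have hi2 : (2 : ℝ) ≤ i := by exact_mod_cast (hP i (mem_insert_of_mem hi)).two_le
        have := one_div_le_one_div_of_le (by norm_num : (0 : ℝ) < 2) hi2
        linarith
      · intro i hi
        have : 0 ≤ 1 / (i : ℝ) := by positivity
        linarith
    nlinarith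

lemma V_pos (P : Finset ℕ) (hP : ∀ p ∈ P, p.Prime) : 0 < V P := by
  unfold V
  apply prod_pos
  intro i hi
  have hi2 : (2 : ℝ) ≤ i := by exact_mod_cast (hP i hi).two_le
  have := one_div_le_one_div_of_le (by norm_num : (0 : ℝ) < 2) hi2
  linarith

lemma V_le_one (P : Finset ℕ) (hP : ∀ p ∈ P, p.Prime) : V P ≤ 1 := by
  unfold V
  apply prod_le_one
  · intro i hi
    have hi2 : (2 : ℝ) ≤ i := by exact_mod_cast (hP i hi).two_le
    have := one_div_le_one_div_of_le (by norm_num : (0 : ℝ) < 2) hi2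
    linarith
  · intro i hi
    have : 0 ≤ 1 / (i : ℝ) := by positivity
    linarith

/-- the upper bound sieve for a subset of the small primes -/
theorem upP : ∃ C : ℝ, 0 < C ∧ ∃ z0 : ℕ, ∀ z : ℕ, z0 ≤ z → ∀ P : Finset ℕ, (∀ p ∈ P, p.Prime ∧ p ≤ z) →
    ∀ H : ℕ, (z : ℝ) ^ (2 : ℝ) ≤ H → ∀ n, Sf P n H ≤ C * H * V P := by
  classical
  obtain ⟨C, hC, z0, h⟩ := Pool.Agent.N422.LG.t_SUB 1 one_pos
  refine ⟨C, hC, z0, ?_⟩
  intro z hz P hP H hH
  apply removeU (fun q hq => (hP q hq).1) H (C * H) (((Icc 1 z).filter Nat.Prime) \ P)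
  · intro q hq
    rw [Finset.mem_sdiff, mem_filter] at hq
    exact hq.1.2
  · exact disjoint_sdiff
  · intro n
    have e : P ∪ ((Icc 1 z).filter Nat.Prime) \ P = (Icc 1 z).filter Nat.Prime := by
      apply union_sdiff_of_subset
      intro p hp
      rw [mem_filter, mem_Icc]
      exact ⟨⟨(hP p hp).1.pos, (hP p hp).2⟩, (hP p hp).1⟩
    rw [e]
    have h1 := h z hz H (by norm_num; exact_mod_cast hH) n
    rw [Sv_eq, VV_eq] at h1
    unfold Sf
    linarith

end Pool.Agent.H301.SX
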