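import Pool.Agent.H301.SX.Seq
import Pool.Agent.H301.SX.Upper

/-! All scales at once: from the model to periodic functions. -/

set_option autoImplicit false

open Finset

namespace Pool.Agent.H301.SX

open Pool.Agent.N422.NW Pool.Agent.N422.LR Pool.Agent.N422.LG Pool.Agent.N422.SL
open Pool.Agent.Y829 (V)

/-- the places in increasing order -/
def qo (P : Finset ℕ) (i : Fin P.card) : ℕ := P.orderEmbOfFin rfl i

lemma qo_mem (P : Finset ℕ) (i : Fin P.card) : qo P i ∈ P := P.orderEmbOfFin_mem rfl i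

lemma qo_inj (P : Finset ℕ) : Function.Injective (qo P) := (P.orderEmbOfFin rfl).injective

lemma qo_le (P : Finset ℕ) (i j : Fin P.card) : qo P i ≤ qo P j ↔ i ≤ j := (P.orderEmbOfFin rfl).le_iff_le

lemma qo_surj (P : Finset ℕ) {p : ℕ} (hp : p ∈ P) : ∃ i, qo P i = p := by
  have h := Finset.map_orderEmbOfFin_univ P rfl
  rw [← h, mem_map] at hp
  obtain ⟨i, _, hi⟩ := hp
  exact ⟨i, hi⟩

lemma qo_sum (P : Finset ℕ) (f : ℕ → ℝ) : ∑ i, f (qo P i) = ∑ p ∈ P, f p := by
  have h := Finset.map_orderEmbOfFin_univ P rfl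
  conv_rhs => rw [← h]
  rw [sum_map]
  rfl

lemma qo_Pi1 (P : Finset ℕ) (i : Fin P.card) :
    Pi1 (fun i => (qo P i : ℝ)) ((i : ℕ) + 1) = V (P.filter (fun p => p ≤ qo P i)) := by
  have h : P.filter (fun p => p ≤ qo P i) =
      (univ.filter (fun j : Fin P.card => (j : ℕ) < (i : ℕ) + 1)).map (P.orderEmbOfFin rfl).toEmbedding := by
    ext p
    rw [mem_filter, mem_map]
    constructor
    · rintro ⟨h1, h2⟩
      obtain ⟨j, hj⟩ := qo_surj P h1
      refine ⟨j, mem_filter.2 ⟨mem_univ _, ?_⟩, hj⟩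
      rw [← hj, qo_le] at h2
      exact Nat.lt_succ_of_le h2
    · rintro ⟨j, hj, rfl⟩
      exact ⟨qo_mem P j, (qo_le P j i).2 (Nat.le_of_lt_succ (mem_filter.1 hj).2)⟩
  unfold Pi1 V
  rw [h, prod_map]
  rfl

lemma qo_PiN (P : Finset ℕ) : Pi1 (fun i => (qo P i : ℝ)) P.card = V P := by
  unfold Pi1 V
  have h1 : univ.filter (fun j : Fin P.card => (j : ℕ) < P.card) = univ := filter_true_of_mem fun j _ => j.2
  have h := Finset.map_orderEmbOfFin_univ P rfl
  rw [h1]
  conv_rhs => rw [← h]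
  rw [prod_map]
  rfl

/-- one residue class modulo `R` -/
theorem seq_one (h1 : S_NW1) (h2 : S_NX) (h3 : S_ARDG) (Q R r n : ℕ) (P T : Finset ℕ)
    (ν : ℕ → ℕ) (c : ℕ → ℕ → ℝ) (hR : R ∣ Q.factorial)
    (hP : ∀ p ∈ P, p.Prime ∧ p ≤ Q ∧ ¬ p ∣ R) (hT : ∀ p ∈ P, 2 * T.card ≤ p ∧ T.card < p)
    (hT2 : ∀ p ∈ P, ∀ h ∈ T, ∀ h' ∈ T, h' < h + p)
    (hlev : ∀ d, 1 ≤ d → d ≤ Q → ∑ p ∈ P.filter (fun p => p ∣ d), ν p ≤ n)
    (hw : ∀ x, 0 ≤ wt Q c x) (t D x J κ : ℝ) (ht : 0 < t) (hD : 0 < D)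
    (hx : 0 < x) (hx1 : x ≤ 1 / 12) (hJ : ∑ p ∈ P, 1 / (p : ℝ) ≤ J) (hJx : 8 * (x * J) ≤ 1)
    (hκ : ∀ p ∈ P, (T.card : ℝ) / p ≤ κ) (hκ0 : 0 ≤ κ)
    (hν : ∀ p ∈ P, 0 < ν p) (hs : ∀ p ∈ P, 1 / V (P.filter (fun q => q ≤ p)) ≤ D * Real.sinh (ν p * t))
    (hc : ∀ p ∈ P, Real.cosh (ν p * t) ≤ 2) :
    |mQ Q (fun x => wt Q c x * (if x % R = r then 1 else 0) * ((left P T x).card : ℝ)) / V P -
        T.card * mQ Q (fun x => wt Q c x * (if x % R = r then 1 else 0))| ≤
      (n * t * D / x + (2 * x + (64 * x + 8 * κ) * J) * (2 * T.card + n * t * D / x)) *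
        mQ Q (fun x => wt Q c x * (if x % R = r then 1 else 0)) := by
  classical
  set q : Fin P.card → ℕ := qo P with hq
  have hqP : ∀ i, q i ∈ P := fun i => qo_mem P i
  have hinj : Function.Injective q := qo_inj P
  set hs' : Fin T.card → ℕ := fun a => T.equivFin.symm a with hhs
  have hsT : ∀ a, hs' a ∈ T := fun a => (T.equivFin.symm a).2
  have hsinj : Function.Injective hs' := Subtype.val_injective.comp T.equivFin.symm.injective
  obtain ⟨f, hf1, hf2, hf3, hf4⟩ := h3 P.card T.card hs' q (fun i => ν (q i)) n Q Q.factorial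
    (fun j => Nat.lcm (j + 1) R) (fun j x => c (j + 1) (x % (j + 1)) * (if x % R = r then 1 else 0))
    hinj (fun i => ⟨(hP _ (hqP i)).1, (hT _ (hqP i)).2⟩)
    (by
      intro i x a a' ha ha'
      apply hsinj
      rcases le_total (hs' a) (hs' a') with hle | hle
      · have h3 := Nat.dvd_sub ha' ha
        have h4 : x + hs' a' - (x + hs' a) = hs' a' - hs' a := by omega
        rw [h4] at h3
        have h5 := hT2 _ (hqP i) _ (hsT a) _ (hsT a')
        have h6 := Nat.eq_zero_of_dvd_of_lt h3 (by omega)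
        omega
      · have h3 := Nat.dvd_sub ha ha'
        have h4 : x + hs' a - (x + hs' a') = hs' a - hs' a' := by omega
        rw [h4] at h3
        have h5 := hT2 _ (hqP i) _ (hsT a') _ (hsT a)
        have h6 := Nat.eq_zero_of_dvd_of_lt h3 (by omega)
        omega)
    (Nat.factorial_pos _) (fun i => Nat.dvd_factorial (hP _ (hqP i)).1.pos (hP _ (hqP i)).2.1)
    (by
      intro j hj
      have hj' := mem_range.mp hj
      refine ⟨?_, Nat.lcm_dvd (Nat.dvd_factorial (by omega) (by omega)) hR⟩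
      intro x
      have e1 : (x + Nat.lcm (j + 1) R) % (j + 1) = x % (j + 1) := by
        obtain ⟨k, hk⟩ := Nat.dvd_lcm_left (j + 1) R
        rw [hk, Nat.add_mul_mod_self_left]
      have e2 : (x + Nat.lcm (j + 1) R) % R = x % R := by
        obtain ⟨k, hk⟩ := Nat.dvd_lcm_right (j + 1) R
        rw [hk, Nat.add_mul_mod_self_left]
      simp only [e1, e2])
    (by
      intro j hj
      have hj' := mem_range.mp hj
      refine le_trans ?_ (hlev (j + 1) (by omega) (by omega))
      rw [Finset.sum_filter]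
      have e0 := qo_sum P (fun p => if p ∣ Nat.lcm (j + 1) R then (ν p : ℝ) else 0)
      have e1 : ∑ i, (if q i ∣ Nat.lcm (j + 1) R then ν (q i) else 0) =
          ∑ p ∈ P, (if p ∣ Nat.lcm (j + 1) R then ν p else 0) := by
        exact_mod_cast e0
      rw [e1, ← Finset.sum_filter]
      refine Finset.sum_le_sum_of_subset ?_
      intro p hp
      rw [mem_filter] at hp ⊢
      refine ⟨hp.1, ?_⟩
      rcases ((hP p hp.1).1.dvd_lcm).mp hp.2 with h | h
      · exact h
      · exact absurd h (hP p hp.1).2.2)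
  have hFs : ∀ x : ℕ, ∑ j ∈ range Q, c (j + 1) (x % (j + 1)) * (if x % R = r then (1 : ℝ) else 0)
      = wt Q c x * (if x % R = r then 1 else 0) := by
    intro x
    rw [← sum_mul, HIT_wt]
  have hwr : ∀ x : ℕ, 0 ≤ wt Q c x * (if x % R = r then (1 : ℝ) else 0) := by
    intro x
    refine mul_nonneg (hw x) ?_
    split_ifs <;> norm_num
  have hf0 : ∀ γ, 0 ≤ f γ := fun γ => hf2 γ 0 fun x _ => by
    rw [hFs]
    exact hwr x
  have h4 := seqm h1 h2 P.card T.card n q (fun i => ν (q i)) f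
    (fun i => ⟨(hT _ (hqP i)).1, (hP _ (hqP i)).1.two_le⟩) hf0 hf1 t D x J κ ht hD hx hx1
    (by rw [hq, qo_sum P (fun p => 1 / (p : ℝ))]; exact hJ) hJx (fun i => hκ _ (hqP i)) hκ0
    (fun i => hν _ (hqP i)) (fun i => by
      rw [hq, qo_Pi1]
      exact hs _ (qo_mem P i)) (fun i => hc _ (hqP i))
  have e5 : MM (fun i => (q i : ℝ)) f P.card =
      (∑ γ, muP (fun i => (q i : ℝ)) γ * f γ * ((alive γ P.card).card : ℝ)) / V P := by
    unfold MM
    rw [hq, qo_PiN, sum_div]
    apply sum_congr rfl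
    intro γ _
    ring
  rw [e5, hf3, hf4] at h4
  have e2 : ∀ x : ℕ, (univ.filter (fun a : Fin T.card => ∀ i, ¬ q i ∣ x + hs' a)).card = (left P T x).card := by
    intro x
    refine Finset.card_bij (fun a _ => hs' a) ?_ ?_ ?_
    · intro a ha
      rw [mem_filter] at ha
      refine mem_filter.2 ⟨hsT a, ?_⟩
      intro p hp
      obtain ⟨i, hi⟩ := qo_surj P hp
      have h5 := ha.2 i
      rw [hq, hi] at h5
      exact h5
    · intro a _ b _ h
      exact hsinj h
    · intro b hb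
      rw [left, mem_filter] at hb
      refine ⟨T.equivFin ⟨b, hb.1⟩, ?_, by simp [hhs]⟩
      rw [mem_filter]
      refine ⟨mem_univ _, fun i => ?_⟩
      have h5 := hb.2 (q i) (hqP i)
      simpa [hhs] using h5
  have e3 : (∑ x ∈ range Q.factorial, (∑ j ∈ range Q, c (j + 1) (x % (j + 1)) * (if x % R = r then (1 : ℝ) else 0)) *
      ((univ.filter (fun a : Fin T.card => ∀ i, ¬ q i ∣ x + hs' a)).card : ℝ)) / (Q.factorial : ℝ) =
      mQ Q (fun x => wt Q c x * (if x % R = r then 1 else 0) * ((left P T x).card : ℝ)) := by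
    unfold mQ
    congr 1
    refine sum_congr rfl fun x _ => ?_
    rw [hFs, e2]
  have e4 : (∑ x ∈ range Q.factorial, ∑ j ∈ range Q, c (j + 1) (x % (j + 1)) * (if x % R = r then (1 : ℝ) else 0)) /
      (Q.factorial : ℝ) = mQ Q (fun x => wt Q c x * (if x % R = r then 1 else 0)) := by
    unfold mQ
    congr 1
    exact sum_congr rfl fun x _ => hFs x
  rw [e3, e4] at h4
  exact h4

/-- all scales at once, for a weight -/
theorem seqa (h1 : S_NW1) (h2 : S_NX) (h3 : S_ARDG) (Q U R : ℕ) (P : Finset ℕ) (S : ℕ → Finset ℕ)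
    (c : ℕ → ℕ → ℝ) (D x J κ : ℝ) (hQ : 2 ≤ Q) (hR0 : 0 < R) (hR : R ∣ Q.factorial)
    (hP : ∀ p ∈ P, p.Prime ∧ 2 * U < p ∧ p ≤ Q ∧ ¬ p ∣ R) (hS : ∀ n, S (n + R) = S n) (hSU : ∀ n, S n ⊆ Icc 1 U)
    (hw : ∀ n, 0 ≤ wt Q c n) (hD : 0 < D) (hx : 0 < x) (hx1 : x ≤ 1 / 12) (hJ : ∑ p ∈ P, 1 / (p : ℝ) ≤ J)
    (hJx : 8 * (x * J) ≤ 1) (hκ : ∀ p ∈ P, (U : ℝ) / p ≤ κ) (hκ0 : 0 ≤ κ)
    (hs : ∀ p ∈ P, 1 / V (P.filter (fun q => q ≤ p)) ≤ D * (Real.log p / Real.log Q)) :
    |mQ Q (fun n => wt Q c n * ((left P (S n) n).card : ℝ)) / V P - mQ Q (fun n => wt Q c n * ((S n).card : ℝ))| ≤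
      2 * (2 * x + (64 * x + 8 * κ) * J) * mQ Q (fun n => wt Q c n * ((S n).card : ℝ)) +
      (1 + (2 * x + (64 * x + 8 * κ) * J)) * (2 * D / x) * mQ Q (wt Q c) := by
  classical
  have hlogQ : 0 < Real.log Q := Real.log_pos (by exact_mod_cast (by omega : 1 < Q))
  have hlog2 : 0 < Real.log 2 := Real.log_pos (by norm_num)
  obtain ⟨n, hn⟩ : ∃ n : ℕ, Real.log Q / Real.log 2 + 1 ≤ n := exists_nat_ge _
  have hnpos : (0 : ℝ) < n := by
    have : 0 < Real.log Q / Real.log 2 := by positivity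
    linarith
  have hnQ : Real.log Q ≤ n * Real.log 2 := by
    have h4 : Real.log Q / Real.log 2 ≤ n := by linarith
    rwa [div_le_iff₀ hlog2] at h4
  set ν : ℕ → ℕ := fun p => ⌊(n : ℝ) * Real.log p / Real.log Q⌋₊ with hν
  have hlev : ∀ d, 1 ≤ d → d ≤ Q → ∑ p ∈ P.filter (fun p => p ∣ d), ν p ≤ n := by
    intro d hd1 hd2
    have h3 : ∏ p ∈ P.filter (fun p => p ∣ d), p ∣ d := by
      refine Finset.prod_primes_dvd d ?_ ?_
      · intro p hp
        exact (hP p (mem_filter.mp hp).1).1.prime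
      · intro p hp
        exact (mem_filter.mp hp).2
    have h4 : ∏ p ∈ P.filter (fun p => p ∣ d), p ≤ Q := (Nat.le_of_dvd hd1 h3).trans hd2
    have h5 : ∑ p ∈ P.filter (fun p => p ∣ d), Real.log p ≤ Real.log Q := by
      rw [← Real.log_prod (fun p hp => by
        have := (hP p (mem_filter.mp hp).1).1.pos
        positivity)]
      have h4' : ((∏ p ∈ P.filter (fun p => p ∣ d), p : ℕ) : ℝ) ≤ Q := Nat.cast_le.mpr h4
      rw [Nat.cast_prod] at h4'
      refine Real.log_le_log ?_ h4'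
      refine prod_pos fun p hp => ?_
      have := (hP p (mem_filter.mp hp).1).1.pos
      positivity
    have h6 : ((∑ p ∈ P.filter (fun p => p ∣ d), ν p : ℕ) : ℝ) ≤ n := by
      push_cast
      calc ∑ p ∈ P.filter (fun p => p ∣ d), ((ν p : ℕ) : ℝ)
          ≤ ∑ p ∈ P.filter (fun p => p ∣ d), (n : ℝ) * Real.log p / Real.log Q := by
            refine sum_le_sum fun p _ => ?_
            refine Nat.floor_le ?_
            have := Real.log_natCast_nonneg p
            positivity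
        _ = n * (∑ p ∈ P.filter (fun p => p ∣ d), Real.log p) / Real.log Q := by
            rw [← sum_div, ← mul_sum]
        _ ≤ n * Real.log Q / Real.log Q := by
            refine div_le_div_of_nonneg_right ?_ hlogQ.le
            exact mul_le_mul_of_nonneg_left h5 hnpos.le
        _ = n := by field_simp
    exact_mod_cast h6
  have hνn : ∀ p ∈ P, 1 ≤ (n : ℝ) * Real.log p / Real.log Q ∧ (n : ℝ) * Real.log p / Real.log Q ≤ n := by
    intro p hp
    have hp2 : (2 : ℝ) ≤ p := by exact_mod_cast (hP p hp).1.two_le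
    have hpQ : (p : ℝ) ≤ Q := by exact_mod_cast (hP p hp).2.2.1
    constructor
    · rw [le_div_iff₀ hlogQ, one_mul]
      exact hnQ.trans (mul_le_mul_of_nonneg_left (Real.log_le_log (by norm_num) hp2) hnpos.le)
    · rw [div_le_iff₀ hlogQ]
      exact mul_le_mul_of_nonneg_left (Real.log_le_log (by linarith) hpQ) hnpos.le
  have hν1 : ∀ p ∈ P, 1 ≤ ν p := fun p hp => Nat.le_floor (by
    rw [Nat.cast_one]
    exact (hνn p hp).1)
  have hν2 : ∀ p ∈ P, (n : ℝ) * Real.log p / Real.log Q ≤ 2 * ν p := by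
    intro p hp
    have h4 : (n : ℝ) * Real.log p / Real.log Q < ν p + 1 := Nat.lt_floor_add_one _
    have h5 : (1 : ℝ) ≤ ν p := by exact_mod_cast hν1 p hp
    linarith
  have hν3 : ∀ p ∈ P, (ν p : ℝ) ≤ n := by
    intro p hp
    have h4 : (ν p : ℝ) ≤ (n : ℝ) * Real.log p / Real.log Q := Nat.floor_le (by
      have := (hνn p hp).1
      linarith)
    exact h4.trans (hνn p hp).2
  have ht : (0 : ℝ) < 1 / n := by positivity
  have hcosh : ∀ p ∈ P, Real.cosh (ν p * (1 / n)) ≤ 2 := by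
    intro p hp
    have h4 : (ν p : ℝ) * (1 / n) ≤ 1 := by
      rw [mul_one_div, div_le_one hnpos]
      exact hν3 p hp
    have h5 : Real.cosh (ν p * (1 / n)) ≤ Real.cosh 1 := by
      rw [Real.cosh_le_cosh, abs_of_nonneg (by positivity), abs_one]
      exact h4
    have h6 : Real.cosh 1 ≤ 2 := by
      rw [Real.cosh_eq]
      have e1 := Real.exp_one_lt_d9
      have e2 : Real.exp (-1) ≤ 1 := Real.exp_le_one_iff.2 (by norm_num)
      linarith
    exact h5.trans h6
  have hsinh : ∀ p ∈ P, 1 / V (P.filter (fun q => q ≤ p)) ≤ 2 * D * Real.sinh (ν p * (1 / n)) := by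
    intro p hp
    refine (hs p hp).trans ?_
    have h4 : (0 : ℝ) ≤ ν p * (1 / n) := by positivity
    have h5 := Real.self_le_sinh_iff.2 h4
    have h6 : Real.log p / Real.log Q ≤ 2 * (ν p * (1 / n)) := by
      have h7 := hν2 p hp
      rw [mul_one_div, ← mul_div_assoc, le_div_iff₀ hnpos]
      calc Real.log p / Real.log Q * n = n * Real.log p / Real.log Q := by ring
        _ ≤ 2 * ν p := h7
    calc D * (Real.log p / Real.log Q) ≤ D * (2 * (ν p * (1 / n))) := mul_le_mul_of_nonneg_left h6 hD.le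
      _ ≤ D * (2 * Real.sinh (ν p * (1 / n))) := by
          apply mul_le_mul_of_nonneg_left _ hD.le
          linarith
      _ = 2 * D * Real.sinh (ν p * (1 / n)) := by ring
  have hSr : ∀ x, S x = S (x % R) := by
    intro x
    have h3 : ∀ k x0, S (x0 + k * R) = S x0 := by
      intro k
      induction k with
      | zero => intro x0; simp
      | succ k ih =>
        intro x0
        rw [Nat.succ_mul, ← Nat.add_assoc, hS, ih]
    conv_lhs => rw [← Nat.mod_add_div x R, Nat.mul_comm R (x / R)]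
    exact h3 _ _
  have hScard : ∀ r, (S r).card ≤ U := fun r => by
    have h4 := card_le_card (hSU r)
    rw [Nat.card_Icc, Nat.add_sub_cancel] at h4
    exact h4
  set w1 : ℝ := 2 * x + (64 * x + 8 * κ) * J with hw1
  set G : ℝ := 2 * D / x with hG
  have hJ0 : 0 ≤ J := le_trans (sum_nonneg fun i _ => by positivity) hJ
  have hw10 : 0 ≤ w1 := by positivity
  have hG0 : 0 ≤ G := by positivity
  have hcls : ∀ r ∈ range R, |mQ Q (fun x => wt Q c x * (if x % R = r then 1 else 0) *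
        ((left P (S r) x).card : ℝ)) / V P -
        (S r).card * mQ Q (fun x => wt Q c x * (if x % R = r then 1 else 0))| ≤
      (G + w1 * (2 * (S r).card + G)) * mQ Q (fun x => wt Q c x * (if x % R = r then 1 else 0)) := by
    intro r _
    have h4 := seq_one h1 h2 h3 Q R r n P (S r) ν c hR (fun p hp => ⟨(hP p hp).1, (hP p hp).2.2⟩)
      (fun p hp => by
        have a1 := (hP p hp).2.1
        have a2 := hScard r
        constructor <;> omega)
      (fun p hp h hh h' hh' => by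
        have a1 := (hP p hp).2.1
        have a2 := mem_Icc.1 (hSU r hh')
        omega) hlev hw (1 / n) (2 * D) x J κ ht (by positivity) hx hx1 hJ hJx
      (fun p hp => by
        refine le_trans ?_ (hκ p hp)
        apply div_le_div_of_nonneg_right _ (Nat.cast_nonneg _)
        exact_mod_cast hScard r) hκ0 hν1 hsinh hcosh
    have e1 : (n : ℝ) * (1 / n) * (2 * D) / x = G := by
      rw [hG]
      field_simp
    rw [e1] at h4
    exact h4
  have hone : ∀ x : ℕ, ∑ r ∈ range R, (if x % R = r then (1 : ℝ) else 0) = 1 := by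
    intro x
    rw [sum_ite_eq, if_pos (mem_range.mpr (Nat.mod_lt x hR0))]
  have e1 : ∑ r ∈ range R, mQ Q (fun x => wt Q c x * (if x % R = r then 1 else 0)
        * ((left P (S r) x).card : ℝ)) = mQ Q (fun x => wt Q c x * ((left P (S x) x).card : ℝ)) := by
    rw [← HIT_mQ_sum]
    congr 1
    funext x
    have e2 : ∀ r ∈ range R, wt Q c x * (if x % R = r then (1 : ℝ) else 0) * ((left P (S r) x).card : ℝ)
        = (wt Q c x * ((left P (S x) x).card : ℝ)) * (if x % R = r then (1 : ℝ) else 0) := by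
      intro r _
      by_cases h : x % R = r
      · rw [if_pos h, hSr x, h]
        ring
      · rw [if_neg h]
        ring
    rw [sum_congr rfl e2, ← mul_sum, hone, mul_one]
  have e4 : mQ Q (fun x => wt Q c x * ((S x).card : ℝ)) = ∑ r ∈ range R, ((S r).card : ℝ)
      * mQ Q (fun x => wt Q c x * (if x % R = r then 1 else 0)) := by
    simp only [← HIT_mQ_mul]
    rw [← HIT_mQ_sum]
    congr 1
    funext x
    have e2 : ∀ r ∈ range R, ((S r).card : ℝ) * (wt Q c x * (if x % R = r then (1 : ℝ) else 0))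
        = (wt Q c x * (S x).card) * (if x % R = r then (1 : ℝ) else 0) := by
      intro r _
      by_cases h : x % R = r
      · rw [if_pos h, hSr x, h]
        ring
      · rw [if_neg h]
        ring
    rw [sum_congr rfl e2, ← mul_sum, hone, mul_one]
  have e5 : mQ Q (wt Q c) = ∑ r ∈ range R,
      mQ Q (fun x => wt Q c x * (if x % R = r then 1 else 0)) := by
    rw [← HIT_mQ_sum]
    congr 1
    funext x
    rw [← mul_sum, hone, mul_one]
  have e6 : mQ Q (fun n => wt Q c n * ((left P (S n) n).card : ℝ)) / V P - mQ Q (fun n => wt Q c n * ((S n).card : ℝ)) =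
      ∑ r ∈ range R, (mQ Q (fun x => wt Q c x * (if x % R = r then 1 else 0) *
        ((left P (S r) x).card : ℝ)) / V P -
        (S r).card * mQ Q (fun x => wt Q c x * (if x % R = r then 1 else 0))) := by
    rw [sum_sub_distrib, ← sum_div, e1, e4]
  rw [e6]
  refine (abs_sum_le_sum_abs _ _).trans ((sum_le_sum hcls).trans (le_of_eq ?_))
  rw [e4, e5, mul_sum, mul_sum, ← sum_add_distrib]
  apply sum_congr rfl
  intro r _
  ring

end Pool.Agent.H301.SX
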